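import Mathlib

/-!
# Squad PQP, stage 2, block T (helper21): essential maps

Topology only, no analysis on the sphere. `P` is a real normed space (in the application a subspace
of `ℝ^5`, or `ℂ`), `E` a real normed space (functions). A pair `β : P × E → P`, `T : P × E → E` stands
for the map `(z, h) ↦ (β (z, h), h - T (z, h))` of the domain `Dm = {‖z‖ ≤ 1, ‖h‖ ≤ 1}`, `T` compact. It is
`Ine` (inessential) if some pair with the same boundary values has no zero in `Dm`.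
Every row has a complete proof in its docstring.
-/

set_option autoImplicit false

open scoped Topology
open Filter Set

noncomputable section

namespace Pool.Agent.PQP

/-- the domain -/
def Dm (P E : Type) [NormedAddCommGroup P] [NormedAddCommGroup E] : Set (P × E) :=
  {z | ‖z.1‖ ≤ 1 ∧ ‖z.2‖ ≤ 1}

/-- its boundary -/
def Bd (P E : Type) [NormedAddCommGroup P] [NormedAddCommGroup E] : Set (P × E) :=
  {z | ‖z.1‖ ≤ 1 ∧ ‖z.2‖ ≤ 1 ∧ (‖z.1‖ = 1 ∨ ‖z.2‖ = 1)}

/-- continuous with relatively compact range on the set `A` -/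
def Cmp {X E : Type} [TopologicalSpace X] [TopologicalSpace E] (A : Set X) (T : X → E) : Prop :=
  ContinuousOn T A ∧ ∃ K : Set E, IsCompact K ∧ ∀ z ∈ A, T z ∈ K

/-- a pair with the same boundary values has no zero -/
def Ine {P E : Type} [NormedAddCommGroup P] [NormedAddCommGroup E] (β : P × E → P)
    (T : P × E → E) : Prop :=
  ∃ (β' : P × E → P) (T' : P × E → E), ContinuousOn β' (Dm P E) ∧ Cmp (Dm P E) T' ∧
    (∀ z ∈ Bd P E, β' z = β z ∧ T' z = T z) ∧ ∀ z ∈ Dm P E, ¬ (β' z = 0 ∧ z.2 = T' z)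

/-- `z ↦ |z| (z / |z|)^W` -/
def prw (W : ℤ) (z : ℂ) : ℂ := (‖z‖ : ℂ) * (z / ‖z‖) ^ W

/-- HMT. Homotopy invariance (Granas). `β s`, `T s`, `0 ≤ s ≤ 1`, without zeros on the boundary; if the
end `s = 1` is inessential, so is the end `s = 0`.
Proof. Let `(β', T')` be a pair without zeros and with the boundary values of `(β 1, T 1)`. Extend the
family to `s ∈ [0, 2]`: for `1 ≤ s ≤ 2` take `(2 - s) (β 1, T 1) + (s - 1) (β', T')`; on the boundary it
is constant `= (β 1, T 1)`, no zeros. (`T` has values in a compact set: the image of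
`K × K' × [0, 1]` under a continuous map.) Let `Z ⊆ Dm` be the set of `z` such that some
`s ∈ [0, 2]` has `β s z = 0`, `z.2 = T s z`. `Z` is closed in `P × E` (if `z_n → z`, then a subsequence of
`s_n` converges) and disjoint from the closed set `Bd`. Urysohn: `λ : P × E → [0, 2]` continuous, `0` on
`Bd`, `2` on `Z` (if `Z = ∅` this is also fine). Then `z ↦ (β (λ z) z, T (λ z) z)` has the boundary values
of `(β 0, T 0)` and no zeros: a zero `z` is in `Z`, so `λ z = 2` and `(β', T')` has a zero. -/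
def HmtStmt : Prop :=
  ∀ (P E : Type) [NormedAddCommGroup P] [NormedSpace ℝ P] [NormedAddCommGroup E] [NormedSpace ℝ E]
    (β : ℝ × (P × E) → P) (T : ℝ × (P × E) → E),
    ContinuousOn β (Icc (0 : ℝ) 1 ×ˢ Dm P E) → Cmp (Icc (0 : ℝ) 1 ×ˢ Dm P E) T →
    (∀ s ∈ Icc (0 : ℝ) 1, ∀ z ∈ Bd P E, ¬ (β (s, z) = 0 ∧ z.2 = T (s, z))) →
    Ine (fun z => β (1, z)) (fun z => T (1, z)) → Ine (fun z => β (0, z)) (fun z => T (0, z))

/-- DOL. Finite dimensional case: a continuous map of `ℂ × ℝⁿ` to itself which is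
`(z, h) ↦ (|z| (z/|z|)^W, h)`, `W ≠ 0`, outside a bounded set has a zero.
Proof by the Borsuk-Ulam-Dold theorem `Pool.Agent.Helper73_CrossIndex.no_equivariant_map` (see
`Pool.Agent.Common_Brouwer.no_odd` for the case `W = ±1`, `G = ℤˣ`). We may assume `n = 2 m` (otherwise
add one coordinate `h'` and take `(z, h, h') ↦ ((1 - l) g(z, h) + l (prw W z, h), h')`,
`l = min 1 |h'|`), so the space is `V = ℂ × ℂ^m`. Let `p` be an odd prime which does
not divide `W`, `G = Multiplicative (ZMod p)`, `ζ = e^{2πi/p}`. `G` acts on `V` by `g u = ζ^g u` (source)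
and by `g * (v₀, v') = (ζ^{W g} v₀, ζ^g v')` (target). The map `u ↦ (prw W u₀, u')` is equivariant. Let
`R` be as in the hypothesis for a `G`-invariant norm `ν` (maximum of the absolute values of the complex
coordinates), and suppose `g` has no zero.
SOURCE: for `x ∈ E_{2m+2} G` (levels `0, …, 2m+2`) let `u_j(x) = ∑_g (x(g, 2j) + x(g, 2j+1)) ζ^g`,
`j = 0, …, m`, `τ(x) = ∑_g x(g, 2m+2)`. As `p` is odd, `s ζ^g + s' ζ^{g'} ≠ 0` for `s, s' ≥ 0` not both zero,
so `u(x) ≠ 0` if `τ(x) ≠ 1`. Put `ũ(x) = R (1 - τ) u / ν(u)` (`0` if `τ = 1`), continuous, equivariant.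
For `k ∈ G` let `A_k` be the closed set of `x` with `x(g, 2m+2) = 0` for all `g ≠ k`; on `A_k` put
`Φ(x) = k * g(k⁻¹ ũ(x))`. On the intersections `τ = 0`, `ν(ũ) = R`, `g(k⁻¹ ũ) = k⁻¹ * (prw W ũ₀, ũ')`, so
`Φ` is well defined, continuous, equivariant and without zeros.
TARGET: for `v ∈ V ∖ 0` define a point of `E_{2m+1} G` with coordinates proportional to
`x(g, 2j) = max (0, Re(v_j ζ^{-a g}) - cos(π/p) |v_j|)`,
`x(g, 2j+1) = max (0, Re(v_j e^{-iπ/p} ζ^{-a g}) - cos(π/p) |v_j|)`, `a = W` for `j = 0`, `a = 1` for `j ≥ 1`: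
positive iff the angle between `v_j` and `ζ^{a g}` (resp. `e^{iπ/p} ζ^{a g}`) is `< π/p`, so for each level
at most one `g` is positive, and for `v_j ≠ 0` one of the two levels is positive. Equivariant and
continuous. The composition contradicts `no_equivariant_map`. -/
def DolStmt : Prop :=
  ∀ (n : ℕ) (W : ℤ) (g : ℂ × (Fin n → ℝ) → ℂ × (Fin n → ℝ)) (R : ℝ), W ≠ 0 → Continuous g →
    (∀ z, R ≤ ‖z‖ → g z = (prw W z.1, z.2)) → ∃ z, g z = 0

/-- FTD. From DOL: the same in a normed space, compact perturbations of the identity.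
Proof. Suppose there is no zero. There is `ε > 0` such that `‖β z‖ < ε` implies `ε ≤ ‖z.2 - T z‖`
(otherwise take `z_n` with `β z_n → 0`, `z_n.2 - T z_n → 0`; `z_n` is bounded (outside the ball of radius
`R` we have `T = 0`, `β = prw`, `‖prw W z‖ = ‖z‖`), a subsequence of `T z_n` and of `z_n.1` converges, so
`z_n` converges to a zero). Let `K ∋ 0` be compact with `T z ∈ K`; with an `ε/3`-net `x_i` of `K` let
`p(x) = ∑ κ_i(x) x_i / ∑ κ_i(x)`, `κ_i(x) = max(0, ε/3 - ‖x - x_i‖)` (as in `Common_Brouwer.schauder`):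
continuous on `K`, `‖p(x) - x‖ ≤ ε/3`. `T' z = p(T z) - p(0)` has values in the finite dimensional space
`V` spanned by the `x_i`, `‖T' - T‖ ≤ 2ε/3`, `T' = 0` where `T = 0`. Choose a linear isomorphism
`V ≅ ℝⁿ`; the map `(z, h) ↦ (β (z, h), h - T'(z, h))` of `ℂ × V` has no zero and satisfies the hypotheses
of DOL, a contradiction. -/
def FtdStmt : Prop :=
  ∀ (E : Type) [NormedAddCommGroup E] [NormedSpace ℝ E] (W : ℤ) (β : ℂ × E → ℂ)
    (T : ℂ × E → E) (R : ℝ), W ≠ 0 → Continuous β → Cmp univ T →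
    (∀ z, R ≤ ‖z‖ → β z = prw W z.1 ∧ T z = 0) → ∃ z : ℂ × E, β z = 0 ∧ z.2 = T z

/-- ESS. From FTD. Product maps with a boundary loop of nonzero winding number are essential: `b` is a
continuous map of the plane, `b(e^{iφ}) = r(φ) e^{i θ(φ)} ≠ 0` with `θ` continuous, `θ(2π) ≠ θ(0)`.
Proof. `e^{iθ}` has period `2π`, so `θ(φ + 2π) - θ(φ) = 2π W` with a constant integer `W ≠ 0`. Let
`Γ(s, φ) = ((1-s) r(φ) + s) exp(i ((1-s) θ(φ) + s W φ))`, `0 ≤ s ≤ 1`: continuous, period `2π` in `φ`, no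
zeros. Suppose `(β', T')` has the boundary values of `(b ∘ fst, 0)` and no zero in `Dm`. Define a pair on
`ℂ × E`: on `Dm` take `(β', T')`; outside `T = 0`, and with `b₁(z) = b(z)` for `‖z‖ ≤ 1`,
`b₁(z) = Γ(‖z‖ - 1, arg z)` for `1 ≤ ‖z‖ ≤ 2`, `b₁(z) = min(2 ‖z‖ - 3, ‖z‖) (z/‖z‖)^W` for `‖z‖ ≥ 2`
(so `b₁(z) = prw W z` for `‖z‖ ≥ 3`), `β(z, h) = b₁(z)` for `‖h‖ ≤ 1`, `β(z, h) = (1 - l) b₁(z) + l prw W z`, `l = min(1, ‖h‖ - 1)` for `‖h‖ ≥ 1`.
It is continuous, has no zeros (outside `Dm` a zero has `h = 0`, so `‖z‖ > 1`, `β = b₁(z) ≠ 0`), equals the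
product map for `‖(z, h)‖ ≥ 3`: contradiction with FTD. -/
def EssStmt : Prop :=
  ∀ (E : Type) [NormedAddCommGroup E] [NormedSpace ℝ E] (b : ℂ → ℂ) (r θ : ℝ → ℝ), Continuous b →
    Continuous r → Continuous θ → (∀ φ, 0 < r φ) →
    (∀ φ : ℝ, b (Complex.exp (φ * Complex.I)) = r φ * Complex.exp (θ φ * Complex.I)) →
    θ (2 * Real.pi) ≠ θ 0 → ¬ Ine (fun z : ℂ × E => b z.1) (fun _ => 0)

/-- ES1. The one dimensional case: `b(1)` and `b(-1)` have different signs.
Proof. Let `(β', T')` be a pair with the boundary values of `(b ∘ fst, 0)`, `b(-1) < 0 < b(1)` (otherwise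
replace `β` by `-β`). As in FTD there is `ε > 0` such that `|β' z| < ε` implies `ε ≤ ‖z.2 - T' z‖` on `Dm`, and
`T'' = p(T') - p(0)` with values in a finite dimensional subspace `V`, `‖T'' - T'‖ < ε`, `T'' = 0` on
`Bd`. On the compact convex set `[-1, 1] × {h ∈ V | ‖h‖ ≤ 1}` put
`F(z, h) = (pr(z - β'(z, h)), pr'(T''(z, h)))` with the radial retractions to `[-1, 1]` and to the unit
ball. `Common_Brouwer.schauder` gives a fixed point; if `‖T''‖ > 1` there then `‖h‖ = 1`, so `T'' = 0`,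
impossible; so `h = T''`; if `z = 1` then `β' = b(1) > 0` and `pr(1 - b(1)) < 1`, impossible, and in the
same way for `z = -1`; so `β' = 0`, `h = T''`, contradiction to the choice of `ε`. -/
def Es1Stmt : Prop :=
  ∀ (E : Type) [NormedAddCommGroup E] [NormedSpace ℝ E] (b : ℝ → ℝ), Continuous b →
    b 1 * b (-1) < 0 → ¬ Ine (fun z : ℝ × E => b z.1) (fun _ => 0)

/-- WND. Angles which cross the multiples of `π` downwards only. `y = r sin α`, `x = r cos α`, `r > 0`, and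
at each zero of `y` the derivative of `y` exists and `x y' < 0`. If `φ₀ < φ₁` are zeros of `y` then
`α(φ₁) ≤ α(φ₀) - π`.
Proof. `α(φ₀) = k π`. Just to the right of `φ₀` the sign of `y` is that of `y'(φ₀)`, i.e. of
`-x(φ₀)`, `sign x(φ₀) = (-1)^k`; so `sin (α - k π) < 0` there and by continuity `α < k π`. If `α(φ) ≥ k π` for
some `φ > φ₀`, let `φ₂` be the infimum of `{φ ≥ φ₀ + small | α φ ≥ k π}`; `α(φ₂) = k π`, `α < k π` just to
the left of `φ₂`, but there (same argument) `sin (α - k π) > 0`: contradiction. So `α(φ₁) < k π` and it is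
an integral multiple of `π`. -/
def WndStmt : Prop :=
  ∀ (x y α r : ℝ → ℝ), Continuous α → Continuous x → Continuous y →
    (∀ φ, 0 < r φ ∧ x φ = r φ * Real.cos (α φ) ∧ y φ = r φ * Real.sin (α φ)) →
    (∀ φ, y φ = 0 → ∃ y' : ℝ, HasDerivAt y y' φ ∧ x φ * y' < 0) →
    ∀ φ₀ φ₁ : ℝ, φ₀ < φ₁ → y φ₀ = 0 → y φ₁ = 0 → α φ₁ ≤ α φ₀ - Real.pi

/-- LFT. A continuously differentiable curve without zeros has a continuous angle.
Proof. `L(φ) = ∫₀^φ γ'/γ`, `γ e^{-L}` is constant `= |γ 0| e^{i a}`; `α = a + Im L`,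
`r = |γ 0| e^{Re L}`. -/
def LftStmt : Prop :=
  ∀ (γ γ' : ℝ → ℂ), (∀ φ, HasDerivAt γ (γ' φ) φ) → Continuous γ' → (∀ φ, γ φ ≠ 0) →
    ∃ r α : ℝ → ℝ, Continuous r ∧ Continuous α ∧ (∀ φ, 0 < r φ) ∧
      ∀ φ : ℝ, γ φ = r φ * Complex.exp (α φ * Complex.I)

end Pool.Agent.PQP
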