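import Pool.Agent.PQP.StmtsV
import Pool.Agent.FLX.Stmts

/-!
# Squad PQP, block C (helper27): classification for constant curvature, compactness

`c = <e, x>`, `c' = <e, y>` or `c' = <e, tau x>`; `κ = sq b`.  The rows `KER POW MOA MOS MOM` are the
(proved) statements of `Pool.Agent.FLX`; they may be used as hypotheses `(ker : KerStmt)`, ...
Every row has a complete proof in its docstring.
-/

set_option autoImplicit false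

open scoped InnerProductSpace Topology ContDiff Manifold
open MeasureTheory Filter Set

noncomputable section

namespace Pool.Agent.PQP

open Pool.Agent.Helper42_Paneitz Pool.Agent.Helper82_Vir Pool.Agent.FLX

/-! ### 1. Classification: moving caps -/

/-- the cap `<e, y> ≥ s` -/
def hcap (e : S4) (s : ℝ) : Set S4 := {y : S4 | s ≤ ⟪(e : E5), (y : E5)⟫_ℝ}

/-- conformal factor of the Moebius reflection in the sphere `<e, x> = s` -/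
def capJ (e : S4) (s : ℝ) (x : S4) : ℝ :=
  (1 - s ^ 2) / (1 + s ^ 2 - 2 * s * ⟪(e : E5), (x : E5)⟫_ℝ)

/-- the Moebius reflection, formula in `ℝ⁵` -/
def tauE (e : S4) (s : ℝ) (x : S4) : E5 :=
  (1 + s ^ 2 - 2 * s * ⟪(e : E5), (x : E5)⟫_ℝ)⁻¹ •
    ((1 - s ^ 2) • (x : E5) - (2 * (⟪(e : E5), (x : E5)⟫_ℝ - s)) • (e : E5))

open Classical in
/-- the Moebius reflection in the sphere `<e, x> = s` -/
def tau (e : S4) (s : ℝ) (x : S4) : S4 :=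
  if h : ‖tauE e s x‖ = 1 then ⟨tauE e s x, mem_sphere_zero_iff_norm.2 h⟩ else x

/-- the reflected density -/
def ftau (e : S4) (s : ℝ) (f : S4 → ℝ) (x : S4) : ℝ := f (tau e s x) * capJ e s x ^ 4

/-- Green function of the cap `<e, x> ≥ s` -/
def capG (e : S4) (s : ℝ) (x y : S4) : ℝ :=
  Real.log (1 + 2 * (⟪(e : E5), (x : E5)⟫_ℝ - s) * (⟪(e : E5), (y : E5)⟫_ℝ - s) /
    ((1 - s ^ 2) * (1 - ⟪(x : E5), (y : E5)⟫_ℝ)))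

/-- TAU. Uses MOA, MOS, MOM. `c = <e, x>`, `N = 1 + s² - 2 s c ≥ (1 - |s|)² > 0`.
Norm: `|(1 - s²) x - 2 (c - s) e|² = (1-s²)² - 4 (1-s²) (c-s) c + 4 (c-s)² = N²`.
`<e, tau x> = ((1 - s²) c - 2 (c - s)) / N`.  The third: expand `<tau x, tau y>`:
`N_x N_y - <(1-s²) x - 2(c-s) e, (1-s²) y - 2(c'-s) e> = (1-s²)² (1 - <x,y>)`.
`tau (tau x) = x` and `capJ (tau x) capJ x = 1` from `1 + s² - 2 s <e, tau x> = (1-s²)²/N`.
The fifth: `N_y - <x, (1-s²) y - 2(c'-s) e> = (1-s²)(1 - <x,y>) + 2 (c-s)(c'-s)`.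
Change of variables: `R x = x - 2 c e` (Mathlib's `reflection`, an isometry; `measurePreserving_act`,
valid for every function because `act R` is a homeomorphism), `b = (2 s/(1+s²)) e`, `|b| < 1`; then
`sq b = (1-s²)/(1+s²)`, `1 + <b, R x> = N/(1+s²)`, so `tauE e s x = mobE b (R x)` and
`Jac b (R x) = capJ e s x ^ 4`; MOM. Continuity: `tauE` is a continuous function of `(s, x)`. -/
def TauStmt : Prop :=
  ∀ (e : S4) (s : ℝ), -1 < s → s < 1 →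
    (∀ x : S4, 0 < 1 + s ^ 2 - 2 * s * ⟪(e : E5), (x : E5)⟫_ℝ ∧ 0 < capJ e s x ∧
      (tau e s x : E5) = tauE e s x) ∧
    (∀ x : S4, ⟪(e : E5), (tau e s x : E5)⟫_ℝ =
      (2 * s - (1 + s ^ 2) * ⟪(e : E5), (x : E5)⟫_ℝ) /
        (1 + s ^ 2 - 2 * s * ⟪(e : E5), (x : E5)⟫_ℝ)) ∧
    (∀ x y : S4, 1 - ⟪(tau e s x : E5), (tau e s y : E5)⟫_ℝ =
      (1 - ⟪(x : E5), (y : E5)⟫_ℝ) * capJ e s x * capJ e s y) ∧
    (∀ x : S4, tau e s (tau e s x) = x ∧ capJ e s (tau e s x) * capJ e s x = 1) ∧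
    (∀ x y : S4, 1 - ⟪(x : E5), (tau e s y : E5)⟫_ℝ = capJ e s y *
      ((1 - ⟪(x : E5), (y : E5)⟫_ℝ) + 2 * (⟪(e : E5), (x : E5)⟫_ℝ - s) *
        (⟪(e : E5), (y : E5)⟫_ℝ - s) / (1 - s ^ 2))) ∧
    (∀ g : S4 → ℝ, ∫ y, g (tau e s y) * capJ e s y ^ 4 ∂sig = ∫ y, g y ∂sig) ∧
    (∀ x : S4, tau (-e) (-s) x = tau e s x ∧ capJ (-e) (-s) x = capJ e s x) ∧
    ContinuousOn (fun z : ℝ × S4 => tau e z.1 z.2) (Ioo (-1 : ℝ) 1 ×ˢ (univ : Set S4))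

/-- IDE. Uses TAU, KER.  Write `f' = ftau e s f`, `J = capJ e s`, `C = hcap e s`.
`log f x - log f' x = 4 pot f x - 4 pot f (tau x) - 4 log J x` (constants `A` cancel).  By the change
of variables `y = tau z` and `1 - <tau x, tau z> = (1 - <x,z>) J x J z`:
`pot f (tau x) = ∫ (ell x z - log J x - log J z) f' z dz`, and `∫ f' = 1`.  So
`log f x - log f' x = 4 ∫ ell x y (f - f') y dy + 4 ∫ log J y f' y dy`.  Both integrals are split in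
`C` and its complement; on the complement put `y = tau z` with `z` in `C`, `<e, z> ≠ s` (for
`<e, z> = s` one has `tau z = z`, `J z = 1`, `f z = f' z`, so these points may be added), and
`(f - f')(tau z) J z ^ 4 = f' z - f z`, `log J (tau z) = - log J z`, `f' (tau z) J z ^ 4 = f z`:
`∫ ell x y (f - f') = ∫_C (ell x z - ell x (tau z)) (f - f')(z) dz`, where by the fifth part of TAU
`ell x z - ell x (tau z) = log (1 - <x, tau z>) - log (1 - <x, z>) = capG e s x z + log J z` (`z ≠ x`),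
`∫ log J y f' y dy = ∫_C log J z (f' z - f z) dz`.  The terms with `log J` cancel.
Integrability: `ell x` is integrable (KER), `f, f', log J` are bounded, `ell x (tau z)` is integrable
by the change of variables.  `tau` maps the complement of `C` onto `{<e, z> > s}` because
`<e, tau z> - s = -(1 - s²)(<e, z> - s)/N`. -/
def IdeStmt : Prop :=
  ∀ (f : S4 → ℝ) (e : S4) (s : ℝ), Sol (fun _ => 1) f → -1 < s → s < 1 → ∀ x ∈ hcap e s,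
    Integrable (fun y => capG e s x y * (f y - ftau e s f y)) (sig.restrict (hcap e s)) ∧
    Real.log (f x) - Real.log (ftau e s f x) =
      4 * ∫ y in hcap e s, capG e s x y * (f y - ftau e s f y) ∂sig

/-- GSM. Uses POW (`a = 1/2`). For `x, y` in the cap: `0 ≤ <e,x> - s ≤ 1 - s`, `0 ≤ <e,y> - s ≤ h`, so
`0 ≤ capG e s x y ≤ log (1 + u) ≤ √u` with `u = 2 h / ((1 + s)(1 - <x, y>))`
(`1 + t² ≤ 1 + t + t²/2 + t³/6 ≤ exp t` for `t = √u ≥ 0`, because `1 - t/2 + t²/6 > 0`).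
`∫ (1 - <x,y>)^(-1/2) dy ≤ C`. Also the integrability of `capG e s x y * f y`. -/
def GsmStmt : Prop :=
  ∃ C : ℝ, 0 < C ∧ ∀ (e : S4) (s h M : ℝ) (f : S4 → ℝ) (P : Set S4) (x : S4),
    -1 < s → s < 1 → 0 ≤ h → Continuous f → (∀ y, 0 ≤ f y) → (∀ y, f y ≤ M) → MeasurableSet P →
    (∀ y ∈ P, s ≤ ⟪(e : E5), (y : E5)⟫_ℝ ∧ ⟪(e : E5), (y : E5)⟫_ℝ ≤ s + h) → x ∈ hcap e s →
    (∀ y ∈ hcap e s, 0 ≤ capG e s x y) ∧
    Integrable (fun y => capG e s x y * f y) (sig.restrict P) ∧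
    4 * ∫ y in P, capG e s x y * f y ∂sig ≤ C * M * √(h / (1 + s))

/-- MOV. Uses IDE, GSM, TAU.  `M = max f`, `κ > 0` with `C M √κ ≤ 1/2` (and `h ≤ κ (1 + s)`).  Let
`D = log f - log f'` (continuous on the compact set `hcap e s`), `P = {y ∈ hcap e s | f' y < f y}`.
If `P` is not empty let `x₀` be a maximum point of `D` on `hcap e s`; `D x₀ > 0`, `x₀ ∈ P`.  By the
assumption `P ⊆ {s ≤ <e,y> ≤ s + h}`.  By IDE and `capG ≥ 0`, `f - f' ≤ 0` off `P`: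
`D x₀ ≤ 4 ∫_P capG (f - f') ≤ 4 ∫_P capG f D ≤ D x₀ · 4 ∫_P capG f ≤ D x₀ / 2` (`a - b ≤ a log (a/b)`, i.e.
`1 - e^(-D) ≤ D`): contradiction. -/
def MovStmt : Prop :=
  ∀ f : S4 → ℝ, Sol (fun _ => 1) f → ∃ κ : ℝ, 0 < κ ∧ ∀ (e : S4) (s h : ℝ), -1 < s → s < 1 → 0 ≤ h →
    h ≤ κ * (1 + s) → (∀ y : S4, s + h < ⟪(e : E5), (y : E5)⟫_ℝ → f y ≤ ftau e s f y) →
    ∀ x ∈ hcap e s, f x ≤ ftau e s f x

/-- SYM. Uses MOV, IDE, TAU, GSM.  START: for `s ≥ 0`, `h = 1 - s ≤ κ`, the assumption of MOV is void.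
END: for `s ≤ 0`, `1 + s ≤ κ` apply START to `(-e, -s)`; for `z ∈ hcap e s` the point `y = tau z` has
`<e, y> ≤ s`, so `f y ≤ ftau (-e) (-s) f y = f z · capJ y ^ 4`, i.e. `ftau e s f z ≤ f z`.
Let `T` be the set of `t ∈ (-1, 1)` such that `f ≤ ftau e s f` on `hcap e s` for all `s ∈ [t, 1)`, and
`t₀ = inf T`.  If `t₀ = -1` take `t ∈ T` with `1 + t ≤ κ`, `t ≤ 0`: START and END give equality for
`s = t`.  If `t₀ > -1`: `f ≤ ftau e t₀ f` on `hcap e t₀` (for `<e,x> > t₀` let `s ↓ t₀`; for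
`<e,x> = t₀` there is equality).  If there is no equality on `hcap e t₀` then, by IDE and `capG > 0`
inside (`1 + u` with `u > 0`), `f x < ftau e t₀ f x` for all `x` with `<e,x> > t₀` (the integrand is
`≤ 0`, continuous off `x`, and `< 0` on a nonempty open set).  Choose `δ > 0` with
`2 δ ≤ κ (1 + t₀ - δ)`, `t₀ - δ > -1`, `t₀ + δ < 1`; on the compact set `<e,y> ≥ t₀ + δ` one has `f < ftau e t₀ f`, hence
`f < ftau e s f` for all `s` in a neighbourhood of `t₀` (joint continuity, compactness); MOV with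
`h = t₀ + δ - s ≤ 2 δ` shows that all `s` near `t₀` are good: contradiction with `t₀ = inf T`. -/
def SymStmt : Prop :=
  ∀ (f : S4 → ℝ) (e : S4), Sol (fun _ => 1) f →
    ∃ s : ℝ, -1 < s ∧ s < 1 ∧ ∀ x ∈ hcap e s, f x = ftau e s f x

/-- CLS (classification). Uses SYM, TAU.  Fix `e` and `s` from SYM, `c = <e,y>`, `c' = <e, tau y>`.
`0 = ∫ c f = ∫_(c>s) c f + ∫_(c=s) s f + ∫_(c<s) c f`; by `y = tau z` (TAU, change of variables for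
`y ↦ 1_(c<s) c f`; `tau` maps `{c<s}` onto `{c>s}`) the last integral is
`∫_(c>s) c' ftau e s f = ∫_(c>s) c' f`.  `c + c' = 2 s (1 - c²)/(1 + s² - 2 s c)`.  So
`0 = s (∫_(c=s) f + ∫_(c>s) 2 (1-c²)/(1+s²-2sc) f)` and the bracket is positive: `s = 0`.
So `f x = f (x - 2 <e,x> e)` if `<e, x> ≥ 0` (`capJ e 0 = 1`), for every `e`.  For `x ≠ y` take
`e = (x - y)/|x - y|`: `<e,x> ≥ 0` and `x - 2 <e,x> e = y`.  So `f` is constant. -/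
def ClsStmt : Prop :=
  ∀ f : S4 → ℝ, Sol (fun _ => 1) f → Bal f → ∀ x, f x = 1 / msig

/-! ### 2. Potentials -/

/-- BDJ. Uses JEN, POT (helper7's rows in StmtsV).  JEN with `p = 2`, `μ = 1/8` (`4 p μ = 1 < 2`),
`E = univ` and the radius `min u 1` (`mas f z (min u 1) ≤ mas f z u`). -/
def BdjStmt : Prop :=
  ∀ u : ℝ, 0 < u → ∃ C : ℝ, 0 < C ∧ ∀ f : S4 → ℝ, Dens f → (∀ z, mas f z u ≤ 1 / 8) →
    Continuous (pot f) ∧ ∫ x, Real.exp (8 * pot f x) ∂sig ≤ C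

/-- EQC. Uses POW.  `|pot g x - pot g x'| ≤ ‖ell x - ell x'‖₂ ‖g‖₂`.  For `L > 0` put
`ell_L x y = -log (max (1 - <x,y>) e^(-L))`; as a function of `1 - <x,y>` it is Lipschitz with
constant `e^L`, and `|<x,y> - <x',y>| ≤ dist x x'`.  `0 ≤ ell - ell_L ≤ 1_(1-<x,y><e^(-L))
log (1/(1-<x,y>)) ≤ 8 (1-<x,y>)^(-1/8)` there, its square is at most `64 e^(-L/4) (1-<x,y>)^(-1/2)`.
The bound: `ell² ≤ 64 (1-<x,y>)^(-1/4) + 1`.  (Cauchy-Schwarz for square integrable functions, for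
instance from `2 a b ≤ ε a² + b²/ε`.) -/
def EqcStmt : Prop :=
  ∀ C : ℝ, 0 ≤ C →
    (∃ C' : ℝ, 0 < C' ∧ ∀ g : S4 → ℝ, Measurable g → Integrable (fun y => g y ^ 2) sig →
      ∫ y, g y ^ 2 ∂sig ≤ C → ∀ x, Integrable (fun y => ell x y * g y) sig ∧ |pot g x| ≤ C') ∧
    ∀ ε : ℝ, 0 < ε → ∃ δ : ℝ, 0 < δ ∧ ∀ g : S4 → ℝ, Measurable g →
      Integrable (fun y => g y ^ 2) sig → ∫ y, g y ^ 2 ∂sig ≤ C →
      ∀ x x' : S4, dist x x' ≤ δ → |pot g x - pot g x'| ≤ ε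

/-- ASC (Arzela-Ascoli for sequences on the sphere). Mathlib: `BoundedContinuousFunction.
arzela_ascoli₁` / `ArzelaAscoli` or by hand (dense sequence, diagonal). -/
def AscStmt : Prop :=
  ∀ V : ℕ → S4 → ℝ, (∃ C : ℝ, ∀ n x, |V n x| ≤ C) →
    (∀ ε : ℝ, 0 < ε → ∃ δ : ℝ, 0 < δ ∧ ∀ (n : ℕ) (x x' : S4), dist x x' ≤ δ →
      |V n x - V n x'| ≤ ε) →
    ∃ (φ : ℕ → ℕ) (U : S4 → ℝ), StrictMono φ ∧ Continuous U ∧
      ∀ ε : ℝ, 0 < ε → ∀ᶠ n in atTop, ∀ x, |V (φ n) x - U x| ≤ ε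

/-! ### 3. Compactness -/

/-- CPA (bounds).  Uses BDJ.  Notation: `Ω = {x | -1 + ρ ≤ <w, x>}`, `B = A c`.
On `Ω`: `c/2 ≤ W ≤ 3 c/2`.  `pot f ≥ -log 2`.  Upper bound: `1 ≥ ∫_Ω f ≥ (B/2) 2^(-4) sig Ω` and
`sig Ω ≥ sig {<w,x> ≥ 0} ≥ msig/2`.  The complement of `Ω` lies in `cap (-w) ρ ⊆ cap (-w) u`, its mass
is at most `1/8`; so `7/8 ≤ ∫_Ω f ≤ (3 B/2) ∫ exp (4 pot f)` and `exp (4 pot f) ≤ 1 + exp (8 pot f)`.
`∫_Ω f² ≤ (9/4) B² ∫ exp (8 pot f)`. -/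
def CpaStmt : Prop :=
  ∀ u : ℝ, 0 < u → ∃ C : ℝ, 0 < C ∧ ∀ (w : S4) (W f : S4 → ℝ) (c ρ : ℝ), Sol W f → 0 < c → 0 < ρ →
    ρ ≤ 1 / 2 → ρ ≤ u → (∀ z, mas f z u ≤ 1 / 8) →
    (∀ x : S4, -1 + ρ ≤ ⟪(w : E5), (x : E5)⟫_ℝ → |W x - c| ≤ c / 2) →
    ∃ B : ℝ, 1 / C ≤ B ∧ B ≤ C ∧ (∀ x, f x = B * (W x / c) * Real.exp (4 * pot f x)) ∧
      ∫ x in {x : S4 | -1 + ρ ≤ ⟪(w : E5), (x : E5)⟫_ℝ}, f x ^ 2 ∂sig ≤ C

/-- CPL (the limit).  Uses EQC (continuity of `pot` of a continuous function).  `f` is the candidate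
`f y = B exp (U y)`.  Let `g_n = f_n 1_(Ω_n)`, `Ω_n = {-1 + ρ_n ≤ <w_n, x>}`, `m_n = ∫_(Ω_nᶜ) f_n → 0`.
(1) For `η > 0` and `n` large, if `<w, x> ≥ -1 + η` then `<w_n, x> ≥ -1 + η/2`, i.e.
`|x + w_n| ≥ √η`, and for `y ∉ Ω_n`: `|y + w_n| < √(2 ρ_n)`; so `|x - y| ≥ √η - √(2 ρ_n) ≥ √η/2`,
`1 - <x,y> ≥ η/8`, `|ell x y| ≤ K_η` and `|4 pot (f_n - g_n) x| ≤ 4 K_η m_n → 0`.
(`m_n → 0`: the complement of `Ω_n` lies in `cap (-w_n) ρ_n`, and `ρ_n ≤ u(ε)` for large `n`.)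
So `4 pot f_n → U` and `f_n → f` uniformly on `{<w, x> ≥ -1 + η}`.
(2) For bounded measurable `φ`: `∫ φ f_n → ∫ φ f`: outside `cap (-w) η` by (1), inside both masses are
small (hypothesis on `mas` and boundedness of `f`).  So `∫ f = 1`, `Bal f`.
(3) For `x ≠ -w`: `pot g_n x → pot f x`: outside `cap (-w) η` by (1) and `∫ |ell x y| dy < ∞`, inside
`ell x y` is bounded for small `η` and the masses are small.  So `U x = 4 pot f x` for `x ≠ -w`, and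
for `x = -w` by continuity of both sides.  Hence `Sol 1 f`. -/
def CplStmt : Prop :=
  ∀ (w : S4) (wn : ℕ → S4) (Wn fn : ℕ → S4 → ℝ) (cn ρn Bn : ℕ → ℝ) (U : S4 → ℝ) (B : ℝ),
    Tendsto wn atTop (𝓝 w) → Tendsto ρn atTop (𝓝 0) → Tendsto Bn atTop (𝓝 B) → 0 < B →
    Continuous U → (∀ n, 0 < ρn n) → (∀ n, 0 < cn n) →
    (∀ n, Dens (fn n) ∧ Bal (fn n) ∧
      ∀ x, fn n x = Bn n * (Wn n x / cn n) * Real.exp (4 * pot (fn n) x)) →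
    (∀ n (x : S4), -1 + ρn n ≤ ⟪(wn n : E5), (x : E5)⟫_ℝ → |Wn n x - cn n| ≤ ρn n * cn n) →
    (∀ ε : ℝ, 0 < ε → ∃ u : ℝ, 0 < u ∧ ∀ᶠ n in atTop, ∀ z, mas (fn n) z u ≤ ε) →
    (∀ ε : ℝ, 0 < ε → ∀ᶠ n in atTop, ∀ x, |4 * pot (fun y =>
      ({y : S4 | -1 + ρn n ≤ ⟪(wn n : E5), (y : E5)⟫_ℝ}).indicator (fn n) y) x - U x| ≤ ε) →
    Sol (fun _ => 1) (fun y => B * Real.exp (U y)) ∧ Bal (fun y => B * Real.exp (U y)) ∧
    ∀ η : ℝ, 0 < η → ∀ᶠ n in atTop, ∀ x : S4, -1 + η ≤ ⟪(w : E5), (x : E5)⟫_ℝ →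
      |fn n x - B * Real.exp (U x)| ≤ η

/-- CPT (compactness).  Uses CPA, CPL, EQC, ASC, CLS.  Suppose not: for `ρ_n = 1/(n+2)` there are
`w_n, W_n, f_n, c_n, x_n`.  For `ε = 1/8`, `u = r (1/8)` and `n` large the assumptions of CPA hold:
`B_n ∈ [1/C, C]`, `‖g_n‖₂² ≤ C`, `g_n = f_n 1_(Ω_n)`.  `V_n = 4 pot g_n` is bounded and equicontinuous
(EQC).  Subsequences: `w_n → w` (compact), `B_n → B > 0`, `V_n → U` uniformly (ASC); CPL gives that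
`B exp U` is a balanced solution for `1`, so it is `1/msig` (CLS), and `f_n → 1/msig` uniformly on
`{<w,x> ≥ -1 + η/2}`, which contains `x_n` for large `n`: contradiction. -/
def CptStmt : Prop :=
  ∀ r : ℝ → ℝ, (∀ ε, 0 < ε → 0 < r ε) → ∀ η : ℝ, 0 < η → ∃ ρ : ℝ, 0 < ρ ∧
    ∀ (w : S4) (W f : S4 → ℝ) (c : ℝ), Sol W f → Bal f → 0 < c →
      (∀ ε, ρ ≤ ε → ∀ z, mas f z (r ε) ≤ ε) →
      (∀ x : S4, -1 + ρ ≤ ⟪(w : E5), (x : E5)⟫_ℝ → |W x - c| ≤ ρ * c) →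
      ∀ x : S4, -1 + η ≤ ⟪(w : E5), (x : E5)⟫_ℝ → |msig * f x - 1| ≤ η

/-- OSC.  Uses MOA, LIPB.  `b = λ w`, `λ = |b|`, `s = <w,x>`, `1 + λ s ≥ (1 + s)/2`:
`1 - <w, mob b x> = (1-λ)(1-s)/(1+λ s)`, so `|mob b x - w|² = 2 (1-λ)(1-s)/(1+λs) ≤ 8 κ²/(1+s)`,
`κ² = 1 - λ²`.  LIPB: `|log W (mob b x) - log W w| ≤ 2 G |mob b x - w| ≤ 2 √8 G κ/√(1+s)`. -/
def OscStmt : Prop :=
  ∀ (W : S4 → ℝ) (G : ℝ) (b : E5) (w : S4), LG W G → ‖b‖ < 1 → b = ‖b‖ • (w : E5) → ∀ x : S4,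
    -1 < ⟪(w : E5), (x : E5)⟫_ℝ →
    |Real.log (W (mob b x)) - Real.log (W w)| ≤ 6 * G * sq b / √(1 + ⟪(w : E5), (x : E5)⟫_ℝ)

/-- CMP (strong form).  Uses CPT, OSC, NOC, COV (`Sol (W ∘ mob b) (pull b f)`).  NOC gives for `ε = 2^(-k)`, `k ≥ 1`, numbers `u_k, θ_k > 0`.  Define
`r ε = u_k` for `2^(-k) ≤ ε < 2^(1-k)`, `r ε = u_1` for `ε ≥ 1`.  Let `ρ` be the number of CPT for `r`
and `η` and `θ ≤ min (θ_1, ..., θ_K)`, `2^(-K) ≤ ρ`.  `c = W w`; by OSC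
`|log (W (mob b x)) - log c| ≤ 6 θ/√ρ` on `<w,x> ≥ -1 + ρ`, so `|W (mob b x)/c - 1| ≤ ρ` for small
`θ`. -/
def CmpStmt : Prop :=
  ∀ η : ℝ, 0 < η → ∃ θ : ℝ, 0 < θ ∧ ∀ (W : S4 → ℝ) (G : ℝ) (f : S4 → ℝ) (b : E5) (w : S4),
    LG W G → Sol W f → ‖b‖ < 1 → b = ‖b‖ • (w : E5) → Bal (pull b f) → sq b * G ≤ θ →
    ∀ x : S4, -1 + η ≤ ⟪(w : E5), (x : E5)⟫_ℝ → |msig * pull b f x - 1| ≤ η

/-- CMW (`L¹` form, contains the weak form).  Uses CMP, VOL.  `F = pull b f`, `E = cap (-w) η`.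
`∫_(Eᶜ) |F - 1/msig| ≤ η`; `∫_E F = 1 - ∫_(Eᶜ) F ≤ 1 - (1 - η)(msig - sig E)/msig ≤ η + sig E/msig`,
`sig E ≤ C η²`. (`w = b/|b|`, any `w` if `b = 0`.) -/
def CmwStmt : Prop :=
  ∀ ε : ℝ, 0 < ε → ∃ θ : ℝ, 0 < θ ∧ ∀ (W : S4 → ℝ) (G : ℝ) (f : S4 → ℝ) (b : E5),
    LG W G → Sol W f → ‖b‖ < 1 → Bal (pull b f) → sq b * G ≤ θ →
    ∫ x, |pull b f x - 1 / msig| ∂sig ≤ ε

/-- BDD.  Uses BDJ, EQC.  `W x ≤ Λ W y` for all `x, y` (so `Λ ≥ 1`); put `c = W x₀`, so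
`c/Λ ≤ W ≤ Λ c`.  `1 = ∫ f ≥ A (c/Λ) 2^(-4) msig` (`pot f ≥ -log 2`), so `A W ≤ A Λ c ≤ 16 Λ²/msig`;
`f² ≤ (16 Λ²/msig)² exp (8 pot f)`, so `∫ f² ≤ C` (BDJ), `|pot f| ≤ C'` (EQC), and
`f ≤ (16 Λ²/msig) e^(4 C')`.  Lower bound: `1 = ∫ f ≤ A Λ c e^(4 C') msig`, so
`f ≥ A (c/Λ) 2^(-4) ≥ e^(-4 C')/(16 Λ² msig)`. -/
def BddStmt : Prop :=
  ∀ u Λ : ℝ, 0 < u → 0 < Λ → ∃ C : ℝ, 0 < C ∧ ∀ W f : S4 → ℝ, Sol W f → (∀ z, mas f z u ≤ 1 / 8) →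
    (∀ x, 0 < W x) → (∀ x y, W x ≤ Λ * W y) → ∀ x, 1 / C ≤ f x ∧ f x ≤ C

end Pool.Agent.PQP
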