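import Pool.Agent.PQP.Final
import Pool.Agent.PQP.StmtsC

/-!
# Squad PQP, block X (helper27): moments near the boundary, small powers non-existence, a priori bounds

`b = λ w`, `κ = sq b = √(1 - λ²)`, `s = <w, x>`, `z = mob b x`.
-/

set_option autoImplicit false

open scoped InnerProductSpace Topology ContDiff Manifold
open MeasureTheory Filter Set

noncomputable section

namespace Pool.Agent.PQP

open Pool.Agent.Helper42_Paneitz Pool.Agent.Helper82_Vir Pool.Agent.FLX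

/-- Taylor bounds of order three for the radial extension -/
def T3 (B : ℝ) (g : S4 → ℝ) : Prop :=
  (∀ x y : S4, |g y - g x - dd g x ((y : E5) - (x : E5)) -
    hess g x ((y : E5) - (x : E5)) ((y : E5) - (x : E5)) / 2| ≤ B * ‖(y : E5) - (x : E5)‖ ^ 3) ∧
  (∀ (x : S4) (v : E5), |dd g x v| ≤ B * ‖v‖) ∧
  ∀ (x : S4) (v v' : E5), |hess g x v v'| ≤ B * ‖v‖ * ‖v'‖

/-- HES.  The radial extension `G` is homogeneous of degree `0`: `D G(y) y = 0` for `y ≠ 0`; the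
derivative of this identity in the direction `v`: `D²G(y)(v, y) + D G(y) v = 0`.  Third: definition of
the Laplacian of Mathlib (`laplacian_eq_iteratedFDeriv_orthonormalBasis`). -/
def HesStmt : Prop :=
  ∀ g : S4 → ℝ, Sm g → ∀ (x : S4) (v : E5), hess g x (x : E5) v = - dd g x v ∧
    hess g x v (x : E5) = - dd g x v ∧ hess g x (x : E5) (x : E5) = 0 ∧
    sphLaplacian g x = ∑ i : Fin 5, hess g x (ee i) (ee i)

/-- TYT.  For `|y - x| ≥ 1` the left side is bounded.  For `|y - x| ≤ 1` the segment from `x` to `y`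
stays in `1/2 ≤ |.| ≤ 1`, where the third derivative of the radial extension is bounded
(compactness); Taylor's formula along the segment. -/
def TytStmt : Prop := ∀ g : S4 → ℝ, Sm g → ∃ B : ℝ, 0 ≤ B ∧ T3 B g

/-- DIL.  Uses HES.  Let `G` be the radial extension of `ψ`; the radial extension of
`z ↦ dd ψ z w` is `y ↦ |y| D G(y) w` (`radialExt_dd`).  At `y = w`: value `D G(w) w = 0`, derivative
`<w,v> D G(w) w + D²G(w)(v, w) = - dd ψ w v` (HES), Laplacian `Δ|y| D G(w) w + 2 D²G(w)(w, w) +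
D(ΔG)(w) w = 0 + 0 - 2 ΔG(w)`, because `ΔG` is homogeneous of degree `-2`. -/
def DilStmt : Prop :=
  ∀ (ψ : S4 → ℝ) (w : S4), Sm ψ →
    dd ψ w (w : E5) = 0 ∧ (∀ v, dd (fun z => dd ψ z (w : E5)) w v = - dd ψ w v) ∧
    sphLaplacian (fun z => dd ψ z (w : E5)) w = -2 * sphLaplacian ψ w

/-- MMT (moments; the form asked by helper7).  Uses MOA, POW.  Formula: `z - w = (κ (x - s w) -
(1-λ)(1-s) w)/(1+λs)`, `|z-w|² = 2(1-λ)(1-s)/(1+λs) ≤ 4 κ²/(1+λs)` and `1 + λ s ≥ (1+s)/2` for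
`λ ≥ 0`.  Let `c4 = (1/(4 msig)) ∫ (1-s)/(1+s) dx > 0` (independent of `w` by rotations; in fact
`c4 = 1/2`).
(iii), (iv): Hoelder on `E` with exponents `4, 4/3`: `∫_E h φ ≤ C1^(1/4) (∫ φ^(4/3))^(3/4)`;
for `φ = |z-w|²`: `φ^(4/3) ≤ C κ^(8/3) (1+s)^(-4/3)`, POW; for `φ = |z-w|³`:
`φ^(4/3) ≤ C κ⁴ (1+λs)^(-2) ≤ C κ⁴ (1-λ)^(-1/4) (1+s)^(-7/4)`, so `∫_E h φ ≤ C κ^3 κ^(-3/8)`.
(i): let `0 < η' < 1`, `E' = {1+s ≥ η'}`.  On `E \ E'`: Hoelder with `φ = |z-w| ≤ C κ (1+s)^(-1/2)`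
and `(1+s)^(-2/3) ≤ η'^(1/3)·(1+s)^(-1)`: at most `ε κ/3`.  On `E'` (contained in `E` for `η ≤ η'`):
`|z-w|/κ ≤ C η'^(-1/2)`, so replacing `h` by `1/msig` costs `C η'^(-1/2) η κ`; and
`∫_(E') (z - w)/κ dx = - w ((1-λ)/κ) ∫_(E') (1-s)/(1+λs)` (the part `x - s w` integrates to `0` over a
set which is invariant under the reflections fixing `w`), and `(1-λ)/κ → 0`.
(ii): in the same way with `φ = |B(z-w,z-w)| ≤ |B| |z-w|²`; on `E'` the function `(z-w)/κ` converges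
uniformly to `(x - s w)/(1+s)` as `λ → 1`, and `∫_(E') B(x - s w, x - s w)/(1+s)² dx =
(∑ B e_i e_i - B w w)/4 · ∫_(E') (1-s²)/(1+s)²` (rotations around `w`: on `w^⊥` the form
`v ↦ ∫ <x,v>²/(1+s)²` is invariant, so it is `|v|²/4` times its trace; `|x - s w|² = 1 - s²`).
The dependence of `λ ≥ 1 - η` on `E'` only through the uniform convergence. -/
def MmtStmt : Prop :=
  ∃ c4 : ℝ, 0 < c4 ∧ ∀ C1 ε : ℝ, 0 < C1 → 0 < ε → ∃ η C : ℝ, 0 < η ∧ η < 1 ∧ 0 < C ∧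
    ∀ (w : S4) (lam : ℝ) (h : S4 → ℝ) (E : Set S4), 1 - η ≤ lam → lam < 1 → Dens h →
      ∫ x, |h x - 1 / msig| ∂sig ≤ η → MeasurableSet E →
      (∀ x : S4, η ≤ 1 + ⟪(w : E5), (x : E5)⟫_ℝ → x ∈ E) → ∫ x in E, h x ^ 4 ∂sig ≤ C1 →
      ‖∫ x in E, h x • ((mob (lam • (w : E5)) x : E5) - (w : E5)) ∂sig‖ ≤
          ε * sq (lam • (w : E5)) ∧
      (∀ B : E5 →L[ℝ] E5 →L[ℝ] ℝ,
        |∫ x in E, h x * B ((mob (lam • (w : E5)) x : E5) - (w : E5))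
            ((mob (lam • (w : E5)) x : E5) - (w : E5)) ∂sig -
          c4 * sq (lam • (w : E5)) ^ 2 * (∑ i : Fin 5, B (ee i) (ee i) - B (w : E5) (w : E5))| ≤
        ε * ‖B‖ * sq (lam • (w : E5)) ^ 2) ∧
      ∫ x in E, h x * ‖(mob (lam • (w : E5)) x : E5) - (w : E5)‖ ^ 2 ∂sig ≤
        C * sq (lam • (w : E5)) ^ 2 ∧
      ∫ x in E, h x * ‖(mob (lam • (w : E5)) x : E5) - (w : E5)‖ ^ 3 ∂sig ≤
        ε * sq (lam • (w : E5)) ^ 2

/-- MTG (general expansion).  Uses MMT, HES.  Insert Taylor's formula (T3) for `g` at `w`: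
first order: `dd g w` of (i), at most `G ε κ`; second order: (ii) with `B = hess g w` (norm `≤ B`),
`∑ hess g w (ee i) (ee i) - hess g w w w = sphLaplacian g w` (HES); third order: (iv). -/
def MtgStmt : Prop :=
  ∃ c4 : ℝ, 0 < c4 ∧ ∀ C1 B ε : ℝ, 0 < C1 → 0 ≤ B → 0 < ε → ∃ η : ℝ, 0 < η ∧ η < 1 ∧
    ∀ (w : S4) (lam : ℝ) (h : S4 → ℝ) (E : Set S4) (g : S4 → ℝ) (G : ℝ), 1 - η ≤ lam → lam < 1 →
      Dens h → ∫ x, |h x - 1 / msig| ∂sig ≤ η → MeasurableSet E →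
      (∀ x : S4, η ≤ 1 + ⟪(w : E5), (x : E5)⟫_ℝ → x ∈ E) → ∫ x in E, h x ^ 4 ∂sig ≤ C1 →
      Sm g → T3 B g → (∀ v : E5, |dd g w v| ≤ G * ‖v‖) →
      |∫ x in E, h x * (g (mob (lam • (w : E5)) x) - g w) ∂sig -
          c4 / 2 * sq (lam • (w : E5)) ^ 2 * sphLaplacian g w| ≤
        ε * (G * sq (lam • (w : E5)) + sq (lam • (w : E5)) ^ 2)

/-- KWB (Kazdan-Warner on the original sphere, seen in the picture `x`).  Uses KWA, COV, MOM, MOA.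
`F = pull (-b) f` is a solution for `(W ∘ mob b) ∘ mob (-b) = W` (COV, MOA); KWA with `A = 0`:
`∫ dlog W z (a - <a,z> z) F z dz = 0`, and `dlog W z z = 0` (`dd_self`), so `∫ dlog W z a F z dz = 0`.
`F (mob b x) Jac b x = f x`, and MOM turns the integral into `∫ dlog W (mob b x) a f x dx`. -/
def KwbStmt : Prop :=
  ∀ (W f : S4 → ℝ) (b : E5), Sm W → (∀ x, 0 < W x) → ‖b‖ < 1 →
    Sol (fun x => W (mob b x)) f → ∀ a : E5, ∫ x, dlog W (mob b x) a * f x ∂sig = 0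

/-- BNX (no solutions near the boundary of the ball).  Uses MTG, TYT, DIL.  By compactness
`|∇ψ| + |Δψ| ≥ c > 0` on `K`; let `B` be a Taylor constant for all `z ↦ dd ψ z a`, `|a| ≤ 1`
(`∑ a_i (z ↦ dd ψ z (ee i))`, TYT).  `a` orthogonal to `w`, `|a| = 1`, `g z = dd ψ z a`, `E = univ`:
MTG gives `|dd ψ w a| = |g w ∫ h| ≤ ε (B κ + κ²) + (c4/2) 5 B κ²`, so `|∇ψ(w)| ≤ 5 (2 ε B) κ` for small
`κ` (sum over an orthonormal basis of `w^⊥`, `dd ψ w w = 0`).  Then `g z = dd ψ z w`: by DIL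
`g w = 0`, `|dd g w v| ≤ |∇ψ(w)| |v|`, `Δ g w = -2 Δψ(w)`, and MTG:
`c4 κ² |Δψ(w)| ≤ ε (|∇ψ(w)| κ + κ²) ≤ 2 ε κ²`.  For small `ε` both `|∇ψ(w)|` and `|Δψ(w)|` are
smaller than `c/2`: contradiction. -/
def BnxStmt : Prop :=
  ∀ (ψ : S4 → ℝ) (K : Set S4), Sm ψ → IsClosed K → (∀ p ∈ K, Crit ψ p → sphLaplacian ψ p ≠ 0) →
    ∀ C1 : ℝ, 0 < C1 → ∃ η : ℝ, 0 < η ∧ η < 1 ∧ ∀ (w : S4) (lam : ℝ) (h : S4 → ℝ), w ∈ K →
      1 - η ≤ lam → lam < 1 → Dens h →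
      ∫ x, |h x - 1 / msig| ∂sig ≤ η → ∫ x, h x ^ 4 ∂sig ≤ C1 →
      ¬ ∀ a : E5, ∫ x, dd ψ (mob (lam • (w : E5)) x) a * h x ∂sig = 0

/-- INX (the inner part).  Uses MOA, MOM.  `q = log Q`, `β = bubv b = Jac (-b)`.  MOM for `-b`:
`0 = ∫ dd q (mob b x) a dx = ∫ dd q z a β z dz`.  Divergence theorem (`integral_dv_tangent`) for
`q β V`, `V z = a - <a,z> z` (`div V = -4 <a,z>`, `dd β z (V z) = 4 β <b, V z>/(1-<b,z>)`):
`∫ q β (<a,z> - <a,b>)/(1-<b,z>) = 0` for all `a` (*).  Put `I₁ a = ∫ q β <a,z>/(1-<b,z>)`,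
`I₀ = ∫ q β/(1-<b,z>)`, `J₀ = ∫ q β`.  (*) says `I₁ a = <a,b> I₀`; `a = b`: `I₀ - J₀ = |b|² I₀`.
Derivative under the integral: `msig · fderiv (HH Q) b v = ∫ q β (4 <v,z>/(1-<b,z>) -
4 <b,v>/(1-|b|²)) = 4 (I₁ v - <b,v> J₀/(1-|b|²)) = 0`. -/
def InxStmt : Prop :=
  ∀ (Q : S4 → ℝ) (b : E5), Sm Q → (∀ x, 0 < Q x) → ‖b‖ < 1 →
    (∀ a : E5, ∫ x, dlog Q (mob b x) a ∂sig = 0) → fderiv ℝ (HH Q) b = 0

/-- NOB (no concentration without smallness, for balanced densities).  Uses CUT, BLM.  For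
`R ≤ 1/2`: `|dlog W x (z - c x)| ≤ G √(2R)` on `cap z R`, `mas f z R ≤ 2/3` (BLM), so CUT (a) gives
`mas f z u ≤ 3 C (1/log (R/u) + G √(2R))`: first `R` small, then `u`. -/
def NobStmt : Prop :=
  ∀ G ε : ℝ, 0 < G → 0 < ε → ∃ u : ℝ, 0 < u ∧ ∀ W f : S4 → ℝ, LG W G → Sol W f → Bal f →
    ∀ z, mas f z u ≤ ε

/-- APR, statement in `Final.lean`.  Uses BNX, CMW, NOC, NOB, BDD, KWB, LIPB, COV.  `W = exp (t ψ)`,
`0 < t ≤ T`, `|dd ψ x v| ≤ L |v|`, so `LG W (T L)`; `f` is the balanced solution for `W ∘ mob b`, i.e.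
`f = pull b F`, `F = pull (-b) f`, `Sol W F`.  `Λ = exp (2 T max |ψ|)`.
Near the boundary: `sq b * (T L) ≤ θ` with `θ` from NOC (`ε = 1/8`) and CMW (`ε = η`), so `f ≤ C`
(BDD), `∫ f⁴ ≤ C⁴ msig =: C1`, `η` from BNX for `C1` and the set `C` of the statement.  KWB gives
`∫ t dd ψ (mob b x) a f = 0`: contradiction with BNX.  So `lam ≤ ρ`.  Then LIPB
(`LG (W ∘ mob b) (2 T L/(1-ρ))`), NOB (`ε = 1/8`) and BDD give the second part. -/
def AprX : Prop := AprStmt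

/-- SNE, statement in `Final.lean`.  Uses BAL, SOL, COV, NOC, CMW, BDD, KWB, BNX, INX, MOS.
`q = log Q`, `|t| ≤ 1`, `W = Q^t`, `LG W (|t| L)`.  SOL, BAL, COV: a solution gives `b` and a balanced
`f` with `Sol (W ∘ mob b) f`.  For `|t| L ≤ θ` NOC (`ε = 1/8`), BDD (`Λ = exp (2 max |q|)`): `f ≤ C`;
CMW with `ε = η` as small as we like.  KWB and `dlog W = t dd q`, `t ≠ 0`:
`∫ dd q (mob b x) a f x dx = 0` for all `a`.  If `‖b‖ ≥ 1 - η₀` (BNX for `C1 = C⁴ msig`, `ψ = q`,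
`K = univ`): contradiction (`Δ q = Δ Q/Q` at critical points).  If `‖b‖ ≤ 1 - η₀`: by INX and the
hypothesis the continuous function `b ↦ max_i |∫ dd q (mob b x) (ee i) dx|` is positive on this compact
ball, `≥ m`; but it is at most `msig · L · ∫ |f - 1/msig| ≤ msig L ε`: contradiction for small `ε`. -/
def SneX : Prop := SneStmt

end Pool.Agent.PQP
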