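import Pool.Agent.PQP.Final
import Pool.Agent.FLX.Stmts

/-!
# Squad PQP (MP_5f32e0_gt), block EX: existence, statements

Every finished row of squad FLX may be cited: `import Pool.Agent.Helper54_FLX.All`, namespace
`Pool.Agent.FLX.H54`: `pow_all : PowStmt`, `moa_all`, `mos_all`, `mom_all`, and `rows_all : Rows`
(projections: COR, ZOM, HOL, L2B, MOA, MOS, MOM, `ker : KerStmt`, `reg : RegStmt`, `slv : SlvStmt`, DER);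
`H83.ker H54.pow_all : KerStmt`, `H32.rea pow_all ker : ReaStmt`, `H88.nrm : NrmStmt`,
`H55.sym`, `H55.xis`, `H82.vol : VolStmt`.  If a row of this file lists `KER`, `REA`, `POW`, `MOA` ...
in its docstring, take them from there (no hypothesis needed).

Notation: `b = l w`, `w` a point of the sphere, `0 ≤ l < 1`, `σ = √(1 - l²)`, `z = mob b y`,
`s = <w, y>`, `d = ‖w - p‖`.
-/

set_option autoImplicit false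

open scoped InnerProductSpace Topology ContDiff Manifold
open MeasureTheory Filter Set

noncomputable section

namespace Pool.Agent.PQP

open Pool.Agent.Helper42_Paneitz Pool.Agent.Helper82_Vir Pool.Agent.FLX

/-! ### A. the fixed point in the norm `SB` and the reduction -/

/-- SBL. Calculus of `SB`.  First: `∫ |ell x y| dy ≤ C` (KER).  All integrands are products of an
integrable function (`1 + |ell x ·|`) and a bounded continuous one. -/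
def SblStmt : Prop :=
  (∃ C : ℝ, 0 ≤ C ∧ ∀ (f : S4 → ℝ) (B : ℝ), Continuous f → (∀ x, |f x| ≤ B) → SB f (C * B)) ∧
  (∀ (f g : S4 → ℝ) (B B' : ℝ), Continuous f → Continuous g → SB f B → SB g B' →
    SB (fun x => f x + g x) (B + B')) ∧
  (∀ (f g : S4 → ℝ) (B : ℝ), Continuous f → Continuous g → (∀ x, |f x| ≤ |g x|) → SB g B →
    SB f B) ∧
  ∀ (f : S4 → ℝ) (B c : ℝ), SB f B → SB (fun x => c * f x) (|c| * B)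

/-- SBK. `|K f x| ≤ (∫ |ell x y| |f y| + |avg f| ∫ |ell x y|) / (6 msig)`, `|avg f| ≤ (∫ |f|) / msig`,
`∫ |f| ≤ ∫ (1 + |ell x y|) |f y| ≤ B` (KER), `‖∫ f y • y‖ ≤ ∫ |f|`. -/
def SbkStmt : Prop := ∃ C : ℝ, 0 ≤ C ∧ ∀ (f : S4 → ℝ) (B : ℝ), Continuous f → SB f B →
  (∀ x, |K f x| ≤ C * B) ∧ |avg f| ≤ C * B ∧ ‖∫ y : S4, f y • (y : E5) ∂sig‖ ≤ B

/-- SBN. The row NLE of FLX in the norm `SB` (copy of Helper3_FLX/Nle.lean, shorter).  Uses SBL, SBK.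
`Nn q h = q e^{4h} + 6 (e^{4h} - 1 - 4h)`, `|e^{4h} - 1 - 4h| ≤ 16 · 2 R²` or so, and
`Nn q h - Nn q h' = q (e^{4h} - e^{4h'}) + 6 (e^{4h} - e^{4h'} - 4 (h - h'))`; pointwise lemmas
`abs_exp_sub`, `abs_exp_sub_lin`, `pt` of Helper3_FLX/Nle.lean.  Last: `Nn q h - q =
q (e^{4h} - 1) + 6 (e^{4h} - 1 - 4h)`. -/
def SbnStmt : Prop := ∃ C : ℝ, 0 ≤ C ∧ ∀ (q h h' : S4 → ℝ) (R D B : ℝ), Continuous q →
  Continuous h → Continuous h' → 0 ≤ R → R ≤ 1 / 4 → (∀ x, |h x| ≤ R) → (∀ x, |h' x| ≤ R) →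
  (∀ x, |h x - h' x| ≤ D) → SB q B →
    SB (Nn q h) (C * (B + R ^ 2)) ∧ SB (fun x => Nn q h x - Nn q h' x) (C * (B + R) * D) ∧
    ‖(∫ y : S4, Nn q h y • (y : E5) ∂sig) - ∫ y : S4, q y • (y : E5) ∂sig‖ ≤
      C * (R * B + R ^ 2)

/-- SBF. The row FIX of FLX in the norm `SB`: copy Helper40_FLX/Fix.lean (`fixpt`, `dist_bound`,
`continuous_TT` can be cited; replace `N2 f ≤ ..` by `SB f ..`, `hK`, `abs_avg_le` by SBK).  Uses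
SBL, SBK, SBN, KER, REA, NRM (`H88.nrm`). -/
def SbfStmt : Prop :=
  ∃ τ₀ C : ℝ, 0 < τ₀ ∧ 0 < C ∧ ∀ (S : Set E5) (q : E5 → S4 → ℝ) (τ : ℝ),
    ContinuousOn (fun z : E5 × S4 => q z.1 z.2) (S ×ˢ (univ : Set S4)) →
    0 ≤ τ → τ ≤ τ₀ → (∀ b ∈ S, SB (q b) τ) →
    ∃ H : E5 → S4 → ℝ, ContinuousOn (fun z : E5 × S4 => H z.1 z.2) (S ×ˢ (univ : Set S4)) ∧
      (∀ b ∈ S, Continuous (H b)) ∧ (∀ b ∈ S, ∀ x, |H b x| ≤ C * τ) ∧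
      ∀ b ∈ S, ∀ x, H b x = Aop (H b) x + K (Nn (q b) (H b)) x - avg (Nn (q b) (H b)) / 24

/-- RED. The reduction, as in `corB` (Helper54_FLX/CorB.lean).  `q b = q ∘ mob b`, `H` from SBF,
`β b = ∫ Nn (q b) (H b) y • y`: continuous on `S` (`continuousOn_integral_of_compact_support`, see
`hBc` in `corB`), `|β b - ∫ q (mob b y) y| ≤ C (R τ + R²)`, `R = C τ` (SBN; make `τ₀` small, so that
`R ≤ 1/4`).  If `β b = 0` then `finish` (Helper40_FLX/Cor.lean) and `moiB` (CorB.lean) give the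
solution `w = tr b (H b)` of (IE), and `w (mob b y) + log (Jac b y) / 4 = H b y` (MOA:
`mob (-b) (mob b y) = y`).  Uses SBF, SBN, KER, REA, XIS, SYM, MOA, MOS, MOM. -/
def RedStmt : Prop :=
  ∃ τ₀ C : ℝ, 0 < τ₀ ∧ 0 < C ∧ ∀ (S : Set E5) (q : S4 → ℝ) (τ : ℝ), (∀ b ∈ S, ‖b‖ < 1) →
    Continuous q → 0 ≤ τ → τ ≤ τ₀ → (∀ b ∈ S, SB (fun x => q (mob b x)) τ) →
    ∃ β : E5 → E5, ContinuousOn β S ∧
      (∀ b ∈ S, ‖β b - ∫ y : S4, q (mob b y) • (y : E5) ∂sig‖ ≤ C * τ ^ 2) ∧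
      ∀ b ∈ S, β b = 0 → ∃ w : S4 → ℝ, IE (fun x => 6 + q x) w ∧
        ∀ y, |w (mob b y) + Real.log (Jac b y) / 4| ≤ C * τ

/-! ### B. Moebius maps with parameter `l w` -/

/-- MOW. From `mobE` (lemmas `inner_mobE`, `inner_b_mobE`, `mob_coe` of Helper18_FLX/Moa.lean), with
`sq (l w) = σ`, `l² = (1 - σ)(1 + σ)`.  `‖z - w‖² = 2 (1 - <w, z>)`. -/
def MowStmt : Prop := ∀ (w y : S4) (l : ℝ), 0 ≤ l → l < 1 →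
  ‖l • (w : E5)‖ < 1 ∧ 0 < 1 + l * ⟪(w : E5), (y : E5)⟫_ℝ ∧
  ⟪(w : E5), (mob (l • (w : E5)) y : E5)⟫_ℝ =
    (l + ⟪(w : E5), (y : E5)⟫_ℝ) / (1 + l * ⟪(w : E5), (y : E5)⟫_ℝ) ∧
  (∀ e : E5, ⟪(w : E5), e⟫_ℝ = 0 → ⟪e, (mob (l • (w : E5)) y : E5)⟫_ℝ =
    √(1 - l ^ 2) * ⟪e, (y : E5)⟫_ℝ / (1 + l * ⟪(w : E5), (y : E5)⟫_ℝ)) ∧
  ‖(mob (l • (w : E5)) y : E5) - (w : E5)‖ ^ 2 =
    2 * (1 - l) * (1 - ⟪(w : E5), (y : E5)⟫_ℝ) / (1 + l * ⟪(w : E5), (y : E5)⟫_ℝ)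

/-- MKB. Moments.  Uses MOW, POW.  `1 - l ≤ σ²`, `1 - s ≤ 2`, `1 + l s ≥ (1 + s)/2` (for `s ≥ 0` it is
`≥ 1`), so `‖z - w‖^a ≤ (8 σ² / (1 + s))^(a/2)` for `y ≠ -w`; with `θ = a/2 < 2` and `m > 1`,
`θ m < 2`: Young `(1 + |ell x y|)(1 + s)^(-θ) ≤ (1 + |ell x y|)^(m') + (1 + s)^(-θ m)`; both are
integrable with a bound which does not depend on `x`, `w` (POW at `x` and at `-w`;
`|log u| ≤ C_η u^(-η)` for `0 < u ≤ 2`). -/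
def MkbStmt : Prop := ∀ a : ℝ, 0 ≤ a → a < 4 → ∃ C : ℝ, 0 ≤ C ∧ ∀ (w x : S4) (l : ℝ), 0 ≤ l →
  l < 1 → ∫ y, (1 + |ell x y|) * ‖(mob (l • (w : E5)) y : E5) - (w : E5)‖ ^ a ∂sig ≤
    C * (√(1 - l ^ 2)) ^ a

/-- FAV. The far region.  Uses MOW, VOL, POW.  `ρ² ≤ ‖z - w‖² ≤ 4 σ² / (1 + l s)` and
`1 + l s ≥ l (1 + s) ≥ (1 + s)/2`: first claim.  Volume of a cap of size `C σ²` at `-w`: VOL (trivial if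
`C σ² > 1`).  Second claim, with `F` the region: `1_F |ell| ≤ σ^(10/3) (|ell|^6 + σ^(-4) 1_F)`
(Young: `u v ≤ u^6 + v^(6/5)`, `u = |ell|`, `v = σ^(-10/3)`). -/
def FavStmt : Prop := ∀ ρ : ℝ, 0 < ρ → ∃ C : ℝ, 0 ≤ C ∧ ∀ (w x : S4) (l : ℝ), 1 / 2 ≤ l → l < 1 →
  (∀ y : S4, ρ ≤ ‖(mob (l • (w : E5)) y : E5) - (w : E5)‖ →
    1 + ⟪(w : E5), (y : E5)⟫_ℝ ≤ C * (1 - l ^ 2)) ∧
  ∫ y in {y : S4 | ρ ≤ ‖(mob (l • (w : E5)) y : E5) - (w : E5)‖}, (1 + |ell x y|) ∂sig ≤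
    C * (√(1 - l ^ 2)) ^ (10 / 3 : ℝ) ∧
  sig.real {y : S4 | ρ ≤ ‖(mob (l • (w : E5)) y : E5) - (w : E5)‖} ≤ C * (1 - l ^ 2) ^ 2

/-- the trace of a linear map of `ℝ⁵` -/
def tr5 (T : E5 →L[ℝ] E5) : ℝ := ∑ i : Fin 5, ⟪T (ee i), ee i⟫_ℝ

/-- QDR. Exact integrals of quadratic forms.  Uses MOW, POW, and `Bf_eq` (Helper10_FLX/Exp.lean: the
matrix of `∫ g(<w,y>) <b,y> <v,y> dy`; odd integrals vanish by the reflections in `w^⊥`).  Write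
`z = z_w w + z'`, `z_w = (l + s)/(1 + l s)`, `z' = σ (y - s w)/(1 + l s)`.
`<T z, z> = z_w² <T w, w> + 2 z_w <T w, z'> + <T z', z'>`; `∫ s dy = 0` and `|z'|² = 1 - z_w²` give the
first formula with `4 j₁ σ² = ∫ z_w² s dy = -∫ (1 - z_w²) s dy = σ² ∫ (1 - s²)(-s)/(1 + l s)² dy`;
replacing `y` by `-y` and adding: `4 j₁ = ∫ 2 l s² (1 - s²)/(1 - l² s²)² dy`, between
`∫ s² (1 - s²) dy` (for `l ≥ 1/2`) and `2 ∫ (1 - s²)⁻¹ dy < ∞`.  Second formula: only the cross term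
survives, `4 j₂ = 2 ∫ z_w (1 - s²)/(1 + l s) dy = 2 ∫ (l + s)(1 - s²)/(1 + l s)² dy =
2 l ∫ (1 - s²)((1 - s²) - σ² s²)/(1 - l² s²)² dy ≥ 2 l (∫ (1 - s²)² dy - σ² ∫ (1 - s²)⁻¹ dy)`,
positive for `l` near `1`. -/
def QdrStmt : Prop := ∃ c C l₀ : ℝ, 0 < c ∧ 1 / 2 ≤ l₀ ∧ l₀ < 1 ∧ ∀ (w : S4) (l : ℝ), l₀ ≤ l →
  l < 1 → ∃ j₁ j₂ : ℝ, c ≤ j₁ ∧ j₁ ≤ C ∧ c ≤ j₂ ∧ j₂ ≤ C ∧
    ∀ T : E5 →L[ℝ] E5, (∀ u v : E5, ⟪T u, v⟫_ℝ = ⟪u, T v⟫_ℝ) →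
      (∫ y, ⟪T (mob (l • (w : E5)) y : E5), (mob (l • (w : E5)) y : E5)⟫_ℝ *
          ⟪(w : E5), (y : E5)⟫_ℝ ∂sig =
        -((tr5 T - 5 * ⟪T (w : E5), (w : E5)⟫_ℝ) * j₁ * (1 - l ^ 2))) ∧
      ∀ e : E5, ⟪(w : E5), e⟫_ℝ = 0 →
        ∫ y, ⟪T (mob (l • (w : E5)) y : E5), (mob (l • (w : E5)) y : E5)⟫_ℝ *
          ⟪e, (y : E5)⟫_ℝ ∂sig = j₂ * √(1 - l ^ 2) * ⟪T (w : E5), e⟫_ℝ

/-! ### C. expansions for a concentrated curvature function -/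

/-- the data: `q = -k <T z, z> + O(B |z - p|³)` near `p`, `|q| ≤ M` elsewhere -/
structure Con (p : S4) (T : E5 →L[ℝ] E5) (ρ : ℝ) (q : S4 → ℝ) (k B M : ℝ) : Prop where
  cont : Continuous q
  one : 1 ≤ k
  B0 : 0 ≤ B
  M0 : 0 ≤ M
  near : ∀ z : S4, ‖(z : E5) - (p : E5)‖ < ρ →
    |q z + k * ⟪T (z : E5), (z : E5)⟫_ℝ| ≤ B * ‖(z : E5) - (p : E5)‖ ^ 3
  far : ∀ z : S4, ρ ≤ ‖(z : E5) - (p : E5)‖ → |q z| ≤ M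

/-- the fixed geometric data: `T` symmetric, `T p = 0`, injective on the complement of `p` -/
structure Geo (p : S4) (T : E5 →L[ℝ] E5) (ρ : ℝ) : Prop where
  pos : 0 < ρ
  le : ρ ≤ 1
  symm : ∀ u v : E5, ⟪T u, v⟫_ℝ = ⟪u, T v⟫_ℝ
  zero : T (p : E5) = 0
  inj : ∀ v : E5, ⟪(p : E5), v⟫_ℝ = 0 → T v = 0 → v = 0

/-- the far integral -/
def GG (p : S4) (ρ : ℝ) (q : S4 → ℝ) : ℝ :=
  ∫ z in {z : S4 | ρ ≤ ‖(z : E5) - (p : E5)‖}, q z / (1 - ⟪(p : E5), (z : E5)⟫_ℝ) ^ 4 ∂sig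

/-- NEA. The error of the near part.  Uses MKB (`a = 3`; `1 ≤ 1 + |ell|`):
`‖z - p‖³ ≤ 4 ‖z - w‖³ + 4 d³`. -/
def NeaStmt : Prop := ∃ C : ℝ, 0 ≤ C ∧ ∀ (p : S4) (T : E5 →L[ℝ] E5) (ρ : ℝ) (q : S4 → ℝ)
  (k B M : ℝ), Geo p T ρ → Con p T ρ q k B M → ∀ (w : S4) (l : ℝ), 0 ≤ l → l < 1 →
  ‖∫ y in {y : S4 | ‖(mob (l • (w : E5)) y : E5) - (p : E5)‖ < ρ},
      (q (mob (l • (w : E5)) y) + k * ⟪T (mob (l • (w : E5)) y : E5),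
        (mob (l • (w : E5)) y : E5)⟫_ℝ) • (y : E5) ∂sig‖ ≤
    C * B * ((√(1 - l ^ 2)) ^ 3 + ‖(w : E5) - (p : E5)‖ ^ 3)

/-- FAE. The far part.  `F = {y | ρ ≤ ‖z - p‖} ⊆ {y | ρ/2 ≤ ‖z - w‖}`, so `1 + s ≤ C σ²` on `F` and
`sig F ≤ C σ⁴` (FAV with `ρ/2`).  First: `∫_F q(z) s dy = -∫_F q(z) dy + ∫_F q(z)(1 + s) dy`, the
second term is at most `M C σ² C σ⁴`; by MOM for `-b` (MOA: `mob (-b) (mob b y) = y`)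
`∫_F q(z) dy = ∫_{ρ ≤ ‖z - p‖} q(z) σ⁴ (1 - l <w,z>)^(-4) dz`, and on this set `1 - l <w,z>`,
`1 - <p,z> ≥ ρ²/8` and `|l <w,z> - <p,z>| ≤ (1 - l) + d`.  Second: `|<e,y>| = |<e, y - s w>| ≤
√(1 - s²) ≤ √(2 (1 + s)) ≤ C σ`.  Third: `sig F ≤ C σ⁴`. -/
def FaeStmt : Prop := ∀ (p : S4) (ρ : ℝ), 0 < ρ → ρ ≤ 1 → ∃ C : ℝ, 0 ≤ C ∧
  ∀ (q : S4 → ℝ) (M : ℝ), Continuous q → 0 ≤ M →
  (∀ z : S4, ρ ≤ ‖(z : E5) - (p : E5)‖ → |q z| ≤ M) → ∀ (w : S4) (l : ℝ),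
  ‖(w : E5) - (p : E5)‖ ≤ ρ / 2 → 1 / 2 ≤ l → l < 1 →
    |(∫ y in {y : S4 | ρ ≤ ‖(mob (l • (w : E5)) y : E5) - (p : E5)‖},
        q (mob (l • (w : E5)) y) * ⟪(w : E5), (y : E5)⟫_ℝ ∂sig) + (1 - l ^ 2) ^ 2 * GG p ρ q| ≤
      C * M * (1 - l ^ 2) ^ 2 * (‖(w : E5) - (p : E5)‖ + (1 - l ^ 2)) ∧
    (∀ e : E5, ⟪(w : E5), e⟫_ℝ = 0 → ‖e‖ ≤ 1 →
      |∫ y in {y : S4 | ρ ≤ ‖(mob (l • (w : E5)) y : E5) - (p : E5)‖},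
        q (mob (l • (w : E5)) y) * ⟪e, (y : E5)⟫_ℝ ∂sig| ≤ C * M * (√(1 - l ^ 2)) ^ 5) ∧
    ∀ (T : E5 →L[ℝ] E5) (e : E5), ‖e‖ ≤ 1 →
      |∫ y in {y : S4 | ρ ≤ ‖(mob (l • (w : E5)) y : E5) - (p : E5)‖},
        ⟪T (mob (l • (w : E5)) y : E5), (mob (l • (w : E5)) y : E5)⟫_ℝ * ⟪e, (y : E5)⟫_ℝ ∂sig| ≤
      C * ‖T‖ * (1 - l ^ 2) ^ 2

/-- XPN. The expansion: sum of QDR (with the factor `-k`), NEA and FAE: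
`q(z) = -k <T z, z> + (q(z) + k <T z, z>)`, the bracket integrated over the near and the far part;
`|<T w, w>| = |<T (w - p), w - p>| ≤ ‖T‖ d²`.  `c`, `C₀` from QDR do not depend on `p, T, ρ`. -/
def XpnStmt : Prop := ∃ c C₀ : ℝ, 0 < c ∧ ∀ (p : S4) (T : E5 →L[ℝ] E5) (ρ : ℝ), Geo p T ρ →
  ∃ C l₀ : ℝ, 0 ≤ C ∧ 1 / 2 ≤ l₀ ∧ l₀ < 1 ∧ ∀ (q : S4 → ℝ) (k B M : ℝ), Con p T ρ q k B M →
  ∀ (w : S4) (l σ d : ℝ), l₀ ≤ l → l < 1 → σ = √(1 - l ^ 2) → d = ‖(w : E5) - (p : E5)‖ →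
  d ≤ ρ / 2 → ∃ j₁ j₂ : ℝ, c ≤ j₁ ∧ j₁ ≤ C₀ ∧ c ≤ j₂ ∧ j₂ ≤ C₀ ∧
    |(∫ y, q (mob (l • (w : E5)) y) * ⟪(w : E5), (y : E5)⟫_ℝ ∂sig) -
        (k * tr5 T * j₁ * σ ^ 2 - σ ^ 4 * GG p ρ q)| ≤
      C * (k * d ^ 2 * σ ^ 2 + B * (σ ^ 3 + d ^ 3) + M * σ ^ 4 * (d + σ ^ 2) + k * σ ^ 4) ∧
    ∀ e : E5, ⟪(w : E5), e⟫_ℝ = 0 → ‖e‖ ≤ 1 →
      |(∫ y, q (mob (l • (w : E5)) y) * ⟪e, (y : E5)⟫_ℝ ∂sig) +
          k * j₂ * σ * ⟪T (w : E5), e⟫_ℝ| ≤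
        C * (B * (σ ^ 3 + d ^ 3) + M * σ ^ 5 + k * σ ^ 4)

/-- SBQ. The norm of `q ∘ mob b`.  Uses MKB (`a = 0, 2, 3`), FAV (`ρ/2`), Geo.  Near:
`|q(z)| ≤ k ‖T‖ ‖z - p‖² + B ‖z - p‖³` (`T p = 0`), `‖z - p‖ ≤ ‖z - w‖ + d`.  Far: `M 1_F`. -/
def SbqStmt : Prop := ∀ (p : S4) (T : E5 →L[ℝ] E5) (ρ : ℝ), Geo p T ρ → ∃ C : ℝ, 0 ≤ C ∧
  ∀ (q : S4 → ℝ) (k B M : ℝ), Con p T ρ q k B M → ∀ (w : S4) (l σ d : ℝ), 1 / 2 ≤ l → l < 1 →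
  σ = √(1 - l ^ 2) → d = ‖(w : E5) - (p : E5)‖ → d ≤ ρ / 2 →
  SB (fun y => q (mob (l • (w : E5)) y))
    (C * (k * (σ ^ 2 + d ^ 2) + B * (σ ^ 3 + d ^ 3) + M * σ ^ (10 / 3 : ℝ)))

/-! ### D. the box -/

/-- PMI. `schauder` (Pool.Agent.Common_Brouwer) for the convex compact set of the statement in
`ℝ × E5` and the map `(s, v) ↦ (max a (min b (s + R s v)), v + V s v)`: at a fixed point `V = 0`, and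
`R = 0` or `s = a`, `R ≤ 0` or `s = b`, `R ≥ 0`. -/
def PmiStmt : Prop := ∀ (p : E5) (a b r : ℝ) (R : ℝ → E5 → ℝ) (V : ℝ → E5 → E5), a < b → 0 < r →
  ContinuousOn (fun z : ℝ × E5 => R z.1 z.2)
    {z | a ≤ z.1 ∧ z.1 ≤ b ∧ ⟪p, z.2⟫_ℝ = 0 ∧ ‖z.2‖ ≤ r} →
  ContinuousOn (fun z : ℝ × E5 => V z.1 z.2)
    {z | a ≤ z.1 ∧ z.1 ≤ b ∧ ⟪p, z.2⟫_ℝ = 0 ∧ ‖z.2‖ ≤ r} →
  (∀ v : E5, ⟪p, v⟫_ℝ = 0 → ‖v‖ ≤ r → 0 < R a v ∧ R b v < 0) →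
  (∀ (s : ℝ) (v : E5), a ≤ s → s ≤ b → ⟪p, v⟫_ℝ = 0 → ‖v‖ ≤ r →
    ⟪p, V s v⟫_ℝ = 0 ∧ ‖v + V s v‖ ≤ r) →
  ∃ (s : ℝ) (v : E5), a ≤ s ∧ s ≤ b ∧ ⟪p, v⟫_ℝ = 0 ∧ ‖v‖ ≤ r ∧ R s v = 0 ∧ V s v = 0

/-- the point of the sphere with coordinates `v` (orthogonal to `p`) -/
def wv (p : S4) (v : E5) : E5 := (√(1 + ‖v‖ ^ 2))⁻¹ • ((p : E5) + v)

/-- the centre with coordinates `σ`, `v` -/
def bv (p : S4) (σ : ℝ) (v : E5) : E5 := √(1 - σ ^ 2) • wv p v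

/-- BXA. Box estimates.  Uses XPN, SBQ, RED, FAV.  Apply XPN, SBQ with `w = wv p v`
(`‖wv p v‖ = 1`, `‖wv p v - p‖ ≤ ‖v‖ ≤ s^(3/4)`), `l = √(1 - σ²)`; `a s ≤ σ ≤ s / a`.  With
`η = 1/24`: `k, B ≤ s^(-η)`, `|G| = k / s²`, `M ≤ s^(-η) k s^(-2) ≤ s^(-2-2η)`, all constants depend
on `a`:
`k d² σ² ≤ C k s^(7/2)`, `B (σ³ + d³) ≤ C s^(9/4-η)`, `M σ⁴ (d + σ²) ≤ C k s^(2+3/4-η)`,
`M σ⁵ ≤ C k s^(3-η)`, `k σ⁴ ≤ C k s⁴`, and `τ := C (k (σ² + d²) + B (σ³ + d³) + M σ^(10/3)) ≤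
C (s^(3/2-η) + s^(4/3-2η)) ≤ C s^(5/4)`, `τ² ≤ C s^(5/2)`.  All are `≤ C k s^(13/6)` (`k ≥ 1`,
`s ≤ 1`, `9/4 - 1/24 ≥ 13/6`).  `S = {bv p σ v}`.  The last integral, with `g = 1_far |6 + q| e^{4w}`:
by MOM it is `∫ g (mob b y) Jac b y dy = ∫_F |6 + q (mob b y)| e^{4h} dy`,
`h y = w (mob b y) + log (Jac b y) / 4`, `|h| ≤ 1/4` for small `s` (RED), so it is at most
`3 (6 + M) sig.real F`, `F = {y | ρ ≤ ‖mob b y - p‖} ⊆ {y | ρ/2 ≤ ‖mob b y - wv p v‖}`, `sig.real F ≤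
C σ⁴` (FAV), and `(6 + M) σ⁴ ≤ C (s⁴ + s^(2 - 2η)) → 0`. -/
def BxaStmt : Prop := ∃ c C₀ : ℝ, 0 < c ∧ ∀ (p : S4) (T : E5 →L[ℝ] E5) (ρ : ℝ), Geo p T ρ →
  ∀ a : ℝ, 0 < a → a < 1 → ∃ s₀ C : ℝ, 0 < s₀ ∧ s₀ ≤ 1 ∧ s₀ ≤ a / 2 ∧ 0 ≤ C ∧
  ∀ (q : S4 → ℝ) (k B M s : ℝ), Con p T ρ q k B M → 0 < s → s ≤ s₀ →
  s ^ 2 * |GG p ρ q| = k → k ≤ s ^ (-(1 / 24) : ℝ) → B ≤ s ^ (-(1 / 24) : ℝ) →
  M ≤ s ^ (-(1 / 24) : ℝ) * |GG p ρ q| →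
  ∃ β : E5 → E5,
    ContinuousOn β {b | ∃ (σ : ℝ) (v : E5), a * s ≤ σ ∧ σ ≤ s / a ∧ ⟪(p : E5), v⟫_ℝ = 0 ∧
      ‖v‖ ≤ s ^ (3 / 4 : ℝ) ∧ b = bv p σ v} ∧
    ∀ (σ : ℝ) (v : E5), a * s ≤ σ → σ ≤ s / a → ⟪(p : E5), v⟫_ℝ = 0 → ‖v‖ ≤ s ^ (3 / 4 : ℝ) →
      (β (bv p σ v) = 0 → ∃ w : S4 → ℝ, IE (fun x => 6 + q x) w ∧
        ∫ z in {z : S4 | ρ ≤ ‖(z : E5) - (p : E5)‖}, |6 + q z| * Real.exp (4 * w z) ∂sig ≤ msig) ∧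
      ∃ j₁ j₂ : ℝ, c ≤ j₁ ∧ j₁ ≤ C₀ ∧ c ≤ j₂ ∧ j₂ ≤ C₀ ∧
        |⟪wv p v, β (bv p σ v)⟫_ℝ - (k * tr5 T * j₁ * σ ^ 2 - σ ^ 4 * GG p ρ q)| ≤
          C * k * s ^ (13 / 6 : ℝ) ∧
        ∀ e : E5, ⟪wv p v, e⟫_ℝ = 0 → ‖e‖ ≤ 1 →
          |⟪e, β (bv p σ v)⟫_ℝ + k * j₂ * σ * ⟪T (wv p v), e⟫_ℝ| ≤ C * k * s ^ (13 / 6 : ℝ)

/-- EXA (existence for a concentrated curvature function).  Uses BXA, PMI.  Let `ε` be the sign of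
`tr5 T` and of `G = GG p ρ q`, `|G| = k / s²`, and `a² ≤ min (c |tr5 T| / 2) (1 / (2 C₀ |tr5 T|))`.
`R σ v = ε <wv p v, β (bv p σ v)>`.  At `σ = a s`: `R ≥ k s² (c |tr T| a² - a⁴) - C k s^(13/6) > 0`; at
`σ = s / a`: `R ≤ k s² (C₀ |tr T| a^(-2) - a^(-4)) + C k s^(13/6) < 0`.  `L` = continuous linear map
with `L p = 0`, `L (T v) = v` for `v ⊥ p`, values orthogonal to `p` (`T` is symmetric and injective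
on `p^⊥`, hence bijective there; `L = 0` only on the line of `p`).  With `w = wv p v`,
`β' = β - <w, β> w`, `V σ v = θ / (k σ) • L β'`, `θ = 1 / (2 C₀)`:
`β' = -k j₂ σ (T w - <T w, w> w) + O(k s^(13/6))`, `T w = T v / √(1 + |v|²)`,
`|<T w, w>| ≤ ‖T‖ |v|²`, `|L w| ≤ ‖L‖ |v|`; so `V = -θ j₂ v + O(|v|³ + s^(7/6))` and
`|v + V| ≤ (1 - θ c) s^(3/4) + C s^(7/6) ≤ s^(3/4)`.  PMI on `[a s, s/a]` and `‖v‖ ≤ s^(3/4)`.  At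
the zero: `<w, β> = 0`, `L β' = 0`, so `β' = t p`, `<w, β'> = 0`, `<w, p> > 0`: `t = 0`, `β = 0`. -/
def ExaStmt : Prop := ∀ (p : S4) (T : E5 →L[ℝ] E5) (ρ : ℝ), Geo p T ρ → tr5 T ≠ 0 →
  ∃ s₀ : ℝ, 0 < s₀ ∧ ∀ (q : S4 → ℝ) (k B M s : ℝ), Con p T ρ q k B M → 0 < s → s ≤ s₀ →
  0 < tr5 T * GG p ρ q → s ^ 2 * |GG p ρ q| = k → k ≤ s ^ (-(1 / 24) : ℝ) →
  B ≤ s ^ (-(1 / 24) : ℝ) → M ≤ s ^ (-(1 / 24) : ℝ) * |GG p ρ q| →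
  ∃ w : S4 → ℝ, IE (fun x => 6 + q x) w ∧
    ∫ z in {z : S4 | ρ ≤ ‖(z : E5) - (p : E5)‖}, |6 + q z| * Real.exp (4 * w z) ∂sig ≤ msig

/-! ### E. Taylor formulas and the expansion near the boundary for a smooth function -/

/-- TAW. Second order Taylor formula, uniform in the point.  The second derivative of the radial
extension is Lipschitz on the compact convex sets `KK w` (Helper65_FLX/TAY.lean); the third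
derivative of `radialExt ψ` is bounded on the compact set `{1/2 ≤ ‖y‖ ≤ 1}`, which contains all
`KK w`.  For `<w, z> < 1/2` we have `‖z - w‖ ≥ 1` and everything is bounded. -/
def TawStmt : Prop := ∀ ψ : S4 → ℝ, Sm ψ → ∃ C : ℝ, 0 ≤ C ∧ ∀ w z : S4,
  |ψ z - ψ w - dd ψ w ((z : E5) - (w : E5)) -
    1 / 2 * hess ψ w ((z : E5) - (w : E5)) ((z : E5) - (w : E5))| ≤ C * ‖(z : E5) - (w : E5)‖ ^ 3

/-- HSW. The radial extension is homogeneous of degree `0` and its derivative of degree `-1`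
(`fderiv_radialExt_smul`): differentiate `t ↦ fderiv (radialExt ψ) (t x) v = t⁻¹ dd ψ x v` at `t = 1`.
Trace: definition of the Laplacian with the standard basis (`ee`). -/
def HswStmt : Prop := ∀ (ψ : S4 → ℝ) (x : S4), Sm ψ →
  (∀ v : E5, hess ψ x (x : E5) v = - dd ψ x v) ∧
  ∑ i : Fin 5, hess ψ x (ee i) (ee i) = sphLaplacian ψ x

/-- RTW (expansion near the boundary of the ball, uniform in `w`; for stage 2).  Uses TAW, HSW, QDR's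
method, MOW, MKB (`a = 3`), POW.  With `z' = z - z_w w`: `z - w = (z_w - 1) w + z'`, so by HSW
`ψ z = ψ w + (2 - z_w) dd ψ w z' + (1/2) hess ψ w z' z' + O(‖z - w‖³)`.  Radial part: only the last
term contributes, `(1/2) Lap ψ(w) / 4 · ∫ |z'|² s dy = -(1/2) j₁ σ² Lap ψ(w)`, `j₁` as in QDR.
Tangential part: only the first, `g = (1/4) ∫ (1 - s²)(2 - z_w)/(1 + l s) dy`, `1 ≤ 2 - z_w ≤ 3`,
`(1 - s²)/(1 + l s)` between `(1 - s²)/2` and `4`. -/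
def RtwStmt : Prop := ∃ c C₀ : ℝ, 0 < c ∧ ∀ ψ : S4 → ℝ, Sm ψ → ∃ C : ℝ, 0 ≤ C ∧
  ∀ (w : S4) (l : ℝ), 1 / 2 ≤ l → l < 1 → ∃ j g : ℝ, c ≤ j ∧ j ≤ C₀ ∧ c ≤ g ∧ g ≤ C₀ ∧
    |(∫ y, ψ (mob (l • (w : E5)) y) * ⟪(w : E5), (y : E5)⟫_ℝ ∂sig) +
      j * (1 - l ^ 2) * sphLaplacian ψ w| ≤ C * (√(1 - l ^ 2)) ^ 3 ∧
    ∀ e : E5, ⟪(w : E5), e⟫_ℝ = 0 → ‖e‖ ≤ 1 →
      |(∫ y, ψ (mob (l • (w : E5)) y) * ⟪e, (y : E5)⟫_ℝ ∂sig) -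
        g * √(1 - l ^ 2) * dd ψ w e| ≤ C * (√(1 - l ^ 2)) ^ 3

/-! ### F. applications -/

/-- TA3. Second order Taylor formula at a nondegenerate critical point.  Uses TAW, HSW.  `T` = the
symmetric operator of `hess f p` (`hess_symm`), `T p = 0` and the trace by HSW,
`<T z, z> = <T (z - p), z - p>`. -/
def Ta3Stmt : Prop := ∀ (f : S4 → ℝ) (p : S4), Sm f → NondegCrit f p →
  ∃ (T : E5 →L[ℝ] E5) (C : ℝ), 0 ≤ C ∧ (∀ u v : E5, ⟪T u, v⟫_ℝ = ⟪u, T v⟫_ℝ) ∧ T (p : E5) = 0 ∧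
    (∀ v : E5, ⟪(p : E5), v⟫_ℝ = 0 → T v = 0 → v = 0) ∧ tr5 T = sphLaplacian f p ∧
    ∀ z : S4, |f z - f p - 1 / 2 * ⟪T (z : E5), (z : E5)⟫_ℝ| ≤ C * ‖(z : E5) - (p : E5)‖ ^ 3

/-- LPE (existence for large powers).  Uses EXA, TA3 (for `ψ`); REG, SLV and scaling are in
Helper54_FLX/Step.lean (a solution of (IE) is smooth and solves the equation; for `c Q`, `c > 0`, add
`-(log c)/4` to `u`; `Q e^{4u}` does not change).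
`q = 6 (e^{-t(ψ - ψ p)} - 1)`, `k = 3 t`, `ε := ψ p - min ψ > 0`.  For `‖z - p‖ < ρ`, with
`a = t (ψ z - ψ p)`, `|a| ≤ C t ‖z - p‖²`: `|e^{-a} - 1 + a| ≤ a² e^{|a|}`, so
`B = C' t² e^{C t ρ²}`; choose `ρ ≤ min 1 δ` with `C ρ² < ε/100` and `‖x₁ - p‖ > ρ`, `x₁` a minimum point.
`M = 6 e^{t ε} + 6`.  `G ≥ 6 · 2^(-4) v₁ e^{0.99 t ε} - C ≥ e^{0.98 t ε}` for large `t`, `v₁ > 0` the
volume of `{ψ < min ψ + ε/100}` (open, not empty, contained in the far region for small `ρ`), and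
`|G| ≤ C M`.  `s = √(k / |G|)`: `s^(-1/24) ≥ e^{t ε 0.97/48}` for large `t`; check `k, B ≤ s^(-1/24)`,
`M / |G| ≤ 12 e^{0.02 t ε} ≤ s^(-1/24)` (take `0.001` in place of `1/100` where necessary). -/
def LpeStmt : Prop := ∀ (ψ : S4 → ℝ) (p x₀ : S4) (δ : ℝ), Sm ψ → NondegCrit ψ p →
  0 < sphLaplacian ψ p → ψ x₀ < ψ p → 0 < δ → ∃ t₀ : ℝ, ∀ t : ℝ, t₀ ≤ t →
    ∃ u : S4 → ℝ, Sm u ∧
      (∀ x, paneitz u x = Real.exp (-(t * ψ x)) * Real.exp (4 * u x) - 6) ∧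
      ∫ z in {z : S4 | δ ≤ ‖(z : E5) - (p : E5)‖},
        Real.exp (-(t * ψ z)) * Real.exp (4 * u z) ∂sig ≤ msig

/- LEX (`LexStmt` of Final.lean).  Uses LPE, XIS (or `integral_paneitz`: `∫ paneitz u = 0`).
`ψ = -log Q`, `Q x ^ t = exp (-(t ψ x))` (`Real.rpow_def_of_pos`); `p` is a nondegenerate critical point
of `ψ`, `Δ ψ(p) = -Δ Q(p) / Q(p) > 0`.  `δ` = half of the smallest distance of two points of `F`.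
`∫ Q^t e^{4u} = 6 msig` (integrate the equation), so the solution for `p ∈ F` has more than half of the
mass in the ball of radius `δ` around `p`: different solutions for different points (these balls are
disjoint and the density is positive).  `T` = maximum of the `t₀` (`F` is finite), enumerate `F` by
`Fin F.card`.

SEX (`SexStmt` of Final.lean).  Uses SPE, MOM, MOA: `HH Q b = Hx (log Q) b` for `‖b‖ < 1`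
(`∫ ψ (mob b y) dy = ∫ ψ z Jac (-b) z dz`, `Jac (-b) z = bubv b z`), the two functions agree near `b`, so
they have the same derivatives.  `t = 0`: constants. -/

/-- SRB (large perturbation away from a critical point, sign changes allowed).  Uses EXA, TA3.
`q = (6 / Q₀ p)(Q₀ + t R) - 6`, `k = 1`, `T = -(3 / Q₀ p) D²Q₀(p)` (TA3 for `Q₀`), `ρ` so small that
`{‖z - p‖ < ρ} ⊆ U`, `B` constant, `M = C t` (`t ≥ 1`), `GG p ρ q = t c I + O(1)`,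
`I = ∫ R / (1 - <p, z>)⁴`, `tr5 T · I > 0`; `s = |GG|^(-1/2)`. -/
def SrbStmt : Prop := ∀ (Q₀ R : S4 → ℝ) (p : S4) (U : Set S4), Sm Q₀ → Sm R →
  NondegCrit Q₀ p → 0 < Q₀ p → U ∈ 𝓝 p → (∀ x ∈ U, R x = 0) →
  sphLaplacian Q₀ p * ∫ z, R z / (1 - ⟪(p : E5), (z : E5)⟫_ℝ) ^ 4 ∂sig < 0 →
  ∃ t₀ : ℝ, ∀ t : ℝ, t₀ ≤ t → IsPaneitzCurvature (fun x => Q₀ x + t * R x)

/-- the balancing field `∫ ψ (mob b y) y dy` -/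
def bal (ψ : S4 → ℝ) (b : E5) : E5 := ∫ y : S4, ψ (mob b y) • (y : E5) ∂sig

/-- the hyperbolic harmonic extension of `ψ` -/
def Hx (ψ : S4 → ℝ) (b : E5) : ℝ := avg (fun y => ψ (mob b y))

/-- SPA (small powers, existence).  Uses RED, SBL.  `q = 6 (e^{tψ} - 1)`, `|q - 6 t ψ| ≤ C t²`,
`SB (q ∘ mob b) (C |t|)`, so `‖β b - 6 t bal ψ b‖ ≤ C t²` on the ball `S` of radius `r` around `b₀`,
where `‖bal ψ b - L (b - b₀)‖ ≤ ε ‖b - b₀‖`, `ε ‖L⁻¹‖ ≤ 1/4` (`L` is bijective, `E5` has dimension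
`5`).  Brouwer (`schauder`) for `b ↦ b - L⁻¹ (β b / (6 t))` on `S`.  REG, SLV, FIN, scaling as in LPE. -/
def SpaStmt : Prop := ∀ (ψ : S4 → ℝ) (b₀ : E5) (L : E5 →L[ℝ] E5), Sm ψ → ‖b₀‖ < 1 →
  bal ψ b₀ = 0 → HasFDerivAt (bal ψ) L b₀ → Function.Injective L →
  ∃ t₁ : ℝ, 0 < t₁ ∧ ∀ t : ℝ, t ≠ 0 → |t| < t₁ →
    IsPaneitzCurvature (fun x => Real.exp (t * ψ x))

/-- GRH (gradient of the hyperbolic harmonic extension).  MOM for `-b`, MOA: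
`∫ ψ (mob b y) dy = ∫ ψ z Jac (-b) z dz`,
`Jac (-b) z = ((1 - |b|²)² / (1 - <b, z>)⁴)`, smooth in `b`; differentiate under the integral
(`hasFDerivAt_integral_of_dominated_of_fderiv_le` on a small ball around `b`):
`∇_b log Jac (-b) z = -4 b / (1 - |b|²) + 4 z / (1 - <b, z>)`; with `z = mob b y`, `y = mob (-b) z`:
`1 - <b, z> = (1 - |b|²) / (1 + <b, y>)` (MOA), so
`∇_b log Jac = 4 / (1 - |b|²) ((1 + <b,y>) z - b) = 4 / (1 - |b|²) (sq b y + <b,y> / (1 + sq b) b)`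
by the definition of `mobE`.  In the same way `bal ψ` is of class `C¹`:
`bal ψ b = ∫ ψ z Jac (-b) z mobE (-b) z dz`. -/
def GrhStmt : Prop := ∀ (ψ : S4 → ℝ) (b : E5), Sm ψ → ‖b‖ < 1 →
  HasFDerivAt (Hx ψ)
    (innerSL ℝ ((4 / (msig * (1 - ‖b‖ ^ 2))) •
      (sq b • bal ψ b + (⟪b, bal ψ b⟫_ℝ / (1 + sq b)) • b))) b ∧
  ContDiffAt ℝ 1 (bal ψ) b

/-- SPE (small powers, existence at a nondegenerate critical point of `Hx ψ`).  Uses SPA, GRH.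
`gradient = Φ b (bal ψ b)`, `Φ b u = 4 / (msig (1 - |b|²)) (sq b u + <b,u>/(1 + sq b) b)` is injective
(`<b, Φ u> = c (sq b + |b|²/(1 + sq b)) <b, u> = c <b, u>`) and smooth in `b`; at `b₀`:
`bal ψ b₀ = 0` and the second derivative of `Hx ψ` is `Φ b₀ ∘ L`, `L = fderiv (bal ψ) b₀`. -/
def SpeStmt : Prop := ∀ (ψ : S4 → ℝ) (b₀ : E5), Sm ψ → ‖b₀‖ < 1 →
  fderiv ℝ (Hx ψ) b₀ = 0 →
  (∀ v : E5, (∀ w : E5, fderiv ℝ (fderiv ℝ (Hx ψ)) b₀ v w = 0) → v = 0) →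
  ∃ t₁ : ℝ, 0 < t₁ ∧ ∀ t : ℝ, t ≠ 0 → |t| < t₁ →
    IsPaneitzCurvature (fun x => Real.exp (t * ψ x))

end Pool.Agent.PQP
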