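import Pool.Agent.FLX.Kit
import Pool.Agent.Helper82_Vir.TwoCrit

/-!
# Squad PQP (MP_5f32e0_gt): powers of positive functions as Paneitz curvatures, definitions

A solution of `P u + 6 = Q e^{4u}` with `Q > 0` is recorded by the probability density
`f = Q e^{4u} / (6 msig)`, which satisfies `f = A Q exp (4 pot f)`.
-/

set_option autoImplicit false

open scoped InnerProductSpace Topology ContDiff Manifold
open MeasureTheory Filter Set

noncomputable section

namespace Pool.Agent.PQP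

open Pool.Agent.Helper42_Paneitz Pool.Agent.Helper82_Vir Pool.Agent.FLX

/-! ### densities and solutions -/

/-- the logarithmic potential `∫ -log (1 - <x, y>) f y dy` -/
def pot (f : S4 → ℝ) (x : S4) : ℝ := ∫ y, ell x y * f y ∂sig

/-- positive continuous probability densities -/
def Dens (f : S4 → ℝ) : Prop := Continuous f ∧ (∀ x, 0 < f x) ∧ ∫ y, f y ∂sig = 1

/-- the density of a solution for the (positive) curvature function `W` -/
def Sol (W f : S4 → ℝ) : Prop :=
  Dens f ∧ ∃ A : ℝ, 0 < A ∧ ∀ x, f x = A * W x * Real.exp (4 * pot f x)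

/-- pull back of a density by the Moebius map `mob b` -/
def pull (b : E5) (f : S4 → ℝ) (x : S4) : ℝ := f (mob b x) * Jac b x

/-- balanced densities -/
def Bal (f : S4 → ℝ) : Prop := ∫ y : S4, f y • (y : E5) ∂sig = 0

/-- the closed cap `1 - <z, y> ≤ u` (`dist y z ^ 2 = 2 (1 - <z, y>)`) -/
def cap (z : S4) (u : ℝ) : Set S4 := {y : S4 | 1 - ⟪(z : E5), (y : E5)⟫_ℝ ≤ u}

/-- the mass of a cap -/
def mas (f : S4 → ℝ) (z : S4) (u : ℝ) : ℝ := ∫ y in cap z u, f y ∂sig

/-- positive smooth functions with the bound `G` for the gradient of the logarithm -/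
def LG (W : S4 → ℝ) (G : ℝ) : Prop :=
  Sm W ∧ (∀ x, 0 < W x) ∧ ∀ (x : S4) (v : E5), |dd (fun z => Real.log (W z)) x v| ≤ G * ‖v‖

/-- logarithmic derivative -/
def dlog (W : S4 → ℝ) (x : S4) (v : E5) : ℝ := dd (fun z => Real.log (W z)) x v

/-- `∫ (1 + |ell x y|) |f y| dy ≤ B` for all `x` -/
def SB (f : S4 → ℝ) (B : ℝ) : Prop := ∀ x : S4, ∫ y, (1 + |ell x y|) * |f y| ∂sig ≤ B

/-- `Q` is smooth and positive, its critical points are nondegenerate and `Δ Q ≠ 0` at them -/
def Gen (Q : S4 → ℝ) : Prop :=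
  Sm Q ∧ (∀ x, 0 < Q x) ∧
    ∀ x : S4, (∀ v : E5, dd Q x v = 0) → NondegCrit Q x ∧ sphLaplacian Q x ≠ 0

end Pool.Agent.PQP
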