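import Pool.Agent.PQP.Defs

/-!
# Squad PQP: the final statements (helper21)

`Q > 0` smooth on `S^4`.  LARGE POWERS: for generic `Q` and all large `t`, `Q^t` is a Paneitz curvature
iff `Q` has a critical point `p` different from the maximum point with `Δ Q(p) < 0`.  SMALL POWERS: let
`HH Q` be the mean of `log Q` with respect to the bubbles, i.e. the harmonic extension of `log Q` to the
hyperbolic space of dimension 5 (Klein model).  If `HH Q` has a nondegenerate critical point then `Q^t`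
is a Paneitz curvature for all small `t`; if `HH Q` has no critical point (and `Δ Q ≠ 0` at the
critical points of `Q`) then `Q^t` is not, for all small `t ≠ 0`.
-/

set_option autoImplicit false

open scoped InnerProductSpace Topology ContDiff Manifold
open MeasureTheory Filter Set

noncomputable section

namespace Pool.Agent.PQP

open Pool.Agent.Helper42_Paneitz Pool.Agent.Helper82_Vir Pool.Agent.FLX

/-- at least `k` different smooth solutions of `P u = Q e^{4u} - 6` -/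
def AtL (k : ℕ) (Q : S4 → ℝ) : Prop :=
  ∃ u : Fin k → S4 → ℝ, Function.Injective u ∧
    ∀ i, Sm (u i) ∧ ∀ x, paneitz (u i) x = Q x * Real.exp (4 * u i x) - 6

/-- the mean of `log Q` with respect to the bubble with parameter `b` -/
def HH (Q : S4 → ℝ) (b : E5) : ℝ := (∫ y, Real.log (Q y) * bubv b y ∂sig) / msig

/-- LEX: large powers, existence (block E). -/
def LexStmt : Prop :=
  ∀ Q : S4 → ℝ, Sm Q → (∀ x, 0 < Q x) → ∀ F : Finset S4,
    (∀ p ∈ F, NondegCrit Q p ∧ sphLaplacian Q p < 0 ∧ ∃ x, Q p < Q x) →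
      ∃ T : ℝ, ∀ t : ℝ, T ≤ t → AtL F.card (fun x => Q x ^ t)

/-- LNE: large powers, non-existence (block N). -/
def LneStmt : Prop :=
  ∀ Q : S4 → ℝ, Sm Q → (∀ x, 0 < Q x) → ∀ N : S4, (∀ x, x ≠ N → Q x < Q N) →
    (∀ p, Crit Q p → NondegCrit Q p ∧ (p ≠ N → 0 < sphLaplacian Q p)) →
      ∃ T : ℝ, ∀ t : ℝ, T ≤ t → ¬ IsPaneitzCurvature (fun x => Q x ^ t)

/-- SEX: small powers, existence (block E). -/
def SexStmt : Prop :=
  ∀ Q : S4 → ℝ, Sm Q → (∀ x, 0 < Q x) → ∀ b : E5, ‖b‖ < 1 → fderiv ℝ (HH Q) b = 0 →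
    (∀ v : E5, (∀ w : E5, fderiv ℝ (fderiv ℝ (HH Q)) b v w = 0) → v = 0) →
      ∃ τ : ℝ, 0 < τ ∧ ∀ t : ℝ, |t| ≤ τ → IsPaneitzCurvature (fun x => Q x ^ t)

/-- SNE: small powers, non-existence (block S). -/
def SneStmt : Prop :=
  ∀ Q : S4 → ℝ, Sm Q → (∀ x, 0 < Q x) → (∀ p, Crit Q p → sphLaplacian Q p ≠ 0) →
    (∀ b : E5, ‖b‖ < 1 → fderiv ℝ (HH Q) b ≠ 0) →
      ∃ τ : ℝ, 0 < τ ∧ ∀ t : ℝ, t ≠ 0 → |t| ≤ τ → ¬ IsPaneitzCurvature (fun x => Q x ^ t)

/-- the balanced position (Brouwer). Proved by helper21. With `y = mob b x` (MOM, MOA)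
`∫ pull b f x • x = ∫ f y • mob (-b) y`, and `<b, mob b y> = 1 - (1-|b|²)/(1+<b,y>)`; so
`Φ b = ∫ f y • mob b y` satisfies `<Φ b, b> ≥ 1 - (1-|b|²) max f ∫ (1+<b,y>)⁻¹ > 0` for `|b|` near 1
(POW with exponent 1). -/
def BalStmt : Prop :=
  ∀ f : S4 → ℝ, Dens f → ∃ b : E5, ‖b‖ < 1 ∧ Bal (pull b f)

/-- APR: a priori bounds for the powers `e^{t ψ}`, `0 < t ≤ T`, at a closed set `C` of directions such
that `Δ ψ ≠ 0` at the critical points in `C` (balanced position): the parameter `b = lam w` stays away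
from the boundary of the ball and the density is bounded. (Block S rows with block V and the
compactness row: take a sequence with `lam_n → 1`, `w_n → w ∈ C`; then `f_n → 1/msig` off `-w`, and the
moment rows contradict `Δ ψ ≠ 0`. For the bound of `f`, `lam ≤ ρ`: `LG` with a bound `G(ρ, T)`, no
concentration, Jensen.) For stage 2 (zonal functions). -/
def AprStmt : Prop :=
  ∀ (ψ : S4 → ℝ) (C : Set S4), Sm ψ → IsClosed C → (∀ p ∈ C, Crit ψ p → sphLaplacian ψ p ≠ 0) →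
    ∀ T : ℝ, 0 < T → ∃ ρ B : ℝ, ρ < 1 ∧ ∀ (t lam : ℝ) (w : S4) (f : S4 → ℝ), 0 < t → t ≤ T →
      w ∈ C → 0 ≤ lam → lam < 1 → Sol (fun x => Real.exp (t * ψ (mob (lam • (w : E5)) x))) f →
        Bal f → lam ≤ ρ ∧ ∀ x, |Real.log (msig * f x)| ≤ B

end Pool.Agent.PQP
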