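import Pool.Agent.PQP.StmtsZ

/-!
# Squad PQP, stage 2, block B (helper21): antipodal condition, fixed spaces of any dimension

The case `P` a line is D1. Every row has a complete proof in its docstring.
-/

set_option autoImplicit false

open scoped InnerProductSpace Topology ContDiff Manifold
open MeasureTheory Filter Set

noncomputable section

namespace Pool.Agent.PQP

open Pool.Agent.Helper42_Paneitz Pool.Agent.Helper82_Vir Pool.Agent.FLX

/-- BRS. Odd maps are essential (Borsuk). `b : P → P` continuous, odd, with `0` as its only zero.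
Proof (cf. the proofs of ES1 / FTD, Helper62_PQP, Helper32_PQP). Suppose `(β', T')` has the boundary values
of `(b ∘ fst, 0)` and no zero in `Dm`. `P` is finite dimensional, so there is `ε > 0` such that on `Dm`
`‖β' z‖ < ε` implies `ε ≤ ‖z.2 - T' z‖` (compactness of the closed ball of `P` and of the range of `T'`).
As in FTD replace `T'` by `T''` with values in a finite dimensional subspace `V` of `E`, `‖T'' - T'‖ < ε`,
`T'' = 0` where `T' = 0`. Extend `(β', T'')` from `Dm ∩ (P × V)` to `P × V` by `(b ∘ fst, 0)`: a continuous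
map `G(z, h) = (β', h - T'')` of `P × V` to itself without zeros (outside `Dm` a zero has `h = 0`, `b z = 0`,
so `z = 0`), odd outside `Dm`. With a linear isomorphism `P × V ≅ ℝ^(n+1)` (`P × V ≠ 0` because `P ≠ 0`) and
a scaling such that the `ℓ¹` sphere is outside `Dm`, this contradicts `Common_Brouwer.no_odd`. -/
def BrsStmt : Prop :=
  ∀ (P E : Type) [NormedAddCommGroup P] [NormedSpace ℝ P] [FiniteDimensional ℝ P] [Nontrivial P]
    [NormedAddCommGroup E] [NormedSpace ℝ E] (b : P → P), Continuous b → (∀ z, b (-z) = -b z) →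
    (∀ z, b z = 0 → z = 0) → ¬ Ine (fun z : P × E => b z.1) (fun _ => 0)

/-- DBO. Existence under an antipodal condition, any fixed space `P ≠ 0` (for `P = ℝ^5` there is no
symmetry assumption). Uses ZAN, MDC, HMT, BRS.
By ZAN it is enough that `(mdl P ψ ∘ fst, 0)` is essential. HMT with
`β s z = mdl P ψ z - (1 - s) • mdl P ψ (-z)`, `T = 0` (the given pair is the end `s = 1`): a zero on the
boundary has `h = 0`, `‖z‖ = 1`, and with `w = z`, `-w` (points of `S⁴`, `nrm z = w`, `nrm (-z) = -w`) and
`l = 1 - s`: `-Δψ(w) w + ∇ψ(w) = l (Δψ(-w) w + ∇ψ(-w))`; gradients are orthogonal to `w`, so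
`∇ψ(w) = l ∇ψ(-w)` and `-Δψ(w) = l Δψ(-w)`: excluded by hypothesis if `l > 0`, and for `l = 0` (`w` critical
with `Δψ(w) = 0`) also. So the end `s = 0`, `b z = mdl P ψ z - mdl P ψ (-z)`, would be inessential; it is
continuous, odd, positively homogeneous and without zeros on the sphere (`s = 0` above): BRS. -/
def DboStmt : Prop :=
  ∀ (P : Submodule ℝ E5) (ψ : S4 → ℝ), Sm ψ → Inv P ψ → P ≠ ⊥ →
    (∀ p : S4, (p : E5) ∈ P → Crit ψ p → sphLaplacian ψ p ≠ 0) →
    (∀ (p p' : S4) (l : ℝ), (p : E5) ∈ P → (p' : E5) = -(p : E5) → 0 < l → l ≤ 1 →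
      ¬ (gd ψ p = l • gd ψ p' ∧ sphLaplacian ψ p = -(l * sphLaplacian ψ p'))) →
    IsPaneitzCurvature (fun x => Real.exp (ψ x))

end Pool.Agent.PQP
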