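import Pool.Agent.PQP.StmtsV
import Pool.Agent.PQP.StmtsX

/-!
# Squad PQP, block N: large powers, non-existence

`ψ` is smooth, `W = exp (-t ψ)`, `t` large. `N` is the only minimum point of `ψ`, `ψ N = 0`; at all other
critical points `Δ ψ < 0`. Notation: `f = A exp (-t ψ) exp (4 pot f)` is the density of a solution,
`κ = sq (λ w)`, `G = ∫_{cap N ρ} (1 - <N,x>) f`. The proof of each row is in its docstring.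
-/

set_option autoImplicit false

open scoped InnerProductSpace Topology ContDiff Manifold
open MeasureTheory Filter Set

noncomputable section

namespace Pool.Agent.PQP

open Pool.Agent.Helper42_Paneitz Pool.Agent.Helper82_Vir Pool.Agent.FLX

/-- the assumptions on `ψ = - log Q` (normalised) -/
def Psi (ψ : S4 → ℝ) (N : S4) : Prop :=
  Sm ψ ∧ ψ N = 0 ∧ (∀ x, x ≠ N → 0 < ψ x) ∧ NondegCrit ψ N ∧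
    ∀ x, x ≠ N → Crit ψ x → sphLaplacian ψ x < 0

/-- the curvature function `exp (-t ψ)` -/
def Wt (ψ : S4 → ℝ) (t : ℝ) (x : S4) : ℝ := Real.exp (-(t * ψ x))

/-- `G = ∫_{cap N ρ} (1 - <N,x>) f` -/
def GN (N : S4) (ρ : ℝ) (f : S4 → ℝ) : ℝ := ∫ x in cap N ρ, (1 - ⟪(N : E5), (x : E5)⟫_ℝ) * f x ∂sig

/-! ### N1. preliminaries on `ψ` and on small caps -/

/-- WTL. `log (Wt ψ t x) = - t ψ x`, so `dlog (Wt ψ t) x v = - t dd ψ x v`; `L` from `exists_dd_bound`. -/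
def WtlStmt : Prop :=
  ∀ ψ : S4 → ℝ, Sm ψ → (∀ (t : ℝ) (x : S4) (v : E5), dlog (Wt ψ t) x v = - (t * dd ψ x v)) ∧
    (∀ t : ℝ, Sm (Wt ψ t) ∧ ∀ x, 0 < Wt ψ t x) ∧
    ∃ L : ℝ, 0 < L ∧ (∀ t : ℝ, 0 ≤ t → LG (Wt ψ t) (t * L)) ∧
      (∀ (x : S4) (v : E5), |dd ψ x v| ≤ L * ‖v‖) ∧
      ∀ x y : S4, |ψ x - ψ y| ≤ L * ‖(x : E5) - (y : E5)‖

/-- PSN (near the minimum). Let `e` be a unit vector orthogonal to `N` and `x(τ) = cos τ N + sin τ e`,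
`p(τ) = ψ (x(τ))`. `p(0) = p'(0) = 0`, `p''(0) = hess ψ N e e ≥ 2 m > 0` (`hess_lower`), and `p'''` is bounded
uniformly in `e` and `τ ∈ [0, 1]` (the radial extension is smooth on the compact sphere); so
`m τ ≤ p'(τ) ≤ C τ` for `0 ≤ τ ≤ τ₀`. Since `N = cos τ x - sin τ x'` and `dd ψ x x = 0`:
`- dd ψ x N = sin τ p'(τ) ≥ m τ sin τ ≥ m sin² τ = m u (2 - u) ≥ m u`, where `u = 1 - cos τ = 1 - <N,x>`.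
This is the first claim for `ρ₀ = 1 - cos τ₀` (`≤ 1`). (Or: T3 for `ψ` at `N`, TYT, applied to the smooth
function `x ↦ dd ψ x N`: value and derivative vanish at `N`, Hessian `(v,v) ↦ - 2 hess ψ N v v` on tangent
vectors, by HES.) Second claim: `dd ψ N v = 0` and `x ↦ dd ψ x (ee i)` is Lipschitz (`sm_lipschitz`). Third
claim: Taylor along `x(τ)`, or T3 (`dd ψ N = 0`). -/
def PsnStmt : Prop :=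
  ∀ (ψ : S4 → ℝ) (N : S4), Psi ψ N → ∃ c ρ₀ C : ℝ, 0 < c ∧ 0 < ρ₀ ∧ ρ₀ ≤ 1 ∧ 0 < C ∧
    (∀ x ∈ cap N ρ₀, c * (1 - ⟪(N : E5), (x : E5)⟫_ℝ) ≤ - dd ψ x (N : E5)) ∧
    (∀ (x : S4) (v : E5), |dd ψ x v| ≤ C * ‖(x : E5) - (N : E5)‖ * ‖v‖) ∧
    ∀ x : S4, ψ x ≤ C * (1 - ⟪(N : E5), (x : E5)⟫_ℝ)

/-- PSF (away from the minimum). Compactness of `{x | ρ ≤ 1 - <N,x>}` (`pos_lower`). First: `ψ > 0` there.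
Second: if it fails for `η = c₃ = 1/n` there are `x_n` in this compact set with `gd ψ x_n → 0` and
`sphLaplacian ψ x_n > - 1/n`; a limit point `x ≠ N` is critical with `sphLaplacian ψ x ≥ 0`, contradiction.
(`gd ψ` and `sphLaplacian ψ` are continuous; or use the positive continuous function
`‖gd ψ x‖ + max 0 (- sphLaplacian ψ x)` on this compact set: with minimum `2 η`, put `c₃ = η`.) -/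
def PsfStmt : Prop :=
  ∀ (ψ : S4 → ℝ) (N : S4), Psi ψ N → ∀ ρ : ℝ, 0 < ρ → ∃ c η : ℝ, 0 < c ∧ 0 < η ∧
    ∀ x : S4, ρ ≤ 1 - ⟪(N : E5), (x : E5)⟫_ℝ →
      c ≤ ψ x ∧ (‖gd ψ x‖ ≤ η → sphLaplacian ψ x ≤ - c)

/-- VLO (lower bounds for caps). Put `λ = 1 - u`, `b = λ z`, `c = <z,x>`. MOM with
`g = 1_{cap z u}` (and `g = 1_{cap z u} (1 - <z,·>)`); by MOA `1 - <z, mob b x> = u (1 - c)/(1 + λ c)`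
(`(1 - <b, mob b x>)(1 + <b,x>) = 1 - λ²`; for `λ = 0` trivial), so `mob b x ∈ cap z u` iff `c ≥ 0`. And
`Jac b x = (1-λ²)²/(1+λc)⁴ ≥ u²/16`. So `sig (cap z u) ≥ (u²/16) sig {c ≥ 0} ≥ (u²/16) msig/2` (reflection
in `z`) and `∫_{cap z u} (1 - <z,x>) ≥ (u²/16) (u/2) ∫_{c ≥ 0} (1 - c) = c' u³`; `c'` does not depend on `z`
by rotations (or: `(1 - c) ≥ 1/2` on `{0 ≤ c ≤ 1/2}`, whose measure does not depend on `z`). -/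
def VloStmt : Prop :=
  ∃ c : ℝ, 0 < c ∧ ∀ (z : S4) (u : ℝ), 0 < u → u ≤ 1 → c * u ^ 2 ≤ ∫ _x in cap z u, (1 : ℝ) ∂sig ∧
    c * u ^ 3 ≤ ∫ x in cap z u, (1 - ⟪(z : E5), (x : E5)⟫_ℝ) ∂sig

/-- ABD (bounds for `A`). Uses PSN, VLO, POT. `pot f ≥ - log 2`, so `exp (4 pot f) ≥ 1/16`. On
`cap N (1/t)`: `t ψ x ≤ C`. So `f ≥ A e^(-C)/16` there and `1 ≥ ∫_{cap N (1/t)} f ≥ (A e^(-C)/16) c t^(-2)`;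
`GN N ρ f ≥ ∫_{cap N (1/t)} (1 - <N,x>) f ≥ (A e^(-C)/16) c t^(-3)`. -/
def AbdStmt : Prop :=
  ∀ (ψ : S4 → ℝ) (N : S4), Psi ψ N → ∃ C c : ℝ, 0 < C ∧ 0 < c ∧ ∀ (t A : ℝ) (f : S4 → ℝ), 1 ≤ t →
    Dens f → 0 < A → (∀ x, f x = A * Wt ψ t x * Real.exp (4 * pot f x)) →
      A ≤ C * t ^ 2 ∧ ∀ ρ : ℝ, 1 / t ≤ ρ → c * A / t ^ 3 ≤ GN N ρ f

/-! ### N2. where the mass is -/

/-- GRA. Uses VIR, WTL. VIR with `V = gd ψ` (smooth, tangent: `inner_gd`, `dd_self`):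
`dlog W x (V x) = - t ‖gd ψ x‖²` (`dd_gd`). The quotient on the right side is at least `-L`
(`smV_lipschitz`), so `t ∫ ‖gd ψ‖² f ≤ sup |dv (gd ψ)| + 4 L`. -/
def GraStmt : Prop :=
  ∀ ψ : S4 → ℝ, Sm ψ → ∃ C : ℝ, 0 < C ∧ ∀ (t : ℝ) (f : S4 → ℝ), 0 < t → Sol (Wt ψ t) f →
    ∫ x, ‖gd ψ x‖ ^ 2 * f x ∂sig ≤ C / t

/-- GRS. Uses GRA. `‖gd ψ x‖ ≥ ‖gd ψ w‖ - L ‖x - w‖ ≥ ‖gd ψ w‖ - L √2/√t` on `cap w v` (`v ≤ 1/t`,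
`smV_lipschitz`). If `‖gd ψ w‖ ≥ 2 √2 L/√t` then `‖gd ψ‖ ≥ ‖gd ψ w‖/2` there, so
`(1/2)(1/4) ‖gd ψ w‖² ≤ C/t`. -/
def GrsStmt : Prop :=
  ∀ ψ : S4 → ℝ, Sm ψ → ∃ C : ℝ, 0 < C ∧ ∀ (t v : ℝ) (w : S4) (f : S4 → ℝ), 0 < t → v ≤ 1 / t →
    Sol (Wt ψ t) f → 1 / 2 ≤ mas f w v → ‖gd ψ w‖ ≤ C / √t

/-- TIN (a tiny cap). Uses PSF, ABD, JEN, WTL. `E = {x | ε < 1 - <N,x>}`, `ψ ≥ c₂` on `E` (PSF),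
`c = c₂/8`, `u = e^(-ct)`. Suppose `mas f z u ≤ 1/4` for all `z ∈ E`. JEN with `p = 1`, `μ = 1/4`:
`∫_E exp (4 pot f) ≤ C u^(-4) = C e^(4ct)`. So `∫_E f ≤ A e^(-c₂ t) C e^(4ct) ≤ C' t² e^(-c₂ t/2)`, which is
`< ε` for large `t`; but `∫_E f = 1 - mas f N ε`. -/
def TinStmt : Prop :=
  ∀ (ψ : S4 → ℝ) (N : S4), Psi ψ N → ∀ ε : ℝ, 0 < ε → ∃ c T : ℝ, 0 < c ∧ 0 < T ∧
    ∀ (t : ℝ) (f : S4 → ℝ), T ≤ t → Sol (Wt ψ t) f → ε < 1 - mas f N ε →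
      ∃ z : S4, ε < 1 - ⟪(N : E5), (z : E5)⟫_ℝ ∧ 1 / 4 < mas f z (Real.exp (-(c * t)))

/-- ALL (all the mass). Uses TIN, CUT, WTL. Let `c₀` be the constant of TIN for `ε₀`, `r = e^(-c₀ t)`,
`R = e^(-c₀ t/2)`, `2 r ≤ R ≤ 1` for large `t`. On `cap z R`: `‖z - <z,x> x‖ ≤ √(2R)`, so
`|dlog W x (z - <z,x> x)| ≤ t L √(2R) =: D`. CUT: `mas f z r (1 - mas f z R) ≤ C (2/(c₀ t) + D)`, and
`mas f z r > 1/4`; so `1 - mas f z R ≤ 4 C (2/(c₀ t) + D) ≤ ε` for large `t`. `c = c₀/2`. -/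
def AllStmt : Prop :=
  ∀ (ψ : S4 → ℝ) (N : S4), Psi ψ N → ∀ ε₀ ε : ℝ, 0 < ε₀ → 0 < ε → ∃ c T : ℝ, 0 < c ∧ 0 < T ∧
    ∀ (t : ℝ) (f : S4 → ℝ), T ≤ t → Sol (Wt ψ t) f → 1 - mas f N ε₀ ≤ ε₀ ∨
      ∃ z : S4, ε₀ < 1 - ⟪(N : E5), (z : E5)⟫_ℝ ∧ 1 - mas f z (Real.exp (-(c * t))) ≤ ε

/-- CSN (the mass is not at `N`). Uses PSN, PSF, ABD, KWA, JEF, WTL. `ρ₀`, `c` from PSN, `ε₀ = ρ₀/4`
(`≤ 1/4`), `E = {x | ρ₀ < 1 - <N,x>}`. Suppose `1 - mas f N ε₀ ≤ ε₀`. KWA with `a = N`, `A = 0`: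
`cf N 0 x = N - <N,x> x` and `dd ψ x x = 0` give `∫ dd ψ x N f = 0`. So
`c GN N ρ₀ f ≤ ∫_{cap N ρ₀} (- dd ψ x N) f = ∫_E dd ψ x N f ≤ L ∫_E f`. On `E`: `ψ ≥ c₂` (PSF), and JEF with
`w = N`, `u = ε₀`: `∫_E f ≤ A e^(-c₂ t) C ε₀^(-4)`. With `GN N ρ₀ f ≥ c' A t^(-3)` (ABD, `1/t ≤ ρ₀`):
`c c' t^(-3) ≤ L C ε₀^(-4) e^(-c₂ t)`, false for large `t`. -/
def CsnStmt : Prop :=
  ∀ (ψ : S4 → ℝ) (N : S4), Psi ψ N → ∃ ε₀ T : ℝ, 0 < ε₀ ∧ 0 < T ∧ ∀ (t : ℝ) (f : S4 → ℝ), T ≤ t →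
    Sol (Wt ψ t) f → ¬ 1 - mas f N ε₀ ≤ ε₀

/-- SCA (scale and centre of the balanced position). Uses COV, BLM, MOA. Let `h = pull b f`, `b = λ w`,
`P = {x | mob b x ∈ cap z v}`; `∫_P h = mas f z v ≥ 3/4` (COV). For `x, x' ∈ P`:
`‖mob b x - mob b x'‖ ≤ 2 √(2v)`, so `1 - <mob b x, mob b x'> ≤ 4 v` and by MOA
`1 - <x,x'> = (1 - <mob b x, mob b x'>)(1+<b,x>)(1+<b,x'>)/κ² ≤ 16 v/κ²`. If `16 v/κ² ≤ 1/4` then (`P` is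
nonempty, `x₀ ∈ P`) `P ⊆ cap x₀ (1/4)` and `mas h x₀ (1/4) ≥ 3/4 > 4/7`, against BLM. So `κ² < 64 v`.
By BLM `mas h (-w) (1/4) ≤ 4/7 < 3/4`, so there is `x ∈ P` with `1 + <w,x> > 1/4`; by MOA
`1 - <w, mob b x> = (1-λ)(1-<w,x>)/(1+λ<w,x>) ≤ 8 κ² ≤ 512 v` (`1 - λ ≤ κ²`, `1 + λ <w,x> ≥ 1/4`). Hence
`‖w - z‖ ≤ √(1024 v) + √(2 v) ≤ 34 √v` and `1 - <w,z> ≤ 578 v`. -/
def ScaStmt : Prop :=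
  ∀ (f : S4 → ℝ) (w z : S4) (lam v : ℝ), Dens f → 0 ≤ lam → lam < 1 → Bal (pull (lam • (w : E5)) f) →
    0 < v → 3 / 4 ≤ mas f z v →
      sq (lam • (w : E5)) ^ 2 ≤ 600 * v ∧ 1 - ⟪(w : E5), (z : E5)⟫_ℝ ≤ 600 * v

/-- a bubble at `w`, in the balanced position `λ w`, all the mass up to `1/4` in `cap w (e^(-ct))` -/
def Bub (ψ : S4 → ℝ) (N : S4) (ε₁ c t : ℝ) (f : S4 → ℝ) (w : S4) (lam : ℝ) : Prop :=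
  Sol (Wt ψ t) f ∧ 0 ≤ lam ∧ lam < 1 ∧ Bal (pull (lam • (w : E5)) f) ∧
    sq (lam • (w : E5)) ≤ Real.exp (-(c * t)) ∧ ε₁ ≤ 1 - ⟪(N : E5), (w : E5)⟫_ℝ ∧
    1 - mas f w (Real.exp (-(c * t))) ≤ 1 / 4

/-- BUB. Uses ALL, CSN, SCA, BAL. `ε₀` from CSN, ALL with `ε₀` and `ε = 1/4`: there is `z` with
`ε₀ < 1 - <N,z>` and `1 - mas f z v ≤ 1/4`, `v = e^(-c₀ t)`. BAL: a balanced position `b`; write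
`b = λ w` (`w = b/‖b‖`, any `w` for `b = 0`). SCA: `κ² ≤ 600 v`, `1 - <w,z> ≤ 600 v`. So for large `t`:
`κ ≤ e^(-ct)` with `c = c₀/4`; `‖w - z‖ ≤ √(1200 v)`, so `‖N - w‖ ≥ √(2 ε₀) - √(1200 v) ≥ √ε₀` and
`ε₁ = ε₀/2`; and `cap z v ⊆ cap w (e^(-ct))` because `(√(1200 v) + √(2 v))²/2 ≤ e^(-ct)`. -/
def BubStmt : Prop :=
  ∀ (ψ : S4 → ℝ) (N : S4), Psi ψ N → ∃ ε₁ c T : ℝ, 0 < ε₁ ∧ 0 < c ∧ 0 < T ∧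
    ∀ (t : ℝ) (f : S4 → ℝ), T ≤ t → Sol (Wt ψ t) f → ∃ (w : S4) (lam : ℝ), Bub ψ N ε₁ c t f w lam

/-! ### N3. the bubble in the balanced picture, the far region -/

/-- L4N. Uses NLP, COV, MOA, POT, GRS, WTL, TYT. Let `κ = sq (λ w)`, `h = pull (λ w) f`,
`h x = A' W (mob b x) exp (4 pot h x)` (COV), `a = A' e^(-t ψ w)`. For large `t`, `κ t L ≤ θ` (NLP):
`∫ exp (16 pot h) ≤ C`. LOWER bound on `{<w,x> ≥ 0}`: by MOA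
`‖mob b x - w‖² = 2 (1-λ)(1-<w,x>)/(1+λ<w,x>) ≤ 2 κ²`, so `t |ψ (mob b x) - ψ w| ≤ t L 2 κ ≤ 1` for large
`t`, `h ≥ a e^(-1)/16` there, and `1 = ∫ h ≥ (a e^(-1)/16) msig/2`: `a ≤ C`. UPPER bound on
`E = {x | 1 - <w, mob b x> ≤ 1/t}`: `‖mob b x - w‖² ≤ 2/t`, `‖gd ψ w‖ ≤ C/√t` (GRS with `v = e^(-ct) ≤ 1/t`),
so by T3 (TYT) at `w`: `t |ψ (mob b x) - ψ w| ≤ t (C/√t √(2/t) + B (2/t) + B (2/t)^(3/2)) ≤ C`. So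
`h ≤ C a exp (4 pot h)` on `E` and `∫_E h⁴ ≤ C ∫ exp (16 pot h)`. -/
def L4nStmt : Prop :=
  ∀ ψ : S4 → ℝ, Sm ψ → ∀ (N : S4) (ε₁ c : ℝ), 0 < ε₁ → 0 < c → ∃ C T : ℝ, 0 < C ∧ 0 < T ∧
    ∀ (t : ℝ) (f : S4 → ℝ) (w : S4) (lam : ℝ), T ≤ t → Bub ψ N ε₁ c t f w lam →
      ∫ x in {x : S4 | 1 - ⟪(w : E5), (mob (lam • (w : E5)) x : E5)⟫_ℝ ≤ 1 / t},
        pull (lam • (w : E5)) f x ^ 4 ∂sig ≤ C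

/-- NRX (near expansion). Uses L4N, CMW, MTG, COV, MOA, WTL. `E` as in L4N, `κ ≤ e^(-ct)`, so for large
`t`: `λ ≥ 1 - η`, `κ t L ≤ θ`, and `{x | η ≤ 1 + <w,x>} ⊆ E` since
`1 - <w, mob b x> = (1-λ)(1-<w,x>)/(1+λ<w,x>) ≤ 4 κ²/η ≤ 1/t` there (`1 + λ<w,x> ≥ η/2`). CMW gives the `L¹`
bound, L4N the `L⁴` bound, MTG the expansion of `∫_E h (g ∘ mob b - g w)`. By COV (functions `1_{cap w (1/t)} g`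
and `1_{cap w (1/t)}`) the integrals over `E` are integrals over `cap w (1/t)` of `f`. -/
def NrxStmt : Prop :=
  ∃ c4 : ℝ, 0 < c4 ∧ ∀ (ψ : S4 → ℝ), Sm ψ → ∀ (N : S4) (ε₁ c B ε : ℝ), 0 < ε₁ → 0 < c → 0 ≤ B →
    0 < ε → ∃ T : ℝ, 0 < T ∧ ∀ (t : ℝ) (f : S4 → ℝ) (w : S4) (lam : ℝ), T ≤ t →
      Bub ψ N ε₁ c t f w lam → ∀ (g : S4 → ℝ) (G : ℝ), Sm g → T3 B g →
        (∀ v : E5, |dd g w v| ≤ G * ‖v‖) →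
        |∫ x in cap w (1 / t), (g x - g w) * f x ∂sig -
            c4 / 2 * sq (lam • (w : E5)) ^ 2 * sphLaplacian g w| ≤
          ε * (G * sq (lam • (w : E5)) + sq (lam • (w : E5)) ^ 2)

/-- FAR. Uses JEF, PSF, ABD, WTL. `F = {x | 1/t < 1 - <w,x>, ρ < 1 - <N,x>}`. JEF with `u = 1/(4t)`
(`1 - mas f w u ≤ 1/4` because `e^(-ct) ≤ u` for large `t`): `∫_F exp (4 pot f) ≤ C (4t)⁴`. On `F`: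
`ψ ≥ c₂` (PSF). So `∫_F f ≤ A e^(-c₂ t) C (4t)⁴ ≤ ε c' A t^(-3) ≤ ε GN N ρ f` for large `t` (ABD). -/
def FarStmt : Prop :=
  ∀ (ψ : S4 → ℝ) (N : S4), Psi ψ N → ∀ ε₁ c ρ ε : ℝ, 0 < ε₁ → 0 < c → 0 < ρ → 0 < ε →
    ∃ T : ℝ, 0 < T ∧ ∀ (t : ℝ) (f : S4 → ℝ) (w : S4) (lam : ℝ), T ≤ t → Bub ψ N ε₁ c t f w lam →
      ∫ x in {x : S4 | 1 / t < 1 - ⟪(w : E5), (x : E5)⟫_ℝ ∧ ρ < 1 - ⟪(N : E5), (x : E5)⟫_ℝ}, f x ∂sig ≤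
        ε * GN N ρ f

/-! ### N4. the two Kazdan-Warner identities -/

/-- SPL (splitting). Uses FAR, KWA, WTL. Let `g x = dd ψ x (cf a A x)` with `‖a‖ ≤ M`, `‖A‖ ≤ M`; then
`|g| ≤ 3 L M` (`‖cf a A x‖ ≤ 3 M`). By KWA and WTL `∫ g f = 0`. If `ρ ≤ ε₁/8` then `cap w (1/t)` and
`cap N ρ` are disjoint for large `t` (`√(2/t) + √(2ρ) < √(2 ε₁)`), and the rest is `F` of FAR (with
`ε/(3 L M)` in place of `ε`). -/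
def SplStmt : Prop :=
  ∀ (ψ : S4 → ℝ) (N : S4), Psi ψ N → ∀ ε₁ c ρ ε M : ℝ, 0 < ε₁ → 0 < c → 0 < ρ → ρ ≤ ε₁ / 8 → 0 < ε →
    0 < M → ∃ T : ℝ, 0 < T ∧ ∀ (t : ℝ) (f : S4 → ℝ) (w : S4) (lam : ℝ), T ≤ t →
      Bub ψ N ε₁ c t f w lam → ∀ (a : E5) (A : E5 →L[ℝ] E5), (∀ v, ⟪A v, v⟫_ℝ = 0) → ‖a‖ ≤ M →
        ‖A‖ ≤ M →
        |(∫ x in cap w (1 / t), dd ψ x (cf a A x) * f x ∂sig) +
          ∫ x in cap N ρ, dd ψ x (cf a A x) * f x ∂sig| ≤ ε * GN N ρ f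

/-- TCF (Taylor constants for conformal derivatives). Uses TYT. `g = g_{a,A}`, `g x = dd ψ x (cf a A x)`,
is linear in `(a, A)`, and `dd ψ x x = 0`: `g x = ∑_i a_i dd ψ x (ee i) + ∑_{i,j} A_{ij} x_j dd ψ x (ee i)`
(`A_{ij} = <ee i, A (ee j)>`, `|A_{ij}| ≤ ‖A‖`). Each of the finitely many functions
`x ↦ dd ψ x (ee i)`, `x ↦ x_j dd ψ x (ee i)` is smooth, with a Taylor constant (TYT); T3 is stable under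
linear combinations. -/
def TcfStmt : Prop :=
  ∀ ψ : S4 → ℝ, Sm ψ → ∀ M : ℝ, 0 < M → ∃ B : ℝ, 0 ≤ B ∧ ∀ (a : E5) (A : E5 →L[ℝ] E5),
    ‖a‖ ≤ M → ‖A‖ ≤ M → Sm (fun x => dd ψ x (cf a A x)) ∧ T3 B (fun x => dd ψ x (cf a A x))

/-- PAF (parabolic field with a double zero at `N`). For `a` orthogonal to `N` put `A = An N a`
(`An N a x = <a,x> N - <N,x> a`, skew by `An_skew`). Then
`cf a A x = a - <a,x> x + <a,x> N - <N,x> a = (1 - <N,x>) a - <a,x> (x - N)` and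
`‖cf a A x‖ = (1 - <N,x>) ‖a‖`. At `w ≠ N`: for `e` orthogonal to `w` let
`a = (1-<N,w>)⁻¹ (e + (<N,e>/(1-<N,w>)) (w - N))`; then `<a,N> = 0` and `cf a A w = e`
(`<a,w> = <N,e>/(1-<N,w>)`). `‖a‖ = ‖cf a A w‖/(1-<N,w>) = ‖e‖/(1-<N,w>) ≤ ‖e‖/ε₁`, `‖A‖ ≤ 2 ‖a‖`. -/
def PafStmt : Prop :=
  ∀ (N w : S4) (ε₁ : ℝ), 0 < ε₁ → ε₁ ≤ 1 - ⟪(N : E5), (w : E5)⟫_ℝ → ∀ e : E5, ⟪(w : E5), e⟫_ℝ = 0 →
    ∃ (a : E5) (A : E5 →L[ℝ] E5), (∀ v, ⟪A v, v⟫_ℝ = 0) ∧ ‖a‖ ≤ ‖e‖ / ε₁ ∧ ‖A‖ ≤ 2 * ‖e‖ / ε₁ ∧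
      cf a A w = e ∧ ∀ x : S4, ‖cf a A x‖ ≤ (1 - ⟪(N : E5), (x : E5)⟫_ℝ) * (‖e‖ / ε₁)

/-- HYF (hyperbolic field from `w` to `N`). `cf (N - w) (An w N) x = (1 - <N,x>)(x - w) + (1 - <w,x>)(N - x)`
(expand; `An w N x = <N,x> w - <w,x> N`). `g x = dd ψ x (this) = - (1 - <N,x>) dd ψ x w + (1 - <w,x>) dd ψ x N`
because `dd ψ x x = 0`. At `x = w`: `g w = 0` (`dd ψ w w = 0`, `1 - <w,w> = 0`).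
First derivative at `w` (product rule `dd_mul`, `dd_inner`; DIL for `x ↦ dd ψ x w`: value `0`, derivative
`- dd ψ w v`; `dd (<w,·>) w = 0`): `dd g w v = (1 - <N,w>) dd ψ w v`. Laplacian at `w` (`Δ (p q) = p Δ q + q Δ p
+ 2 <∇p, ∇q>`, from `sphLaplacian_eq` and `dd_mul`; `Δ <a,·> = -4 <a,·>`): with `p = 1 - <N,x>`,
`q x = dd ψ x w`, `Δ q w = - 2 Δ ψ w` (DIL), `q w = 0`, `∇p = -(N - <N,w> w)` and `∇q = - gd ψ w` at `w`: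
`Δ (p q) w = - 2 (1 - <N,w>) Δψ w + 2 dd ψ w N`; and with `p' = 1 - <w,x>`
(`p' w = 0`, `∇p' w = 0`, `Δp' w = 4`), `q' x = dd ψ x N`: `Δ (p' q') w = 4 dd ψ w N`. So
`Δ g w = 2 (1 - <N,w>) Δψ w - 2 dd ψ w N + 4 dd ψ w N`, within `2 ‖gd ψ w‖` of the main term. -/
def HyfStmt : Prop :=
  ∀ (ψ : S4 → ℝ) (N w : S4), Sm ψ →
    (∀ x : S4, dd ψ x (cf ((N : E5) - (w : E5)) (An (w : E5) (N : E5)) x) =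
      - ((1 - ⟪(N : E5), (x : E5)⟫_ℝ) * dd ψ x (w : E5)) + (1 - ⟪(w : E5), (x : E5)⟫_ℝ) * dd ψ x (N : E5)) ∧
    dd ψ w (cf ((N : E5) - (w : E5)) (An (w : E5) (N : E5)) w) = 0 ∧
    (∀ v : E5, |dd (fun x => dd ψ x (cf ((N : E5) - (w : E5)) (An (w : E5) (N : E5)) x)) w v| ≤
      2 * ‖gd ψ w‖ * ‖v‖) ∧
    |sphLaplacian (fun x => dd ψ x (cf ((N : E5) - (w : E5)) (An (w : E5) (N : E5)) x)) w -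
      2 * (1 - ⟪(N : E5), (w : E5)⟫_ℝ) * sphLaplacian ψ w| ≤ 2 * ‖gd ψ w‖

/-- PAR (the gradient at the centre). Uses SPL, TCF, PAF, NRX, PSN, HES. If `gd ψ w = 0` nothing to prove.
Let `e = gd ψ w/‖gd ψ w‖` (orthogonal to `w`), `a, A` from PAF, `g x = dd ψ x (cf a A x)`,
`g w = dd ψ w e = ‖gd ψ w‖`, `T3 B g` (TCF with `M = 2/ε₁`), `G = B`. NRX (with `ε' `):
`∫_{cap w (1/t)} g f ≥ g w mas f w (1/t) - (c4/2) κ² |Δ g w| - ε' (B κ + κ²)`, `|Δ g w| ≤ 5 B`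
(`sphLaplacian g w = ∑ hess g w (ee i) (ee i)`), `mas f w (1/t) ≥ 3/4`; for large `t`, `κ ≤ ε'`, so this is at
least `‖gd ψ w‖/2 - (ε/4) κ`. On `cap N ρ` (any `ρ ≤ ρ₀`): `|g x| ≤ C ‖x - N‖ ‖cf a A x‖ ≤
2 C (1 - <N,x>)/ε₁` (PSN). With SPL (`ε = 1`): `‖gd ψ w‖/2 ≤ (ε/4) κ + (2 C/ε₁ + 1) GN N ρ f`. -/
def ParStmt : Prop :=
  ∀ (ψ : S4 → ℝ) (N : S4), Psi ψ N → ∀ ε₁ c ρ : ℝ, 0 < ε₁ → 0 < c → 0 < ρ → ρ ≤ ε₁ / 8 →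
    ∃ C : ℝ, 0 < C ∧ ∀ ε : ℝ, 0 < ε → ∃ T : ℝ, 0 < T ∧ ∀ (t : ℝ) (f : S4 → ℝ) (w : S4) (lam : ℝ),
      T ≤ t → Bub ψ N ε₁ c t f w lam → ‖gd ψ w‖ ≤ ε * sq (lam • (w : E5)) + C * GN N ρ f

/-- HYP (the main identity). Uses SPL, TCF, HYF, NRX, PSN, GRS. `g` as in HYF, `g w = 0`, `T3 B g` (TCF,
`M = 2`), `G = 2 ‖gd ψ w‖`. NRX: `∫_{cap w (1/t)} g f ≤ (c4/2) κ² Δ g w + ε' (2 ‖gd ψ w‖ κ + κ²)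
≤ c4 κ² (1 - <N,w>) Δψ w + c4 κ² ‖gd ψ w‖ + ε' (2 ‖gd ψ w‖ κ + κ²)`, and `‖gd ψ w‖ ≤ C/√t` (GRS): the error is
at most `ε (κ² + κ ‖gd ψ w‖)` for large `t` (`c4 κ² ‖gd ψ w‖ ≤ (ε/2) κ²`). On `cap N ρ`: by PSN (`ρ ≤ ρ₀`) and
`‖x - w‖ ≥ √(2 ε₁) - √(2ρ) ≥ √ε₁ /√2`, i.e. `1 - <w,x> ≥ ε₁/4`:
`g x ≤ (1 - <N,x>) C ‖x - N‖ - (ε₁/4) c₀ (1 - <N,x>) ≤ - (ε₁ c₀/8) (1 - <N,x>)` if
`C √(2ρ) ≤ ε₁ c₀/8` (this and `ρ ≤ ρ₀`, `ρ ≤ ε₁/8` fix `ρ`). With SPL (`ε = ε₁ c₀/16`):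
`0 ≤ ∫_{cap w (1/t)} g f + ∫_{cap N ρ} g f + (ε₁ c₀/16) GN ≤ ... - (ε₁ c₀/16) GN`. -/
def HypStmt : Prop :=
  ∃ c4 : ℝ, 0 < c4 ∧ ∀ (ψ : S4 → ℝ) (N : S4), Psi ψ N → ∀ ε₁ c : ℝ, 0 < ε₁ → 0 < c →
    ∃ ρ c₆ : ℝ, 0 < ρ ∧ ρ ≤ ε₁ / 8 ∧ 0 < c₆ ∧ ∀ ε : ℝ, 0 < ε → ∃ T : ℝ, 0 < T ∧
      ∀ (t : ℝ) (f : S4 → ℝ) (w : S4) (lam : ℝ), T ≤ t → Bub ψ N ε₁ c t f w lam →
        0 ≤ c4 * sq (lam • (w : E5)) ^ 2 * (1 - ⟪(N : E5), (w : E5)⟫_ℝ) * sphLaplacian ψ w +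
          ε * (sq (lam • (w : E5)) ^ 2 + sq (lam • (w : E5)) * ‖gd ψ w‖) - c₆ * GN N ρ f

/-- PNE. Uses BUB, HYP, PAR, PSF, GRS (all `T` large). Suppose `Sol (Wt ψ t) f` for some large `t`; BUB gives `w, λ`. PSF
with `ρ = ε₁`: constants `c₂, η`; for large `t` `‖gd ψ w‖ ≤ C/√t ≤ η` (GRS), so `Δψ w ≤ - c₂`. `κ > 0`,
`κ ≤ 1`, `G = GN N ρ f ≥ 0`. PAR and HYP with the same `ε ≤ 1`:
`0 ≤ - c4 ε₁ c₂ κ² + ε κ² + ε κ (ε κ + C G) - c₆ G ≤ - (c4 ε₁ c₂ - 2 ε) κ² - (c₆ - ε C) G < 0` for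
`ε` small: contradiction. -/
def PneStmt : Prop :=
  ∀ (ψ : S4 → ℝ) (N : S4), Psi ψ N → ∃ T : ℝ, ∀ t : ℝ, T ≤ t → ∀ f : S4 → ℝ, ¬ Sol (Wt ψ t) f

/-- LN2 (large powers, non-existence, without any condition on the Hessian at the critical points other
than the maximum). Uses PNE, SOL. `ψ = - log (Q/Q N)`: `Sm ψ`, `ψ N = 0`, `ψ > 0` elsewhere; `dd ψ x v = - dd Q x v/Q x`,
so the critical points agree, and at a critical point `sphLaplacian ψ x = - sphLaplacian Q x/Q x`,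
`hess ψ x = - hess Q x/Q x` on tangent vectors. `Q^t = Q(N)^t Wt ψ t`, and `Sol (c W) f ↔ Sol W f` for
`c > 0`. -/
def Ln2Stmt : Prop :=
  ∀ Q : S4 → ℝ, Sm Q → (∀ x, 0 < Q x) → ∀ N : S4, (∀ x, x ≠ N → Q x < Q N) → NondegCrit Q N →
    (∀ p, Crit Q p → p ≠ N → 0 < sphLaplacian Q p) →
      ∃ T : ℝ, ∀ t : ℝ, T ≤ t → ¬ IsPaneitzCurvature (fun x => Q x ^ t)

end Pool.Agent.PQP
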