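import Pool.Agent.PQP.Final

/-!
# Squad PQP, block V: solutions as densities, Moebius covariance, virial dichotomy, no concentration

The proof of each row is in its docstring. Notation: `s = <x, y>`, `dist x y ^ 2 = 2 (1 - s)`;
`c = <z, x>`, `u = 1 - c`; `κ = sq b = √(1 - ‖b‖²)`. All rows of FLX (`VolStmt`, `PowStmt`, `KerStmt`,
`ReaStmt`, `RegStmt`, `SymStmt`, `RepStmt`, `FinStmt`, `MoaStmt`, `MosStmt`, `MomStmt` ...) are proved
(`Pool.Agent.Helper54_FLX.All`), and so are the lemmas of `Pool.Agent.Helper82_Vir`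
(`virial`, `tendsto_virial`, `integral_dv_tangent`, `cf_pair`, `dv_cf`, `smV_lipschitz`, ...).
-/

set_option autoImplicit false

open scoped InnerProductSpace Topology ContDiff Manifold
open MeasureTheory Filter Set

noncomputable section

namespace Pool.Agent.PQP

open Pool.Agent.Helper42_Paneitz Pool.Agent.Helper82_Vir Pool.Agent.FLX

/-! ### V1. solutions and potentials -/

/-- POT. `∫ ell x y dy` does not depend on `x`: `ell (act R x) (act R y) = ell x y` for a linear isometry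
`R` with `act R x = x'` (`measurePreserving_act`; `act R` is a homeomorphism). Then by the definition of `K`
`pot f x = 6 msig K f x + c₀ avg f`, so `pot f` is continuous for continuous `f` (REA: `K f` is of class
`C¹`, `continuous_of_cks`). `ell ≥ -log 2` since `1 - s ≤ 2`; so `pot f ≥ -log 2` if `Dens f`. -/
def PotStmt : Prop :=
  ∃ c₀ : ℝ, (∀ x : S4, ∫ y, ell x y ∂sig = c₀) ∧
    ∀ f : S4 → ℝ, Continuous f → Continuous (pot f) ∧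
      (∀ x, pot f x = 6 * msig * K f x + c₀ * avg f) ∧
      (Dens f → ∀ x, - Real.log 2 ≤ pot f x)

/-- SOL. Uses POT. (1) `u` smooth, `P u = Q e^{4u} - 6`. Put `F = Q e^{4u} = P u + 6`, `f = F / (6 msig)`.
`∫ P u = 0` (SYM and REP, or `integral_zlog`, or self-adjointness of `P` against constants), so
`∫ f = 1`. By REP `K (P u) = u - avg u`, and `K F = K (P u)` (`K_add`, `K_const`). By POT
`pot f x = 6 msig K f x + c₀ avg f = K F x + c = u x + c'`. Hence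
`f x = Q x e^{4 u x} / (6 msig) = A Q x exp (4 pot f x)`.
(2) Conversely if `Sol Q f`, `Q` smooth, `Q > 0`, put `w x = log (6 msig f x / Q x) / 4`, continuous;
`Q e^{4w} = 6 msig f`, `avg (Q e^{4w}) = 6`, `w = pot f + c = K (6 msig f) + c'`; so `IE Q w`; FIN. -/
def SolStmt : Prop :=
  ∀ Q : S4 → ℝ, (∀ x, 0 < Q x) →
    (IsPaneitzCurvature Q → ∃ f, Sol Q f) ∧ (Sm Q → (∃ f, Sol Q f) → IsPaneitzCurvature Q)

/-- SMF. Uses POT, SOL. If `Sol W f` and `W > 0` is smooth, then `f` is smooth: with `w` as in SOL (2)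
`w = K (W e^{4w}) + c'`, so `w` is smooth by REG; `f = W e^{4w} / (6 msig)`. More precisely there is a
smooth `u` with `P u + 6 = W e^{4u} = 6 msig f` (SLV), and `dd (log W) + 4 dd u = dd (log f)`. -/
def SmfStmt : Prop :=
  ∀ W f : S4 → ℝ, Sm W → (∀ x, 0 < W x) → Sol W f → Sm f ∧
    ∃ u : S4 → ℝ, Sm u ∧ (∀ x, paneitz u x + 6 = 6 * msig * f x) ∧
      ∀ (x : S4) (v : E5), dd f x v = f x * (dlog W x v + 4 * dd u x v)

/-! ### V2. Moebius maps -/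

/-- COV. Uses POT (only for continuity). `Jac b > 0` and continuous, `mob b` continuous. `∫ pull b f = ∫ f`
is MOM. For the potential: by MOM (for the integrable function `y ↦ ell (mob b x) y f y`; MOM is stated for
all `f`) `pot f (mob b x) = ∫ ell (mob b x) (mob b y) pull b f y dy`, and by MOA
`ell (mob b x) (mob b y) = ell x y - log (1 - ‖b‖²) + log (1 + <b,x>) + log (1 + <b,y>)` for `x ≠ y`, so
`pot f (mob b x) = pot (pull b f) x + log (1 + <b,x>) + c_b`. Multiply by `Jac b x = (1-‖b‖²)²/(1+<b,x>)⁴`: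
`pull b f x = A W (mob b x) exp (4 pot f (mob b x)) Jac b x = A' W (mob b x) exp (4 pot (pull b f) x)`. -/
def CovStmt : Prop :=
  ∀ b : E5, ‖b‖ < 1 →
    (∀ f, Dens f → Dens (pull b f)) ∧
    (∀ W f, Sol W f → Sol (fun x => W (mob b x)) (pull b f)) ∧
    (∀ f g : S4 → ℝ, ∫ x, g (mob b x) * pull b f x ∂sig = ∫ x, g x * f x ∂sig) ∧
    ∀ (f : S4 → ℝ) (E : Set S4), MeasurableSet E → Continuous f →
      ∫ x in {x : S4 | mob b x ∈ E}, pull b f x ∂sig = ∫ x in E, f x ∂sig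

/-- LIP. For `W` with `LG W G`: `|log W x - log W y| ≤ 2 G ‖x - y‖` for all `x y` (great circle from `x` to
`y`, of length at most `(π/2) ‖x - y‖`; antipodal points: any great circle; `hasDerivAt_along`). By MOA
`‖mob b x - mob b y‖² = (1 - ‖b‖²) ‖x - y‖² / ((1 + <b,x>)(1 + <b,y>))`. So
`|log W (mob b x) - log W (mob b y)| ≤ 2 G κ ‖x - y‖ / √((1+<b,x>)(1+<b,y>))`, and the derivative at `x` in
the direction of a tangent vector `v` (curve `normalize (x + τ v)`) is at most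
`2 G κ ‖v‖ / (1 + <b,x>)`; the radial part of `v` does not contribute (`dd_self`) and
`‖v - <x,v> x‖ ≤ ‖v‖`. `W ∘ mob b` is smooth by MOS. -/
def LipbStmt : Prop :=
  ∀ (W : S4 → ℝ) (G : ℝ), LG W G →
    (∀ x y : S4, |Real.log (W x) - Real.log (W y)| ≤ 2 * G * ‖(x : E5) - (y : E5)‖) ∧
    ∀ b : E5, ‖b‖ < 1 → Sm (fun x => W (mob b x)) ∧ (∀ x, 0 < W (mob b x)) ∧
      ∀ (x : S4) (v : E5), |dlog (fun x => W (mob b x)) x v| ≤
        2 * G * sq b / (1 + ⟪b, (x : E5)⟫_ℝ) * ‖v‖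

/-! ### V3. the virial identity -/

/-- VIR. Uses SMF. Let `u` be as in SMF, `F = 6 msig f = P u + 6`. `tendsto_virial` with `Z = F V`:
`∫∫ r <V x, y> / (1 - r s) F x F y → 6 msig ∫ F dd u (V)` as `r → 1`. Symmetrise in `x, y`:
`<V x, y> + <V y, x> = - <V x - V y, x - y> = - k(x,y) ‖x - y‖²` with
`k = <V x - V y, x - y> / ‖x - y‖²` bounded by the Lipschitz constant (`smV_lipschitz`), and
`‖x - y‖² / (1 - r s) ≤ 4`, so by dominated convergence (the diagonal is a null set, `ae_ne`)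
`6 msig ∫ F dd u (V) = - ∫∫ F F k`. By SMF `F (dlog W (V) + 4 dd u (V)) = dd F (V)` and by the divergence
theorem (`integral_dv_tangent` for `F V`, `dv_smul`) `∫ dd F (V) = - ∫ F dv V`. So
`∫ F (dlog W (V) + dv V) = - 4 ∫ F dd u (V) = (4 / (6 msig)) ∫∫ F F k`. Divide by `6 msig`. -/
def VirStmt : Prop :=
  ∀ (W f : S4 → ℝ) (V : S4 → E5), Sm W → (∀ x, 0 < W x) → Sol W f → SmV V →
    (∀ x : S4, ⟪(x : E5), V x⟫_ℝ = 0) →
    ∫ x, (dlog W x (V x) + dv V x) * f x ∂sig =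
      4 * ∫ x, ∫ y, ⟪V x - V y, (x : E5) - (y : E5)⟫_ℝ / ‖(x : E5) - (y : E5)‖ ^ 2 * (f x * f y) ∂sig ∂sig

/-- KWA (Kazdan-Warner). Uses VIR. For `V = cf a A`: `cf_pair` gives `k = - (<a,x> + <a,y>)/2` off the
diagonal, so the right side is `-4 ∫ <a,x> f` (`∫ f = 1`), and `dv V = -4 <a,x>` (`dv_cf`). -/
def KwaStmt : Prop :=
  ∀ (W f : S4 → ℝ) (a : E5) (A : E5 →L[ℝ] E5), Sm W → (∀ x, 0 < W x) → Sol W f →
    (∀ v, ⟪A v, v⟫_ℝ = 0) → ∫ x, dlog W x (cf a A x) * f x ∂sig = 0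

/-- ZVI (zonal virial identity, helper21). Uses VIR. `V x = g(c) (z - c x)`, `c = <z,x>`, is the product of
a smooth function and `cf z 0`; `dv V = g'(c)(1 - c²) - 4 c g(c)`. With `c' = <z,y>`:
`<V x - V y, x - y> = - <V x, y> - <V y, x> = - g(c)(c' - c s) - g(c')(c - c' s)
= (g(c) - g(c'))(c - c') - (1 - s)(c g(c) + c' g(c'))`, and `‖x - y‖² = 2 (1 - s)`. The terms `-4 c g(c)`
cancel. -/
def ZviStmt : Prop :=
  ∀ (W f : S4 → ℝ) (z : S4) (g : ℝ → ℝ), Sm W → (∀ x, 0 < W x) → Sol W f → ContDiff ℝ ∞ g →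
    ∫ x : S4, (g ⟪(z : E5), (x : E5)⟫_ℝ * dlog W x ((z : E5) - ⟪(z : E5), (x : E5)⟫_ℝ • (x : E5)) +
      deriv g ⟪(z : E5), (x : E5)⟫_ℝ * (1 - ⟪(z : E5), (x : E5)⟫_ℝ ^ 2)) * f x ∂sig =
    2 * ∫ x : S4, ∫ y : S4, (g ⟪(z : E5), (x : E5)⟫_ℝ - g ⟪(z : E5), (y : E5)⟫_ℝ) *
      (⟪(z : E5), (x : E5)⟫_ℝ - ⟪(z : E5), (y : E5)⟫_ℝ) / (1 - ⟪(x : E5), (y : E5)⟫_ℝ) *
        (f x * f y) ∂sig ∂sig

/-- CUT (logarithmic cutoff). Uses ZVI, KWA. Let `u = 1 - c` and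
`g(c) = smoothTransition (log (R/u) / log (R/r))` for `u > 0`, `g = 1` for `u ≤ r` (the two definitions
agree for `u ≤ r`, so `g` is smooth on the line; `g = 0` for `u ≥ R`). `g` is nondecreasing in `c`,
`0 ≤ g ≤ 1`, and `g'(c) (1 - c²) = S'(·) u (2 - u) / (u log (R/r)) ≤ 2 sup S' / log (R/r)`.
RIGHT SIDE of ZVI: the integrand is `≥ 0`. For `u ≤ r` and `u' ≥ R ≥ 2 r`: `g = 1`, `g' = 0`,
`c - c' = u' - u ≥ u'/2` and `√(1 - s) ≤ √u + √u' ≤ 2 √u'` (triangle inequality for the distance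
`√2 √(1 - s)`), so `(c - c')/(1 - s) ≥ 1/8`. The same with `x` and `y` exchanged. So the right side is
`≥ 2 · 2 · (1/8) mas f z r (1 - mas f z R)` (the set `u' ≥ R` contains the complement of `cap z R`).
LEFT SIDE, case (a): `≤ D + 2 sup S' / log (R/r)`, because `g ≠ 0` only for `u < R`.
Case (b): the same with `g - 1` in place of `g` in the first term (KWA with `a = z`, `A = 0`:
`∫ dlog W (z - c x) f = 0`), and `g - 1 ≠ 0` only for `u > r`. -/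
def CutStmt : Prop :=
  ∃ C : ℝ, 0 < C ∧ ∀ (W f : S4 → ℝ) (z : S4) (r R D : ℝ), Sm W → (∀ x, 0 < W x) → Sol W f →
    0 < r → 2 * r ≤ R → R ≤ 1 → 0 ≤ D →
    ((∀ x : S4, 1 - ⟪(z : E5), (x : E5)⟫_ℝ ≤ R →
        |dlog W x ((z : E5) - ⟪(z : E5), (x : E5)⟫_ℝ • (x : E5))| ≤ D) ∨
      ∀ x : S4, r ≤ 1 - ⟪(z : E5), (x : E5)⟫_ℝ →
        |dlog W x ((z : E5) - ⟪(z : E5), (x : E5)⟫_ℝ • (x : E5))| ≤ D) →
    mas f z r * (1 - mas f z R) ≤ C * (1 / Real.log (R / r) + D)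

/-! ### V4. Jensen -/

/-- JEG (Jensen, general form). Let `a = 4 p μ < 2` and `φ(x,y) = 4 p max (ell x y) 0`. Fix `x ∈ E`,
`m = ∫_{B_x} f ≤ μ`. Convexity of `exp` for the probability measure with density `f / μ` on `B_x` and the
mass `1 - m/μ` at a point with the value `0` (or: `exp (∑ ...)`; `ConvexOn.map_integral_le`, or
directly `exp (m τ) ≤ 1 - m/μ + (m/μ) exp (μ τ)` and Jensen for the normalised measure):
`exp (∫_{B_x} φ f) ≤ 1 + (1/μ) ∫_{B_x} f(y) exp (μ φ(x,y)) dy ≤ 1 + (1/μ) ∫ f(y) (1 + (1 - s)^(-a)) dy`.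
Integrate over `x ∈ E` (Tonelli) and use POW for the integral over `x`, `∫ f = 1`. -/
def JegStmt : Prop :=
  ∀ p μ : ℝ, 0 < p → 0 < μ → 4 * p * μ < 2 → ∃ C : ℝ, 0 < C ∧
    ∀ (f : S4 → ℝ) (E : Set S4) (B : Set (S4 × S4)), Dens f → MeasurableSet E → MeasurableSet B →
      (∀ x ∈ E, ∫ y in {y | (x, y) ∈ B}, f y ∂sig ≤ μ) →
      IntegrableOn (fun x => Real.exp (4 * p * ∫ y in {y | (x, y) ∈ B}, max (ell x y) 0 * f y ∂sig)) E sig ∧
      ∫ x in E, Real.exp (4 * p * ∫ y in {y | (x, y) ∈ B}, max (ell x y) 0 * f y ∂sig) ∂sig ≤ C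

/-- JEN. Uses JEG, POT. `B = {(x,y) | 1 - s ≤ u}`. For `x ∈ E` split `pot f x` at `cap x u`: on the complement
`ell x y ≤ log (1/u)` and the mass is at most `1`; on `cap x u` use `ell ≤ max ell 0`. So
`exp (4 p pot f x) ≤ u^(-4p) exp (4 p ∫_{cap x u} max (ell x y) 0 f y)`. `pot f` is continuous. -/
def JenStmt : Prop :=
  ∀ p μ : ℝ, 0 < p → 0 < μ → 4 * p * μ < 2 → ∃ C : ℝ, 0 < C ∧
    ∀ (f : S4 → ℝ) (E : Set S4) (u : ℝ), Dens f → MeasurableSet E → 0 < u → u ≤ 1 →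
      (∀ x ∈ E, mas f x u ≤ μ) → ∫ x in E, Real.exp (4 * p * pot f x) ∂sig ≤ C * u ^ (-(4 * p))

/-- JEF (Jensen for the far part). Uses JEG, POT. Let `E` be a measurable set of points `x` with
`1 - <w,x> ≥ 4 u`, and let the mass outside `cap w u` be at most `1/4`. For `x ∈ E`, `y ∈ cap w u`:
`‖x - y‖ ≥ √(8u) - √(2u) = √(2u)`, so `1 - s ≥ u`, `ell x y ≤ log (1/u)`. So
`exp (4 pot f x) ≤ u^(-4) exp (4 ∫_{(cap w u)ᶜ} max (ell x y) 0 f y)`; JEG with `p = 1`, `μ = 1/4`,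
`B = {(x,y) | y ∉ cap w u}`. -/
def JefStmt : Prop :=
  ∃ C : ℝ, 0 < C ∧ ∀ (f : S4 → ℝ) (w : S4) (E : Set S4) (u : ℝ), Dens f → MeasurableSet E → 0 < u →
    u ≤ 1 → (∀ x ∈ E, 4 * u ≤ 1 - ⟪(w : E5), (x : E5)⟫_ℝ) → 1 - mas f w u ≤ 1 / 4 →
    ∫ x in E, Real.exp (4 * pot f x) ∂sig ≤ C * u ^ (-4 : ℝ)

/-! ### V5. balanced solutions do not concentrate -/

/-- BLM. `0 = ∫ <z,y> f ≥ (1 - u) m - (1 - m)` with `m = mas f z u`, because `<z,y> ≥ 1 - u` on the cap and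
`≥ -1` elsewhere. So `m ≤ 1/(2 - u)`. -/
def BlmStmt : Prop :=
  ∀ (f : S4 → ℝ) (z : S4) (u : ℝ), Dens f → Bal f → 0 ≤ u → u ≤ 1 → mas f z u ≤ 1 / (2 - u)

/-- NOC. Uses COV, LIPB, CUT, BLM. Let `h = pull b f`, `V = W ∘ mob b`, `Sol V h` (COV),
`|dlog V x v| ≤ 2 G κ ‖v‖ / (1 + <b,x>)` (LIPB). Write `b = λ w`, `w ∈ S⁴`, `λ = ‖b‖` (any `w` if
`b = 0`), `C` the constant of CUT.
STEP 1, the point `z = -w`. With `c = <z,x> = -<w,x>`, `u = 1 - c = 1 + <w,x>`: `1 + <b,x> ≥ u/4`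
(`λ ≥ 1/2`: `1 - λ + λ u ≥ u/2`; `λ < 1/2`: `≥ 1/2 ≥ u/4`), `‖z - c x‖ = √(1 - c²) ≤ √(2u)`. So
`|dlog V x (z - c x)| ≤ 12 G κ / √u ≤ 12 G κ / √r` for `u ≥ r`: CUT (b) with `R = 1/2`, and
`mas h z (1/2) ≤ 2/3` (BLM) give `mas h (-w) r ≤ 3 C (1 / log (1/(2r)) + 12 G κ / √r)`. Choose first
`r = r₁ ≤ 1/4` and then `θ₁` such that this is `≤ ε` for `κ G ≤ θ₁`.
STEP 2, other points. If `1 + <w,z> ≤ r₁/4` then `cap z (r₁/4) ⊆ cap (-w) r₁`
(`‖y + w‖ ≤ ‖y - z‖ + ‖z + w‖ ≤ 2 √(r₁/2) = √(2 r₁)`): mass `≤ ε`. If `1 + <w,z> > r₁/4`, put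
`R₂ = r₁/16`; for `1 - <z,x> ≤ R₂`: `‖x + w‖ ≥ √(r₁/2) - √(r₁/8) = √(r₁/8)`, `1 + <w,x> ≥ r₁/16`,
`1 + <b,x> ≥ r₁/64`, `|dlog V x (z - c x)| ≤ 128 G κ √(2 R₂) / r₁`: CUT (a) with `R = R₂`,
`mas h z R₂ ≤ 2/3` and `r = r₂` small, then `θ₂` small. Take `u = min (r₁/4) r₂`, `θ = min θ₁ θ₂`. -/
def NocStmt : Prop :=
  ∀ ε : ℝ, 0 < ε → ∃ u θ : ℝ, 0 < u ∧ u ≤ 1 ∧ 0 < θ ∧ ∀ (W f : S4 → ℝ) (G : ℝ) (b : E5),
    LG W G → Sol W f → ‖b‖ < 1 → Bal (pull b f) → sq b * G ≤ θ → ∀ z : S4, mas (pull b f) z u ≤ ε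

/-- NLP. Uses NOC, JEN, COV. NOC with `ε = 1/10` and JEN with `p = 4`, `μ = 1/10` (`16/10 < 2`), `E = univ`:
`∫ exp (16 pot h) ≤ C`. -/
def NlpStmt : Prop :=
  ∃ C θ : ℝ, 0 < C ∧ 0 < θ ∧ ∀ (W f : S4 → ℝ) (G : ℝ) (b : E5),
    LG W G → Sol W f → ‖b‖ < 1 → Bal (pull b f) → sq b * G ≤ θ →
      ∫ x, Real.exp (16 * pot (pull b f) x) ∂sig ≤ C

end Pool.Agent.PQP
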