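import Pool.Agent.PQP.Final
import Pool.Agent.PQP.StmtsC
import Pool.Agent.PQP.StmtsE
import Pool.Agent.PQP.StmtsT

/-!
# Squad PQP, stage 2, block Z (helper21): classes of symmetric functions

`P` is a subspace of `ℝ^5`; `Inv P f`: `f` is invariant under the reflection `R_P = 2 pr_P - 1` which fixes
`P` (it fixes the great sphere `S = S^4 ∩ P`). For `Q = e^ψ > 0` in this class we look for solutions of
`P u + 6 = Q e^{4u}` in the class; bubbles can only be centred at points of `S`, and the degree in the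
class is that of a map of the ball of `P`. For `P` a plane this gives: positive zonal functions
(nondegenerate) are Paneitz curvatures iff they are not monotone.

Notation: `b = ρ z`, `z ∈ P`, `‖z‖ ≤ 1`; `qt ψ t b = 6 (e^{t ψ ∘ mob b} - 1)`, so `6 + qt = 6 e^{t ψ ∘ mob b}`.
Every row has a complete proof in its docstring. The FLX rows (KER POW MOA MOS MOM MOI REA SYM XIS NRM
NLE FIN) are proved, import `Pool.Agent.Helper54_FLX.All` or take them as hypotheses.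
-/

set_option autoImplicit false

open scoped InnerProductSpace Topology ContDiff Manifold
open MeasureTheory Filter Set

noncomputable section

namespace Pool.Agent.PQP

open Pool.Agent.Helper42_Paneitz Pool.Agent.Helper82_Vir Pool.Agent.FLX

/-- invariant under the reflection which fixes `P` -/
def Inv (P : Submodule ℝ E5) (f : S4 → ℝ) : Prop := ∀ x : S4, f (act P.reflection x) = f x

/-- the space of continuous functions in the class -/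
def EE (P : Submodule ℝ E5) : Submodule ℝ C(S4, ℝ) where
  carrier := {f | Inv P f}
  add_mem' := by
    intro f g hf hg x
    show f (act P.reflection x) + g (act P.reflection x) = f x + g x
    rw [hf x, hg x]
  zero_mem' := fun x => rfl
  smul_mem' := by
    intro c f hf x
    show c • f (act P.reflection x) = c • f x
    rw [hf x]

/-- `6 (e^{t ψ ∘ mob b} - 1)` -/
def qt (ψ : S4 → ℝ) (t : ℝ) (b : E5) (x : S4) : ℝ := 6 * (Real.exp (t * ψ (mob b x)) - 1)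

/-- the right side of the fixed point equation -/
def Tf (ψ : S4 → ℝ) (t : ℝ) (b : E5) (h : S4 → ℝ) (x : S4) : ℝ :=
  Aop h x + K (Nn (qt ψ t b) h) x - avg (Nn (qt ψ t b) h) / 24

/-- the remaining (balancing) vector -/
def Bv (ψ : S4 → ℝ) (t : ℝ) (b : E5) (h : S4 → ℝ) : E5 :=
  ∫ y : S4, Nn (qt ψ t b) h y • (y : E5) ∂sig

/-- the first moment of `ψ ∘ mob b` -/
def mo (ψ : S4 → ℝ) (b : E5) : E5 := ∫ y : S4, ψ (mob b y) • (y : E5) ∂sig

open Classical in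
/-- the direction of a nonzero vector, as a point of the sphere -/
def nrm (z : E5) : S4 :=
  if h : z = 0 then pt 0 else ⟨‖z‖⁻¹ • z, by
    rw [mem_sphere_zero_iff_norm, norm_smul, norm_inv, norm_norm, inv_mul_cancel₀]
    exact norm_ne_zero_iff.2 h⟩

/-- the model vector `-Δψ(w) w + ∇ψ(w)` -/
def mw (ψ : S4 → ℝ) (w : S4) : E5 := (-(sphLaplacian ψ w)) • (w : E5) + gd ψ w

/-- the model map of the ball of `P`: `z ↦ |z| (-Δψ(w) w + ∇ψ(w))`, `w = z / |z|` -/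
def mdl (P : Submodule ℝ E5) (ψ : S4 → ℝ) (z : P) : P :=
  ‖z‖ • P.orthogonalProjectionOnto (mw ψ (nrm (z : E5)))

/-! ### A. the class -/

/-- KHL. Hoelder bound for `K`. Uses POW (`a = 1/2`), KER.
`K f x - K f y = (1/(6 msig)) ∫ (ell x z - ell y z)(f z - avg f) dz`, `|f z - avg f| ≤ 2 M`. With
`A = 1 - <x,z>`, `B = 1 - <y,z>`, `|A - B| ≤ |x - y|` and, as `log (1 + u) ≤ √u` for `u ≥ 0`
(`log (1+u) = 2 log √(1+u)`, `√(1+u) ≤ 1 + √u/…`; or compare derivatives),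
`|log A - log B| ≤ √|A - B| (A^(-1/2) + B^(-1/2))` for `z ≠ x, y`. -/
def KhlStmt : Prop :=
  ∃ C : ℝ, 0 ≤ C ∧ ∀ (f : S4 → ℝ) (M : ℝ), Continuous f → (∀ x, |f x| ≤ M) →
    (∀ x, |K f x| ≤ C * M) ∧ ∀ x y : S4, |K f x - K f y| ≤ C * M * √(dist x y)

/-- INV. The class is preserved. Uses MOA, MOS.
`R = R_P` is a linear isometry, `sig` is invariant (`measurePreserving_act`), `<R x, R y> = <x, y>`,
`R R = 1`: `K f (act R x) = K (f ∘ act R) x`, the same for `Aop` and `avg`. For `b ∈ P`, `R b = b`, so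
`mob b (act R x) = act R (mob b x)` (formula `mobE`). The integral of `f y • y` is fixed by `R`, so it is
in `P` (`Submodule.reflection_eq_self_iff`). -/
def InvStmt : Prop :=
  ∀ (P : Submodule ℝ E5) (ψ h : S4 → ℝ) (b : E5) (t : ℝ), Inv P ψ → Inv P h → Continuous ψ →
    Continuous h → b ∈ P → ‖b‖ < 1 →
      (∀ x, mob b (act P.reflection x) = act P.reflection (mob b x)) ∧ Inv P (Tf ψ t b h) ∧
        Bv ψ t b h ∈ P ∧ mo ψ b ∈ P ∧ ∀ f : S4 → ℝ, Continuous f → Inv P f →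
          ∫ y : S4, f y • (y : E5) ∂sig ∈ P

/-- CTZ. Continuity and compactness of the map. Uses KHL, INV, MOS, MOA, REA.
`(s, z, h) ↦ Nn (qt ψ s (ρ z)) (M h)`, as a map to `C(S⁴)`, is continuous on `[0,1] × Dm` (`mob` is
jointly continuous and `S⁴` compact, so `(s, z) ↦ qt ψ s (ρ z)` is continuous to `C(S⁴)`; `h ↦ e^{4 M h}` is
continuous on `C(S⁴)`) and bounded by a constant `B`. `f ↦ K f` is linear and bounded on `C(S⁴)` (KHL), also
`Aop` (its second part has finite rank); so `T` and `β` are continuous. The values of `T` are bounded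
by some `B'` and satisfy `|T x - T y| ≤ B' √(dist x y) + B' dist x y`; the set of such functions in
the closed subspace `EE P` of `C(S⁴)` is compact (Arzela-Ascoli, `BoundedContinuousFunction.arzela_ascoli`
or `ContinuousMap` version). `CkS 1 (K f)` gives the continuity of `K f` (or KHL). -/
def CtzStmt : Prop :=
  ∀ (P : Submodule ℝ E5) (ψ : S4 → ℝ) (ρ M : ℝ), Sm ψ → Inv P ψ → 0 < ρ → ρ < 1 → 0 < M →
    ∃ (β : ℝ × (P × EE P) → P) (T : ℝ × (P × EE P) → EE P),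
      (∀ s ∈ Icc (0 : ℝ) 1, ∀ z ∈ Dm P (EE P),
        (β (s, z) : E5) = Bv ψ s (ρ • (z.1 : E5)) (fun x => M * (z.2 : C(S4, ℝ)) x) ∧
        ∀ x, (T (s, z) : C(S4, ℝ)) x =
          M⁻¹ * Tf ψ s (ρ • (z.1 : E5)) (fun x => M * (z.2 : C(S4, ℝ)) x) x) ∧
      ContinuousOn β (Icc (0 : ℝ) 1 ×ˢ Dm P (EE P)) ∧ Cmp (Icc (0 : ℝ) 1 ×ˢ Dm P (EE P)) T

/-! ### B. zeros are solutions -/

/-- SLZ. Zeros give balanced solutions. Uses XIS, SYM, KER, REA, MOS, MOA.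
Let `F = 6 e^{t ψ(mob b ·)} e^{4h} = Nn q h + 6 + 24 h`. Pairing `h = Tf` with `<v, y>` (XIS):
`<h, v> = <h, v> - <h, v> + <Nn, v>/24 - 0`, and `<Nn, v> = 0` by `Bv = 0`, so `∫ h <v,y> = 0`. Averaging
(SYM: `∫ K f = 0`): `24 avg h + avg Nn = 0`, so `avg F = 6` and `∫ F y = 0`. So `Aop h = 24 K h`,
`h = K (24 h + Nn) + avg h = K F + avg h` (`K` of constants is `0`), i.e. IE. With `f = F/(6 msig)`:
`K F x = ∫ ell x y f y dy - ∫ ell x y dy / msig`, the last term does not depend on `x` (rotations; or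
SYM/`finish`), so `f = A W exp (4 pot f)`. (Compare `finish` in Helper40_FLX/Cor.lean.) -/
def SlzStmt : Prop :=
  ∀ (ψ h : S4 → ℝ) (t : ℝ) (b : E5), Sm ψ → Continuous h → ‖b‖ < 1 → (∀ x, h x = Tf ψ t b h x) →
    Bv ψ t b h = 0 →
      IE (fun x => 6 * Real.exp (t * ψ (mob b x))) h ∧
      Sol (fun x => Real.exp (t * ψ (mob b x)))
        (fun x => Real.exp (t * ψ (mob b x) + 4 * h x) / msig) ∧
      Bal (fun x => Real.exp (t * ψ (mob b x) + 4 * h x) / msig)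

/-- PCZ. Uses MOI, FIN. `MOI` gives a solution of (IE) for `6 e^ψ`, so `6 e^ψ` is a Paneitz curvature, and
so is `e^ψ` (add `(log 6)/4` to `u`; see Helper54_FLX/Step.lean for the scaling). -/
def PczStmt : Prop :=
  ∀ (ψ h : S4 → ℝ) (b : E5), Sm ψ → ‖b‖ < 1 → IE (fun x => 6 * Real.exp (ψ (mob b x))) h →
    IsPaneitzCurvature (fun x => Real.exp (ψ x))

/-- SMT. Small `t`: balanced solutions are nearly uniform (`‖b‖ ≤ ρ` fixed). Uses CMP, LIPB, MOS, MOA.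
`W = e^{t ψ ∘ mob b}`: by LIPB (block V; `e^{tψ}` has `LG` with `G = t L`, `|dd ψ x v| ≤ L |v|`, and
`1 + <b,x> ≥ 1 - ρ`) `LG W (2 t L / (1 - ρ))`. Apply CMP with the parameter `b = 0` (`mob 0 x = x`,
`Jac 0 x = 1`, so `pull 0 f = f`, `sq 0 = 1`) and `w = x`: `|msig f x - 1| ≤ η` for all `x`; take
`2 η ≤ ε`, `η ≤ 1/2`. -/
def SmtStmt : Prop :=
  ∀ (ψ : S4 → ℝ) (ρ ε : ℝ), Sm ψ → ρ < 1 → 0 < ε → ∃ τ : ℝ, 0 < τ ∧
    ∀ (t : ℝ) (b : E5) (f : S4 → ℝ), 0 ≤ t → t ≤ τ → ‖b‖ ≤ ρ →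
      Sol (fun x => Real.exp (t * ψ (mob b x))) f → Bal f → ∀ x, |Real.log (msig * f x)| ≤ ε

/-- SRZ. The regime of small `h`. Uses NRM, KER, NLE, MOS, MOA.
`q = qt ψ t b`, `|q| ≤ C₁ t` for `0 ≤ t ≤ 1` (`|ψ|` is bounded), so `N2 q ≤ C₂ t`. Let `R = sup |h| ≤ R₀`.
`|Aop h| ≤ (9/10) R`, `|K N| ≤ C N2 N`, `|avg N| ≤ C N2 N`, `N2 (Nn q h) ≤ C (N2 q + R²)` (NLE, `R₀ ≤ 1/4`), so
`h = θ Tf` gives `R ≤ (9/10) R + C₃ (t + R²)`, and for `C₃ R₀ ≤ 1/20`: `R ≤ 20 C₃ t`. Then the last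
part of NLE for `θ' h`, `‖Bv - ∫ q y‖ ≤ C (R N2 q + R²) ≤ C₄ t²`, and `|q - 6 t ψ ∘ mob b| ≤ C t²`. -/
def SrzStmt : Prop :=
  ∀ ψ : S4 → ℝ, Sm ψ → ∃ R₀ C : ℝ, 0 < R₀ ∧ 0 < C ∧ ∀ (t θ : ℝ) (b : E5) (h : S4 → ℝ),
    0 ≤ t → t ≤ 1 → 0 ≤ θ → θ ≤ 1 → ‖b‖ < 1 → Continuous h → (∀ x, |h x| ≤ R₀) →
    (∀ x, h x = θ * Tf ψ t b h x) →
      (∀ x, |h x| ≤ C * t) ∧ ∀ θ' : ℝ, 0 ≤ θ' → θ' ≤ 1 →
        ‖Bv ψ t b (fun x => θ' * h x) - (6 * t) • mo ψ b‖ ≤ C * t ^ 2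

/-! ### C. the boundary of the ball -/

/-- LHM. The first moment near the boundary of the ball is homotopic to the model. Uses RTW.
RTW: with `κ = √(1 - ρ²)`, `mo ψ (ρ w) = -j κ² Δψ(w) w + g κ ∇ψ(w) + O(κ³)`, `j, g ≥ c > 0`
(`gd ψ w ⟂ w`, `<gd ψ w, e> = dd ψ w e`). By compactness there are `δ₀, δ₁ > 0` such that for
`w ∈ S = S⁴ ∩ P` one has `|Δψ(w)| ≥ δ₀` or `‖gd ψ w‖ ≥ δ₁` (a zero of `gd ψ` is a critical point). In the first
case the radial component of the combination is at least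
`(1-s)(j κ² δ₀ - C κ³) + s δ₀ > 0` in absolute value, in the second case the component along `gd ψ w` is at
least `(1-s)(g κ δ₁ - C κ³) + s δ₁ > 0`, for small `κ`; the minimum of these is `c`. (If `Δψ(w) w` and
`∇ψ(w)` are both tiny there is nothing to prove: excluded by the choice.) -/
def LhmStmt : Prop :=
  ∀ (P : Submodule ℝ E5) (ψ : S4 → ℝ), Sm ψ →
    (∀ p : S4, (p : E5) ∈ P → Crit ψ p → sphLaplacian ψ p ≠ 0) →
    ∃ ρ₁ : ℝ, ρ₁ < 1 ∧ ∀ ρ : ℝ, ρ₁ ≤ ρ → ρ < 1 → ∃ c : ℝ, 0 < c ∧ ∀ (w : S4) (s : ℝ), (w : E5) ∈ P →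
      0 ≤ s → s ≤ 1 → c ≤ ‖(1 - s) • mo ψ (ρ • (w : E5)) + s • mw ψ w‖

/-- MDC. Continuity of the model map (bounded functions times `‖z‖` at `0`; elsewhere `nrm`,
`sphLaplacian ψ`, `gd ψ` are continuous), and its values for `Inv P ψ`: for `w ∈ P` the vector `mw ψ w` is
in `P`: `gd ψ w` is fixed by `R_P` because `ψ ∘ R_P = ψ` (chain rule at the fixed point `w`). -/
def MdcStmt : Prop :=
  ∀ (P : Submodule ℝ E5) (ψ : S4 → ℝ), Sm ψ → Inv P ψ →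
    Continuous (mdl P ψ) ∧ ∀ z : P, (mdl P ψ z : E5) = ‖z‖ • mw ψ (nrm (z : E5))

/-- ZAN. Main theorem in abstract form. Uses CTZ, SLZ, PCZ, SMT, SRZ, LHM, MDC, INV, HMT and APR
(`Final.lean`). `P ≠ 0`. Suppose `e^ψ` is not a Paneitz curvature.
Constants: APR for the closed set `C = S⁴ ∩ P` and `T = 1`: `ρ₀ < 1`, `B₀`. LHM: `ρ₁`. Choose
`ρ ∈ (0, 1)` with `ρ > ρ₀`, `ρ ≥ ρ₁`, then `c` from LHM (`s = 0` gives `‖mo ψ (ρ w)‖ ≥ c`). `m = max |ψ|`,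
`M > (B₀ + m)/4`. SRZ: `R₀`, `C`; we may take `R₀ ≤ M`. SMT with `ε = R₀`: `τ`, and `t₀ ∈ (0, min(τ, 1)]` so
small that `t₀ m < R₀`, `C t₀ < R₀`, `C t₀ < 6 c` (strictly). `β`, `T` from CTZ for `ρ`, `M`.
(0) By SLZ (`t = 1`) and PCZ the pair `(β 1, T 1)` has no zero in `Dm`: it is inessential (take
`β' = β`, `T' = T`).
(1) HMT for `s ↦ (β, T) (t₀ + (1 - t₀) s)`: a zero `(z, h)` for `t ∈ [t₀, 1]` gives `Sol`, `Bal`, so by APR
(`b = ρ z`, `w = z/|z|`, any `w ∈ S` if `z = 0`) `‖ρ z‖ ≤ ρ₀ < ρ`, `|t ψ + 4 M h| ≤ B₀`, so `‖z‖ < 1`,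
`‖h‖ < 1`: not on the boundary. So the pair at `t₀` is inessential.
(2) HMT for `t = t₀` and the radius `r = r(s)` from `R₀` (`s = 0`) to `M` (`s = 1`): the maps
`(z, h) ↦ β(t₀, z, (r/M) h)`, `(M/r) T(t₀, z, (r/M) h)`; by SMT a zero has
`|4 r h| ≤ R₀ + t₀ m < 2 R₀`, so `‖h‖ < 1`, and `‖z‖ < 1` by APR.
(3) HMT from radius `R₀`, `T` multiplied by `s ∈ [0, 1]`, `β` multiplied by `s + (1-s)/(6 t₀)`, argument
of `β` the same: a zero has `R₀ h = s Tf`, so by SRZ `|R₀ h| ≤ C t₀ < R₀` and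
`‖Bv - 6 t₀ mo ψ (ρ z)‖ ≤ C t₀²`; if `‖z‖ = 1` then `‖Bv‖ ≥ 6 t₀ c - C t₀² > 0`.
(4) HMT with `T = 0`, from `β(t₀, z, (R₀/M) h)/(6 t₀)` to `mdl P ψ z` (linear): a zero has `h = 0`; if
`‖z‖ = 1`, the norm of `(1-s) Bv(t₀, ρ z, 0)/(6 t₀) + s mdl` is at least `c - C t₀/6 > 0` (LHM and SRZ
with `θ' = 0`, `h = 0`, `θ = 0`).
So `(mdl P ψ ∘ fst, 0)` is inessential, a contradiction. -/
def ZanStmt : Prop :=
  ∀ (P : Submodule ℝ E5) (ψ : S4 → ℝ), Sm ψ → Inv P ψ → P ≠ ⊥ →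
    (∀ p : S4, (p : E5) ∈ P → Crit ψ p → sphLaplacian ψ p ≠ 0) →
    ¬ Ine (fun z : P × EE P => mdl P ψ z.1) (fun _ => 0) →
      IsPaneitzCurvature (fun x => Real.exp (ψ x))

/-! ### D. the plane and the line; zonal functions -/

/-- the plane spanned by the last and the first coordinate vector -/
def P2 : Submodule ℝ E5 := Submodule.span ℝ {ee 4, ee 0}

/-- the line spanned by the last coordinate vector -/
def P1 : Submodule ℝ E5 := Submodule.span ℝ {ee 4}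

/-- the great circle in `P2` -/
def cir (φ : ℝ) : S4 := ⟨Real.cos φ • ee 4 + Real.sin φ • ee 0, by
  rw [mem_sphere_zero_iff_norm]
  have h : ‖Real.cos φ • ee 4 + Real.sin φ • ee 0‖ ^ 2 = 1 := by
    rw [@norm_add_sq_real, norm_smul, norm_smul, norm_ee, norm_ee, inner_smul_left,
      inner_smul_right, inner_ee_ee (by decide : (4 : Fin 5) ≠ 0), mul_zero, mul_zero, mul_zero,
      Real.norm_eq_abs, Real.norm_eq_abs, mul_one, mul_one, sq_abs, sq_abs]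
    have := Real.cos_sq_add_sin_sq φ
    linarith
  have h0 := norm_nonneg (Real.cos φ • ee 4 + Real.sin φ • ee 0)
  nlinarith⟩

/-- its tangent vector -/
def cid (φ : ℝ) : E5 := -(Real.sin φ) • ee 4 + Real.cos φ • ee 0

/-- D2. The plane. Uses ZAN, ESS, MDC.
`ι : ℂ → P2`, `z ↦ Re z • ee 4 + Im z • ee 0` is a linear isometry onto `P2`. If the pair
`(mdl P2 ψ ∘ fst, 0)` on `P2 × EE` were inessential, so would be the pair `(b ∘ fst, 0)` on `ℂ × EE`,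
`b = ι⁻¹ ∘ mdl P2 ψ ∘ ι` (compose with `ι`). For `w = cir φ = ι e^{iφ}`: `gd ψ w` is in `P2` (MDC) and
orthogonal to `w`, so `gd ψ w = (dd ψ w (cid φ)) cid φ`, `cid φ = ι (i e^{iφ})`, and
`b(e^{iφ}) = e^{iφ} (-Δψ(w) + i dd ψ w (cid φ)) = r e^{i(φ + α)}`. ESS with `θ = φ + α`. A critical point in
`P2` is some `cir φ` with `dd = 0`, so `Δψ ≠ 0` there by `r > 0`. -/
def D2Stmt : Prop :=
  ∀ (ψ : S4 → ℝ) (r α : ℝ → ℝ), Sm ψ → Inv P2 ψ → Continuous r → Continuous α →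
    (∀ φ, 0 < r φ ∧ -(sphLaplacian ψ (cir φ)) = r φ * Real.cos (α φ) ∧
      dd ψ (cir φ) (cid φ) = r φ * Real.sin (α φ)) →
    α (2 * Real.pi) ≠ α 0 - 2 * Real.pi → IsPaneitzCurvature (fun x => Real.exp (ψ x))

/-- D1. The line. Uses ZAN, ES1, MDC. `pt 4 = N`, `-N` the opposite point. As in D2 with
`ι : ℝ → P1`, `z ↦ z • ee 4`; `gd ψ (±N) = 0` (it is in `P1` and tangential), `b(1) = -Δψ(N)`,
`b(-1) = Δψ(-N)`. -/
def D1Stmt : Prop :=
  ∀ (ψ : S4 → ℝ) (S : S4), Sm ψ → Inv P1 ψ → (S : E5) = -((pt 4 : S4) : E5) →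
    0 < sphLaplacian ψ (pt 4) * sphLaplacian ψ S → IsPaneitzCurvature (fun x => Real.exp (ψ x))

/-- ZEX. Zonal functions, existence. Uses D2, WND, LFT.
`ψ x = Ψ(x_5)`, `Ψ = log q` near `[-1, 1]`; smooth, invariant (`(R_P x)_5 = x_5`). With `c = cos φ`:
`y(φ) := dd ψ (cir φ) (cid φ) = -Ψ'(c) sin φ` (`dd_comp`-type chain rule, `dd_coord`) and (`sphLaplacian_zonal`)
`x(φ) := -Δψ(cir φ) = -(1 - c²) Ψ''(c) + 4 c Ψ'(c)`. `y = 0` iff `sin φ = 0` or `Ψ'(c) = 0`;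
`y' = Ψ''(c) sin² φ - Ψ'(c) c`. Where `Ψ'(c) = 0` (then `|c| < 1`, `Ψ''(c) ≠ 0`): `x y' = -((1-c²) Ψ''(c))² < 0`;
where `c = ±1`: `x y' = -4 Ψ'(c)² < 0`. So `x + i y` has no zeros; LFT gives `r`, `α`, and WND for the zeros
`0 < φ₁ < π < 2π - φ₁ < 2π` of `y` (`cos φ₁ = s` a zero of `q'`) gives `α(2π) ≤ α(0) - 4π`. D2. -/
def ZexStmt : Prop :=
  ∀ q : ℝ → ℝ, ContDiff ℝ ∞ q → (∀ s ∈ Icc (-1 : ℝ) 1, 0 < q s) → deriv q 1 ≠ 0 → deriv q (-1) ≠ 0 →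
    (∀ s ∈ Ioo (-1 : ℝ) 1, deriv q s = 0 → deriv (deriv q) s ≠ 0) →
    (∃ s ∈ Ioo (-1 : ℝ) 1, deriv q s = 0) → IsPaneitzCurvature (fun x : S4 => q ((x : E5) 4))

/-- ZIF. Zonal functions, complete answer in the positive nondegenerate case. Uses ZEX and the second part
of the hand-in `TwoPointObstruction` (`Pool.Agent.Helper59_Vir.Two`, theorem `zonal`): if `q'` has no
zero in `(-1, 1)` it has constant sign, `q' > 0` or, with `p = -ee 4` and `q(-·)`, again increasing; then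
`Q` is not a Paneitz curvature because it is not constant. -/
def ZifStmt : Prop :=
  ∀ q : ℝ → ℝ, ContDiff ℝ ∞ q → (∀ s ∈ Icc (-1 : ℝ) 1, 0 < q s) → deriv q 1 ≠ 0 → deriv q (-1) ≠ 0 →
    (∀ s ∈ Ioo (-1 : ℝ) 1, deriv q s = 0 → deriv (deriv q) s ≠ 0) →
    (IsPaneitzCurvature (fun x : S4 => q ((x : E5) 4)) ↔ ∃ s ∈ Ioo (-1 : ℝ) 1, deriv q s = 0)

end Pool.Agent.PQP
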